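import Pool.Agent.TCC.Alg

/-!
# The coefficients of a cubic
-/

set_option autoImplicit false

namespace Pool.Agent.TCC

open Finsupp

section

variable {k : Type*} [CommRing k]

theorem f_sum (f : MvPolynomial (Fin 2) k) (hf : f.totalDegree ≤ 3) :
    f = ∑ i ∈ Finset.range 4, ∑ j ∈ Finset.range 4,
      MvPolynomial.monomial (single 0 i + single 1 j) (MvPolynomial.coeff (single 0 i + single 1 j) f)
      := by
  ext m
  have hm : m = single 0 (m 0) + single 1 (m 1) := by
    ext i
    fin_cases i <;> simp
  have hinj : ∀ i j : ℕ, (single 0 i + single 1 j : Fin 2 →₀ ℕ) = m ↔ i = m 0 ∧ j = m 1 := by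
    intro i j
    constructor
    · rintro rfl
      simp
    · rintro ⟨rfl, rfl⟩
      exact hm.symm
  simp only [MvPolynomial.coeff_sum, MvPolynomial.coeff_monomial, hinj]
  by_cases h : m 0 ≤ 3 ∧ m 1 ≤ 3
  · rw [Finset.sum_eq_single (m 0), Finset.sum_eq_single (m 1)]
    · rw [if_pos ⟨rfl, rfl⟩, ← hm]
    · intro j _ hj
      rw [if_neg (fun h => hj h.2)]
    · intro h'
      exact absurd (Finset.mem_range.2 (by omega)) h'
    · intro i _ hi
      exact Finset.sum_eq_zero (fun j _ => by rw [if_neg (fun h => hi h.1)])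
    · intro h'
      exact absurd (Finset.mem_range.2 (by omega)) h'
  · rw [MvPolynomial.coeff_eq_zero_of_totalDegree_lt]
    · symm
      refine Finset.sum_eq_zero (fun i hi => Finset.sum_eq_zero (fun j hj => ?_))
      rw [Finset.mem_range] at hi hj
      rw [if_neg]
      rintro ⟨rfl, rfl⟩
      omega
    · have e : ∑ i ∈ m.support, m i = m 0 + m 1 := by
        rw [Finset.sum_subset (Finset.subset_univ m.support)]
        · simp [Fin.sum_univ_two]
        · intro x _ hx
          exact Finsupp.notMem_support_iff.1 hx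
      rw [e]
      omega

/-- the coefficients -/
noncomputable def cfo (f : MvPolynomial (Fin 2) k) : Cf k where
  c00 := MvPolynomial.coeff (single 0 0 + single 1 0) f
  c10 := MvPolynomial.coeff (single 0 1 + single 1 0) f
  c01 := MvPolynomial.coeff (single 0 0 + single 1 1) f
  c20 := MvPolynomial.coeff (single 0 2 + single 1 0) f
  c11 := MvPolynomial.coeff (single 0 1 + single 1 1) f
  c02 := MvPolynomial.coeff (single 0 0 + single 1 2) f
  c30 := MvPolynomial.coeff (single 0 3 + single 1 0) f
  c21 := MvPolynomial.coeff (single 0 2 + single 1 1) f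
  c12 := MvPolynomial.coeff (single 0 1 + single 1 2) f
  c03 := MvPolynomial.coeff (single 0 0 + single 1 3) f

theorem aeval_cfo {A : Type*} [CommRing A] [Algebra k A] (f : MvPolynomial (Fin 2) k)
    (hf : f.totalDegree ≤ 3) (P : Fin 2 → A) :
    MvPolynomial.aeval P f = ((cfo f).map (algebraMap k A)).ev (P 0) (P 1) := by
  have hz : ∀ i j : ℕ, 3 < i + j → MvPolynomial.coeff (single 0 i + single 1 j) f = 0 := by
    intro i j hij
    refine MvPolynomial.coeff_eq_zero_of_totalDegree_lt ?_
    have e : ∑ l ∈ (single 0 i + single 1 j : Fin 2 →₀ ℕ).support,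
        (single 0 i + single 1 j : Fin 2 →₀ ℕ) l = i + j := by
      rw [Finset.sum_subset (Finset.subset_univ _)]
      · simp [Fin.sum_univ_two]
      · intro x _ hx
        exact Finsupp.notMem_support_iff.1 hx
    rw [e]
    omega
  conv_lhs => rw [f_sum f hf]
  simp only [Finset.sum_range_succ, Finset.sum_range_zero, zero_add]
  rw [hz 1 3 (by norm_num), hz 2 2 (by norm_num), hz 2 3 (by norm_num), hz 3 1 (by norm_num),
    hz 3 2 (by norm_num), hz 3 3 (by norm_num)]
  have hp : ∀ i j : ℕ, ((single 0 i + single 1 j : Fin 2 →₀ ℕ).prod fun n e => P n ^ e)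
      = P 0 ^ i * P 1 ^ j := by
    intro i j
    rw [Finsupp.prod_fintype _ _ (fun _ => pow_zero _), Fin.prod_univ_two]
    simp
  simp only [map_add, MvPolynomial.aeval_monomial, hp, Cf.ev, Cf.map, cfo, map_zero, zero_mul,
    add_zero, pow_zero, mul_one, one_mul, pow_one]
  ring

theorem cfo_c03 (f : MvPolynomial (Fin 2) k) :
    (cfo f).c03 = MvPolynomial.coeff (single 1 3) f := by
  simp [cfo]

end

end Pool.Agent.TCC
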