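import Pool.Agent.TQU.Defs

/-!
# Surfaces `z^N (a - b)³ = f(a + b, a b)`: the level curves
-/

namespace Pool.Agent.TCC

universe u

/-- the equation `f(a+b, a b) - c (a-b)³` of a level curve, in the coordinates `a`, `b` -/
noncomputable def level {k M : Type u} [Field k] [Field M] [Algebra k M]
    (f : MvPolynomial (Fin 2) k) (c : M) : MvPolynomial (Fin 2) M :=
  MvPolynomial.aeval ![MvPolynomial.X 0 + MvPolynomial.X 1, MvPolynomial.X 0 * MvPolynomial.X 1] f
    - MvPolynomial.C c * (MvPolynomial.X 0 - MvPolynomial.X 1) ^ 3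

end Pool.Agent.TCC
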