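import Pool.Agent.TCC.FC2
import Pool.Agent.TCC.Cfo
import Pool.Agent.TCC.Defs

/-!
# Surfaces `z^N (a - b)³ = f(a + b, a b)`, `deg f ≤ 3`
-/

set_option autoImplicit false

namespace Pool.Agent.TCC

open Polynomial Pool.Agent.TQU Pool.Agent.TSF Pool.Agent.TQC

universe u

section

variable {k M : Type u} [Field k] [Field M] [Algebra k M]

theorem level_eq (f : MvPolynomial (Fin 2) k) (hf : f.totalDegree ≤ 3) (e : M) :
    level f e = GM ((cfo f).map (algebraMap k M)) e := by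
  rw [level, aeval_cfo f hf, GM, gg]
  rfl

theorem GM_ne (c : Cf M) (h03 : c.c03 ≠ 0) (e : M) : GM c e ≠ 0 := by
  intro h
  have h1 := psi_GM c e
  rw [h, map_zero] at h1
  obtain ⟨h2, -⟩ := GG_lead c h03 e
  rw [← h1, natDegree_zero] at h2
  omega

theorem GM_irr (c : Cf M) (h03 : c.c03 ≠ 0) (e : M) [IsDedekindDomain (CR (GM c e))] :
    Irreducible (GM c e) := by
  have h1 : (Ideal.span {GM c e}).IsPrime :=
    (Ideal.Quotient.isDomain_iff_prime _).1 inferInstance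
  exact ((Ideal.span_singleton_prime (GM_ne c h03 e)).1 h1).irreducible

theorem GM_swap (c : Cf M) (e : M) :
    MvPolynomial.renameEquiv M (Equiv.swap (0 : Fin 2) 1) (GM c e) = GM c (-e) := by
  have h := map_gg (MvPolynomial.renameEquiv M (Equiv.swap (0 : Fin 2) 1)).toAlgHom.toRingHom
    (c.map MvPolynomial.C) (MvPolynomial.C e) (MvPolynomial.X 0) (MvPolynomial.X 1)
  have e0 : (c.map MvPolynomial.C).map
      (MvPolynomial.renameEquiv M (Equiv.swap (0 : Fin 2) 1)).toAlgHom.toRingHom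
      = c.map MvPolynomial.C := by
    rw [Cf.map_map]
    congr 1
    exact RingHom.ext (fun r => MvPolynomial.rename_C _ r)
  have e1 : (MvPolynomial.renameEquiv M (Equiv.swap (0 : Fin 2) 1)).toAlgHom.toRingHom
      (MvPolynomial.C e) = MvPolynomial.C e := MvPolynomial.rename_C _ e
  have e2 : (MvPolynomial.renameEquiv M (Equiv.swap (0 : Fin 2) 1)).toAlgHom.toRingHom
      (MvPolynomial.X 0) = MvPolynomial.X 1 := by
    have := MvPolynomial.rename_X (R := M) (Equiv.swap (0 : Fin 2) 1) 0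
    rw [Equiv.swap_apply_left] at this
    exact this
  have e3 : (MvPolynomial.renameEquiv M (Equiv.swap (0 : Fin 2) 1)).toAlgHom.toRingHom
      (MvPolynomial.X 1) = MvPolynomial.X 0 := by
    have := MvPolynomial.rename_X (R := M) (Equiv.swap (0 : Fin 2) 1) 1
    rw [Equiv.swap_apply_right] at this
    exact this
  have e4 : gg (c.map MvPolynomial.C) (MvPolynomial.C e) (MvPolynomial.X 1) (MvPolynomial.X 0)
      = GM c (-e) := by
    rw [gg_swap, GM, MvPolynomial.C_neg]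
  rw [e0, e1, e2, e3, e4] at h
  exact h

theorem GM_irr' (c : Cf M) (e : M) (h : Irreducible (GM c e)) : Irreducible (GM c (-e)) := by
  let φ : MvPolynomial (Fin 2) M ≃* MvPolynomial (Fin 2) M :=
    (MvPolynomial.renameEquiv M (Equiv.swap (0 : Fin 2) 1)).toRingEquiv.toMulEquiv
  have h1 : Irreducible (φ (GM c e)) := (MulEquiv.irreducible_iff φ).2 h
  have h2 : φ (GM c e) = GM c (-e) := GM_swap c e
  rwa [h2] at h1

theorem fyy_ne (c : Cf k) (h03 : c.c03 ≠ 0) (h3 : (3 : k) ≠ 0 ∨ c.c12 ≠ 0) (a0 b0 : M)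
    (hP : AlgebraicIndependent k ![a0, b0]) :
    (c.map (algebraMap k M)).fyy (a0 + b0) (a0 * b0) ≠ 0 := by
  intro h
  have h1 : MvPolynomial.aeval ![a0, b0] (MvPolynomial.C c.c02 + MvPolynomial.C c.c12
      * (MvPolynomial.X 0 + MvPolynomial.X 1) + MvPolynomial.C (3 * c.c03)
      * (MvPolynomial.X 0 * MvPolynomial.X 1)) = 0 := by
    rw [← h]
    simp only [map_add, map_mul, MvPolynomial.aeval_C, MvPolynomial.aeval_X, Cf.fyy, Cf.map,
      Matrix.cons_val_zero, Matrix.cons_val_one, Matrix.cons_val_fin_one, map_ofNat]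
  have h2 := congrArg psi (hP.eq_zero_of_aeval_eq_zero _ h1)
  simp only [map_add, map_mul, map_zero, psi_C, psi_X0, psi_X1] at h2
  have h4 : (C (C c.c02 + C c.c12 * X) + C (C c.c12 + C (3 * c.c03) * X) * X
      + C 0 * X ^ 2 : k[X][X]) = 0 := by
    rw [← h2]
    simp only [C_add, C_mul, C_0]
    ring
  have h5 := (coeffs3 _ _ _ _ rfl : _ ∧ _ ∧ _).2.1.symm.trans (congrArg (fun p => coeff p 1) h4)
  rw [coeff_zero] at h5
  have h6 : (C c.c12 + C (3 * c.c03) * X : k[X]).coeff 0 = 0 := by rw [h5, coeff_zero]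
  have h7 : (C c.c12 + C (3 * c.c03) * X : k[X]).coeff 1 = 0 := by rw [h5, coeff_zero]
  rw [coeff_add, coeff_C_zero, coeff_C_mul, coeff_X_zero, mul_zero, add_zero] at h6
  rw [coeff_add, coeff_C, if_neg one_ne_zero, coeff_C_mul, coeff_X_one, mul_one, zero_add] at h7
  rcases h3 with h8 | h8
  · exact mul_ne_zero h8 h03 h7
  · exact h8 h6

theorem main (k M : Type u) [Field k] [Field M] [Algebra k M] [IsAlgClosed M]
    (hk : (2 : k) ≠ 0) (f : MvPolynomial (Fin 2) k) (hf : f.totalDegree ≤ 3)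
    (hf1 : MvPolynomial.coeff (Finsupp.single 1 3) f ≠ 0)
    (hf2 : (3 : k) ≠ 0 ∨ MvPolynomial.coeff (Finsupp.single 0 1 + Finsupp.single 1 2) f ≠ 0)
    (N : ℕ) (hN : 0 < N) (P : Fin 2 → M) (hP : AlgebraicIndependent k P) (z : M)
    (hz : z ^ N * (P 0 - P 1) ^ 3 = MvPolynomial.aeval ![P 0 + P 1, P 0 * P 1] f)
    (hsm : IsDedekindDomain (CR (level f (z ^ N)))) :
    ∃ s : Multiset (Fin 2 → M), 5 ≤ s.card ∧
      (∀ Q ∈ s, MvPolynomial.eval Q (level f (z ^ N)) = 0 ∧ FromCurves k z P Q) ∧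
      ((ptIdeal (level f (z ^ N)) P) ^ 3
        * (s.map (ptIdeal (level f (z ^ N)))).prod).IsPrincipal := by
  have h2 : (2 : M) ≠ 0 := by
    intro h
    exact hk ((algebraMap k M).injective (by rw [map_zero, map_ofNat, h]))
  obtain ⟨a0, ha⟩ : ∃ a0, a0 = P 0 := ⟨_, rfl⟩
  obtain ⟨b0, hb⟩ : ∃ b0, b0 = P 1 := ⟨_, rfl⟩
  have hPe : P = ![a0, b0] := by
    funext i
    fin_cases i
    · exact ha.symm
    · exact hb.symm
  rw [← ha, ← hb] at hz
  rw [hPe] at hP ⊢
  have h03 : (cfo f).c03 ≠ 0 := by rw [cfo_c03]; exact hf1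
  have h03' : ((cfo f).map (algebraMap k M)).c03 ≠ 0 := by
    change algebraMap k M (cfo f).c03 ≠ 0
    intro h
    exact h03 ((algebraMap k M).injective (by rw [h, map_zero]))
  have h3 : (3 : k) ≠ 0 ∨ (cfo f).c12 ≠ 0 := hf2
  have hg : gg ((cfo f).map (algebraMap k M)) (z ^ N) a0 b0 = 0 := by
    rw [aeval_cfo f hf] at hz
    simp only [Matrix.cons_val_zero, Matrix.cons_val_one, Matrix.cons_val_fin_one] at hz
    rw [gg, ← hz, sub_self]
  rw [level_eq f hf] at hsm ⊢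
  have hP' : AlgebraicIndependent k ![b0, a0] := by
    have h5 := hP.comp (Equiv.swap (0 : Fin 2) 1) (Equiv.injective _)
    convert h5 using 1
    funext i
    fin_cases i <;> simp
  have hg' : gg ((cfo f).map (algebraMap k M)) (-(z ^ N)) b0 a0 = 0 := by
    rw [gg_swap, neg_neg]; exact hg
  have hab : a0 - b0 ≠ 0 := by
    intro h
    have h5 := hP.injective
    have h6 : (![a0, b0] : Fin 2 → M) 0 = (![a0, b0] : Fin 2 → M) 1 := sub_eq_zero.1 h
    exact absurd (h5 h6) (by decide)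
  have hz0 : z ≠ 0 := by
    rintro rfl
    rw [zero_pow hN.ne'] at hg
    refine level_ne (cfo f) h03 a0 b0 hP 0 ?_
    rw [map_zero]
    exact hg
  have hirr := GM_irr _ h03' (z ^ N)
  have hC : (a0 - b0) * ((cfo f).map (algebraMap k M)).fyy (a0 + b0) (a0 * b0) ≠ 0 :=
    mul_ne_zero hab (fyy_ne (cfo f) h03 h3 a0 b0 hP)
  obtain ⟨s, hs, hs2, hs3⟩ := partners ((cfo f).map (algebraMap k M)) h03' (z ^ N) a0 b0 hg hC
    (fun β hβ => cop (cfo f) h03 h3 a0 b0 hP (z ^ N) hg hirr β hβ.1 hβ.2)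
    (fun β hβ => cop (cfo f) h03 h3 b0 a0 hP' (-(z ^ N)) hg' (GM_irr' _ _ hirr) β hβ.1 hβ.2)
  refine ⟨s, hs, fun Q hQ => ?_, hs3⟩
  obtain ⟨h5, h6⟩ := hs2 Q hQ
  exact ⟨h5, fromCurves h2 (cfo f) h03 a0 b0 hP N hN z hz0 hg hab
    (DD_ne h2 _ h03' (z ^ N)) Q h6⟩

end

end Pool.Agent.TCC
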