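import Mathlib

/-!
# Cubics in the coordinates `x = a + b`, `y = a b`: formulas
-/

set_option autoImplicit false

namespace Pool.Agent.TCC

/-- the coefficients of a polynomial of degree at most three in two variables -/
@[ext] structure Cf (A : Type*) where
  c00 : A
  c10 : A
  c01 : A
  c20 : A
  c11 : A
  c02 : A
  c30 : A
  c21 : A
  c12 : A
  c03 : A

section

variable {A B : Type*} [CommRing A] [CommRing B]

/-- image of the coefficients -/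
def Cf.map (c : Cf A) (φ : A →+* B) : Cf B :=
  ⟨φ c.c00, φ c.c10, φ c.c01, φ c.c20, φ c.c11, φ c.c02, φ c.c30, φ c.c21, φ c.c12, φ c.c03⟩

/-- value -/
def Cf.ev (c : Cf A) (x y : A) : A :=
  c.c00 + c.c10 * x + c.c01 * y + c.c20 * x ^ 2 + c.c11 * x * y + c.c02 * y ^ 2
    + c.c30 * x ^ 3 + c.c21 * x ^ 2 * y + c.c12 * x * y ^ 2 + c.c03 * y ^ 3

def Cf.fx (c : Cf A) (x y : A) : A :=
  c.c10 + 2 * c.c20 * x + c.c11 * y + 3 * c.c30 * x ^ 2 + 2 * c.c21 * x * y + c.c12 * y ^ 2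

def Cf.fy (c : Cf A) (x y : A) : A :=
  c.c01 + c.c11 * x + 2 * c.c02 * y + c.c21 * x ^ 2 + 2 * c.c12 * x * y + 3 * c.c03 * y ^ 2

def Cf.fxx (c : Cf A) (x y : A) : A := c.c20 + 3 * c.c30 * x + c.c21 * y

def Cf.fxy (c : Cf A) (x y : A) : A := c.c11 + 2 * c.c21 * x + 2 * c.c12 * y

def Cf.fyy (c : Cf A) (x y : A) : A := c.c02 + c.c12 * x + 3 * c.c03 * y

/-- Taylor forms -/
def Cf.T1 (c : Cf A) (x y ξ η : A) : A := c.fx x y * ξ + c.fy x y * η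

def Cf.T2 (c : Cf A) (x y ξ η : A) : A :=
  c.fxx x y * ξ ^ 2 + c.fxy x y * ξ * η + c.fyy x y * η ^ 2

def Cf.T3 (c : Cf A) (ξ η : A) : A :=
  c.c30 * ξ ^ 3 + c.c21 * ξ ^ 2 * η + c.c12 * ξ * η ^ 2 + c.c03 * η ^ 3

theorem Cf.taylor (c : Cf A) (x y ξ η t : A) :
    c.ev (x + t * ξ) (y + t * η) = c.ev x y + t * c.T1 x y ξ η + t ^ 2 * c.T2 x y ξ η
      + t ^ 3 * c.T3 ξ η := by
  simp only [Cf.ev, Cf.T1, Cf.T2, Cf.T3, Cf.fx, Cf.fy, Cf.fxx, Cf.fxy, Cf.fyy]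
  ring

/-- the level curve `f(a+b, ab) = e (a-b)³` -/
def gg (c : Cf A) (e a b : A) : A := c.ev (a + b) (a * b) - e * (a - b) ^ 3

/-- the `(2,2)`-form vanishing to order three at `(a0, b0)` -/
def hh (c : Cf A) (a0 b0 a b : A) : A :=
  ((a - b) - 2 * (a0 - b0)) * c.T1 (a0 + b0) (a0 * b0) (a + b - (a0 + b0)) (a * b - a0 * b0)
    - (a0 - b0) * c.T2 (a0 + b0) (a0 * b0) (a + b - (a0 + b0)) (a * b - a0 * b0)
    + 3 * c.ev (a0 + b0) (a0 * b0) * ((a - b) - (a0 - b0))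

theorem gg_swap (c : Cf A) (e a b : A) : gg c e a b = gg c (-e) b a := by
  simp only [gg, Cf.ev]
  ring

theorem hh_swap (c : Cf A) (a0 b0 a b : A) : hh c a0 b0 a b = - hh c b0 a0 b a := by
  simp only [hh, Cf.ev, Cf.T1, Cf.T2, Cf.fx, Cf.fy, Cf.fxx, Cf.fxy, Cf.fyy]
  ring

theorem map_ev (φ : A →+* B) (c : Cf A) (x y : A) : φ (c.ev x y) = (c.map φ).ev (φ x) (φ y) := by
  simp only [Cf.ev, Cf.map, map_add, map_mul, map_pow]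

theorem map_gg (φ : A →+* B) (c : Cf A) (e a b : A) :
    φ (gg c e a b) = gg (c.map φ) (φ e) (φ a) (φ b) := by
  simp only [gg, map_sub, map_mul, map_pow, map_ev, map_add]

theorem map_hh (φ : A →+* B) (c : Cf A) (a0 b0 a b : A) :
    φ (hh c a0 b0 a b) = hh (c.map φ) (φ a0) (φ b0) (φ a) (φ b) := by
  simp only [hh, Cf.ev, Cf.T1, Cf.T2, Cf.fx, Cf.fy, Cf.fxx, Cf.fxy, Cf.fyy, Cf.map, map_sub,
    map_mul, map_pow, map_add, map_ofNat]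

theorem Cf.map_map {D : Type*} [CommRing D] (c : Cf A) (φ : A →+* B) (ψ : B →+* D) :
    (c.map φ).map ψ = c.map (ψ.comp φ) := rfl

/-- `A₁`, `A₂`, `A₃` for the displacement `(ξ, η, θ)` -/
def A1 (c : Cf A) (e a0 b0 ξ η θ : A) : A :=
  c.T1 (a0 + b0) (a0 * b0) ξ η - 3 * e * (a0 - b0) ^ 2 * θ

def A2 (c : Cf A) (e a0 b0 ξ η θ : A) : A :=
  c.T2 (a0 + b0) (a0 * b0) ξ η - 3 * e * (a0 - b0) * θ ^ 2

def A3 (c : Cf A) (e ξ η θ : A) : A := c.T3 ξ η - e * θ ^ 3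

theorem hh_eq (c : Cf A) (e a0 b0 a b : A) :
    hh c a0 b0 a b = ((a - b) - (a0 - b0) - (a0 - b0))
        * A1 c e a0 b0 (a + b - (a0 + b0)) (a * b - a0 * b0) ((a - b) - (a0 - b0))
      - (a0 - b0) * A2 c e a0 b0 (a + b - (a0 + b0)) (a * b - a0 * b0) ((a - b) - (a0 - b0))
      + 3 * gg c e a0 b0 * ((a - b) - (a0 - b0)) := by
  simp only [hh, A1, A2, gg]
  ring

theorem gg_sub (c : Cf A) (e a0 b0 a b : A) :
    gg c e a b - gg c e a0 b0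
      = A1 c e a0 b0 (a + b - (a0 + b0)) (a * b - a0 * b0) ((a - b) - (a0 - b0))
        + A2 c e a0 b0 (a + b - (a0 + b0)) (a * b - a0 * b0) ((a - b) - (a0 - b0))
        + A3 c e (a + b - (a0 + b0)) (a * b - a0 * b0) ((a - b) - (a0 - b0)) := by
  simp only [gg, A1, A2, A3, Cf.ev, Cf.T1, Cf.T2, Cf.T3, Cf.fx, Cf.fy, Cf.fxx, Cf.fxy, Cf.fyy]
  ring

/-- the coefficient of `a²` in `hh` -/
def h2 (c : Cf A) (a0 b0 b : A) : A :=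
  c.fx (a0 + b0) (a0 * b0) + c.fy (a0 + b0) (a0 * b0) * b
    - (a0 - b0) * (c.fxx (a0 + b0) (a0 * b0) + c.fxy (a0 + b0) (a0 * b0) * b
      + c.fyy (a0 + b0) (a0 * b0) * b ^ 2)

def h1 (c : Cf A) (a0 b0 b : A) : A :=
  (c.fx (a0 + b0) (a0 * b0) * (b - (a0 + b0)) - c.fy (a0 + b0) (a0 * b0) * (a0 * b0))
    - (b + 2 * (a0 - b0)) * (c.fx (a0 + b0) (a0 * b0) + c.fy (a0 + b0) (a0 * b0) * b)
    - (a0 - b0) * (2 * c.fxx (a0 + b0) (a0 * b0) * (b - (a0 + b0))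
      + c.fxy (a0 + b0) (a0 * b0) * (b * (b - (a0 + b0)) - a0 * b0)
      - 2 * c.fyy (a0 + b0) (a0 * b0) * b * (a0 * b0))
    + 3 * c.ev (a0 + b0) (a0 * b0)

def h0 (c : Cf A) (a0 b0 b : A) : A :=
  - (b + 2 * (a0 - b0)) * (c.fx (a0 + b0) (a0 * b0) * (b - (a0 + b0))
      - c.fy (a0 + b0) (a0 * b0) * (a0 * b0))
    - (a0 - b0) * (c.fxx (a0 + b0) (a0 * b0) * (b - (a0 + b0)) ^ 2
      - c.fxy (a0 + b0) (a0 * b0) * (a0 * b0) * (b - (a0 + b0))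
      + c.fyy (a0 + b0) (a0 * b0) * (a0 * b0) ^ 2)
    - 3 * c.ev (a0 + b0) (a0 * b0) * (b + (a0 - b0))

theorem hh_expand (c : Cf A) (a0 b0 a b : A) :
    hh c a0 b0 a b = h0 c a0 b0 b + h1 c a0 b0 b * a + h2 c a0 b0 b * a ^ 2 := by
  simp only [hh, h0, h1, h2, Cf.T1, Cf.T2]
  ring

def g3 (c : Cf A) (e b : A) : A := c.c30 + c.c21 * b + c.c12 * b ^ 2 + c.c03 * b ^ 3 - e

def g2 (c : Cf A) (e b : A) : A :=
  c.c20 + (c.c11 + 3 * c.c30) * b + (c.c02 + 2 * c.c21) * b ^ 2 + c.c12 * b ^ 3 + 3 * e * b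

def g1 (c : Cf A) (e b : A) : A :=
  c.c10 + (c.c01 + 2 * c.c20) * b + (c.c11 + 3 * c.c30) * b ^ 2 + c.c21 * b ^ 3 - 3 * e * b ^ 2

def g0 (c : Cf A) (e b : A) : A :=
  c.c00 + c.c10 * b + c.c20 * b ^ 2 + c.c30 * b ^ 3 + e * b ^ 3

theorem gg_expand (c : Cf A) (e a b : A) :
    gg c e a b = g0 c e b + g1 c e b * a + g2 c e b * a ^ 2 + g3 c e b * a ^ 3 := by
  simp only [gg, g0, g1, g2, g3, Cf.ev]
  ring

/-- `h2` as a polynomial in the coordinates of the base point -/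
def w0 (c : Cf A) (b β : A) : A :=
  c.c10 + 3 * b * c.c20 + 6 * b ^ 2 * c.c30 + c.c01 * β + b * c.c02 * β ^ 2 + 2 * b * c.c11 * β
    + b ^ 2 * c.c12 * β ^ 2 + 3 * b ^ 2 * c.c21 * β

def w1 (c : Cf A) (b β : A) : A :=
  c.c20 + b * c.c11 + 6 * b * c.c30 + 3 * b ^ 2 * c.c21 - c.c02 * β ^ 2 + 2 * b * c.c02 * β
    + 2 * b * c.c21 * β + 3 * b ^ 2 * c.c03 * β ^ 2 + 4 * b ^ 2 * c.c12 * β

def w2 (c : Cf A) (b β : A) : A :=
  (c.c12 + 3 * c.c03 * β) * b ^ 2 + (c.c21 - 3 * c.c03 * β ^ 2) * b - (c.c12 * β + c.c21) * β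

theorem h2_expand (c : Cf A) (a b β : A) :
    h2 c a b β = w0 c b β + w1 c b β * a + w2 c b β * a ^ 2 := by
  simp only [h2, w0, w1, w2, Cf.fx, Cf.fy, Cf.fxx, Cf.fxy, Cf.fyy]
  ring

end

end Pool.Agent.TCC
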