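import Pool.Agent.TCC.Alg

/-!
# The forms as polynomials in `a` over the polynomials in `b`
-/

set_option autoImplicit false

namespace Pool.Agent.TCC

open Polynomial

section

variable {M : Type*} [CommRing M]

theorem cq (a0 a1 a2 : M) : (C a0 + C a1 * X + C a2 * X ^ 2 : M[X]).coeff 2 = a2 := by
  simp [coeff_X, coeff_X_pow, coeff_C]

theorem Cf.map_C_map (c : Cf M) : (c.map (C : M →+* M[X])).map (C : M[X] →+* M[X][X])
    = c.map ((C : M[X] →+* M[X][X]).comp (C : M →+* M[X])) := rfl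

theorem C_g0 (c : Cf M) (e b : M) : (C (g0 c e b) : M[X]) = g0 (c.map C) (C e) (C b) := by
  simp only [g0, Cf.map, C_add, C_mul, C_pow]

theorem C_g1 (c : Cf M) (e b : M) : (C (g1 c e b) : M[X]) = g1 (c.map C) (C e) (C b) := by
  simp only [g1, Cf.map, C_add, C_sub, C_mul, C_pow, map_ofNat]

theorem C_g2 (c : Cf M) (e b : M) : (C (g2 c e b) : M[X]) = g2 (c.map C) (C e) (C b) := by
  simp only [g2, Cf.map, C_add, C_sub, C_mul, C_pow, map_ofNat]

theorem C_g3 (c : Cf M) (e b : M) : (C (g3 c e b) : M[X]) = g3 (c.map C) (C e) (C b) := by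
  simp only [g3, Cf.map, C_add, C_sub, C_mul, C_pow]

theorem C_ev (c : Cf M) (x y : M) : (C (c.ev x y) : M[X]) = (c.map C).ev (C x) (C y) :=
  map_ev C c x y

theorem C_h0 (c : Cf M) (a0 b0 b : M) :
    (C (h0 c a0 b0 b) : M[X]) = h0 (c.map C) (C a0) (C b0) (C b) := by
  simp only [h0, Cf.fx, Cf.fy, Cf.fxx, Cf.fxy, Cf.fyy, Cf.ev, Cf.map, C_add, C_sub, C_mul, C_pow,
    C_neg, map_ofNat]

theorem C_h1 (c : Cf M) (a0 b0 b : M) :
    (C (h1 c a0 b0 b) : M[X]) = h1 (c.map C) (C a0) (C b0) (C b) := by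
  simp only [h1, Cf.fx, Cf.fy, Cf.fxx, Cf.fxy, Cf.fyy, Cf.ev, Cf.map, C_add, C_sub, C_mul, C_pow,
    C_neg, map_ofNat]

theorem C_h2 (c : Cf M) (a0 b0 b : M) :
    (C (h2 c a0 b0 b) : M[X]) = h2 (c.map C) (C a0) (C b0) (C b) := by
  simp only [h2, Cf.fx, Cf.fy, Cf.fxx, Cf.fxy, Cf.fyy, Cf.map, C_add, C_sub, C_mul, C_pow,
    C_neg, map_ofNat]

theorem C_w0 (c : Cf M) (b β : M) : (C (w0 c b β) : M[X]) = w0 (c.map C) (C b) (C β) := by
  simp only [w0, Cf.map, C_add, C_sub, C_mul, C_pow, map_ofNat]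

theorem C_w1 (c : Cf M) (b β : M) : (C (w1 c b β) : M[X]) = w1 (c.map C) (C b) (C β) := by
  simp only [w1, Cf.map, C_add, C_sub, C_mul, C_pow, map_ofNat]

theorem C_w2 (c : Cf M) (b β : M) : (C (w2 c b β) : M[X]) = w2 (c.map C) (C b) (C β) := by
  simp only [w2, Cf.map, C_add, C_sub, C_mul, C_pow, map_ofNat]

/-- `gg` in `M[b][a]` -/
noncomputable def GG (c : Cf M) (e : M) : M[X][X] :=
  gg (c.map (C.comp C)) (C (C e)) X (C X)

/-- `hh` in `M[b][a]` -/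
noncomputable def HP (c : Cf M) (a0 b0 : M) : M[X][X] :=
  hh (c.map (C.comp C)) (C (C a0)) (C (C b0)) X (C X)

/-- `h2` in `M[b][a]`, as a function of the base point -/
noncomputable def WW (c : Cf M) (β : M) : M[X][X] :=
  h2 (c.map (C.comp C)) X (C X) (C (C β))

theorem GG_eq (c : Cf M) (e : M) : GG c e = C (g0 (c.map C) (C e) X) + C (g1 (c.map C) (C e) X) * X
    + C (g2 (c.map C) (C e) X) * X ^ 2 + C (g3 (c.map C) (C e) X) * X ^ 3 := by
  rw [GG, gg_expand, C_g0, C_g1, C_g2, C_g3]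
  rfl

theorem HP_eq (c : Cf M) (a0 b0 : M) : HP c a0 b0 = C (h0 (c.map C) (C a0) (C b0) X)
    + C (h1 (c.map C) (C a0) (C b0) X) * X + C (h2 (c.map C) (C a0) (C b0) X) * X ^ 2 := by
  rw [HP, hh_expand, C_h0, C_h1, C_h2]
  rfl

theorem WW_eq (c : Cf M) (β : M) : WW c β = C (w0 (c.map C) X (C β))
    + C (w1 (c.map C) X (C β)) * X + C (w2 (c.map C) X (C β)) * X ^ 2 := by
  rw [WW, h2_expand, C_w0, C_w1, C_w2]
  rfl

theorem GG_coeff (c : Cf M) (e : M) : (GG c e).coeff 3 = g3 (c.map C) (C e) X := by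
  rw [GG_eq]
  simp [coeff_X, coeff_X_pow, coeff_C]

theorem GG_degree (c : Cf M) (e : M) : (GG c e).natDegree ≤ 3 := by
  rw [GG_eq]
  compute_degree

theorem HP_coeff (c : Cf M) (a0 b0 : M) : (HP c a0 b0).coeff 2 = h2 (c.map C) (C a0) (C b0) X := by
  rw [HP_eq]
  simp [coeff_X, coeff_X_pow, coeff_C]

theorem HP_degree (c : Cf M) (a0 b0 : M) : (HP c a0 b0).natDegree ≤ 2 := by
  rw [HP_eq]
  compute_degree

theorem WW_coeff (c : Cf M) (β : M) : (WW c β).coeff 2 = w2 (c.map C) X (C β) := by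
  rw [WW_eq]
  simp [coeff_X, coeff_X_pow, coeff_C]

theorem WW_degree (c : Cf M) (β : M) : (WW c β).natDegree ≤ 2 := by
  rw [WW_eq]
  compute_degree

/-- the polynomial `g3` -/
theorem g3_eq (c : Cf M) (e : M) : g3 (c.map C) (C e) X
    = C (c.c30 - e) + C c.c21 * X + C c.c12 * X ^ 2 + C c.c03 * X ^ 3 := by
  simp only [g3, Cf.map, C_sub]
  ring

theorem g3_coeff (c : Cf M) (e : M) : (g3 (c.map C) (C e) X).coeff 3 = c.c03 := by
  rw [g3_eq]
  simp [coeff_X, coeff_X_pow, coeff_C]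

theorem g3_degree (c : Cf M) (e : M) : (g3 (c.map C) (C e) X).natDegree ≤ 3 := by
  rw [g3_eq]
  compute_degree

theorem h2_eq (c : Cf M) (a0 b0 : M) : h2 (c.map C) (C a0) (C b0) X
    = C (c.fx (a0 + b0) (a0 * b0) - (a0 - b0) * c.fxx (a0 + b0) (a0 * b0))
      + C (c.fy (a0 + b0) (a0 * b0) - (a0 - b0) * c.fxy (a0 + b0) (a0 * b0)) * X
      + C (-((a0 - b0) * c.fyy (a0 + b0) (a0 * b0))) * X ^ 2 := by
  simp only [h2, Cf.fx, Cf.fy, Cf.fxx, Cf.fxy, Cf.fyy, Cf.map, C_add, C_sub, C_mul, C_pow,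
    C_neg, map_ofNat]
  ring

theorem h2_coeff (c : Cf M) (a0 b0 : M) : (h2 (c.map C) (C a0) (C b0) X).coeff 2
    = -((a0 - b0) * c.fyy (a0 + b0) (a0 * b0)) := by
  rw [h2_eq, cq]

theorem h2_degree (c : Cf M) (a0 b0 : M) : (h2 (c.map C) (C a0) (C b0) X).natDegree ≤ 2 := by
  rw [h2_eq]
  compute_degree

theorem w2_eq (c : Cf M) (β : M) : w2 (c.map C) X (C β)
    = C (-((c.c12 * β + c.c21) * β)) + C (c.c21 - 3 * c.c03 * β ^ 2) * X
      + C (c.c12 + 3 * c.c03 * β) * X ^ 2 := by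
  simp only [w2, Cf.map, C_add, C_sub, C_mul, C_pow, C_neg, map_ofNat]
  ring

theorem w2_coeff (c : Cf M) (β : M) : (w2 (c.map C) X (C β)).coeff 2
    = c.c12 + 3 * c.c03 * β := by
  rw [w2_eq, cq]

theorem eval_g3 (c : Cf M) (e β : M) : (g3 (c.map C) (C e) X).eval β = g3 c e β := by
  rw [g3_eq]
  simp only [eval_add, eval_mul, eval_C, eval_X, eval_pow, g3]
  ring

theorem eval_h2 (c : Cf M) (a0 b0 β : M) :
    (h2 (c.map C) (C a0) (C b0) X).eval β = h2 c a0 b0 β := by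
  rw [h2_eq]
  simp only [eval_add, eval_mul, eval_C, eval_X, eval_pow, h2]
  ring

/-- degree in `b` -/
theorem gi_degree (c : Cf M) (e : M) : (g0 (c.map C) (C e) X).natDegree ≤ 3 ∧
    (g1 (c.map C) (C e) X).natDegree ≤ 3 ∧ (g2 (c.map C) (C e) X).natDegree ≤ 3 := by
  have e0 : g0 (c.map C) (C e) X = C c.c00 + C c.c10 * X + C c.c20 * X ^ 2
      + C (c.c30 + e) * X ^ 3 := by
    simp only [g0, Cf.map, C_add]; ring
  have e1 : g1 (c.map C) (C e) X = C c.c10 + C (c.c01 + 2 * c.c20) * X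
      + C (c.c11 + 3 * c.c30 - 3 * e) * X ^ 2 + C c.c21 * X ^ 3 := by
    simp only [g1, Cf.map, C_add, C_sub, C_mul, map_ofNat]; ring
  have e2 : g2 (c.map C) (C e) X = C c.c20 + C (c.c11 + 3 * c.c30 + 3 * e) * X
      + C (c.c02 + 2 * c.c21) * X ^ 2 + C c.c12 * X ^ 3 := by
    simp only [g2, Cf.map, C_add, C_sub, C_mul, map_ofNat]; ring
  rw [e0, e1, e2]
  refine ⟨?_, ?_, ?_⟩ <;> compute_degree

theorem hi_degree (c : Cf M) (a0 b0 : M) : (h0 (c.map C) (C a0) (C b0) X).natDegree ≤ 2 ∧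
    (h1 (c.map C) (C a0) (C b0) X).natDegree ≤ 2 := by
  obtain ⟨x, hx⟩ : ∃ x, x = a0 + b0 := ⟨_, rfl⟩
  obtain ⟨y, hy⟩ : ∃ y, y = a0 * b0 := ⟨_, rfl⟩
  obtain ⟨t, ht⟩ : ∃ t, t = a0 - b0 := ⟨_, rfl⟩
  have e0 : h0 (c.map C) (C a0) (C b0) X
      = C (-(2 * t) * (-(c.fx x y * x) - c.fy x y * y)
          - t * (c.fxx x y * x ^ 2 + c.fxy x y * y * x + c.fyy x y * y ^ 2)
          - 3 * c.ev x y * t)
        + C (-(-(c.fx x y * x) - c.fy x y * y) - 2 * t * c.fx x y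
          - t * (-2 * (c.fxx x y * x) - c.fxy x y * y) - 3 * c.ev x y) * X
        + C (- c.fx x y - t * c.fxx x y) * X ^ 2 := by
    rw [hx, hy, ht]
    simp only [h0, Cf.fx, Cf.fy, Cf.fxx, Cf.fxy, Cf.fyy, Cf.ev, Cf.map, C_add, C_sub, C_mul,
      C_pow, C_neg, map_ofNat]
    ring
  have e1 : h1 (c.map C) (C a0) (C b0) X
      = C ((-(c.fx x y * x) - c.fy x y * y) - 2 * t * c.fx x y
          - t * (-2 * (c.fxx x y * x) - c.fxy x y * y) + 3 * c.ev x y)
        + C (c.fx x y - c.fx x y - 2 * t * c.fy x y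
          - t * (2 * c.fxx x y - c.fxy x y * x - 2 * c.fyy x y * y)) * X
        + C (- c.fy x y - t * c.fxy x y) * X ^ 2 := by
    rw [hx, hy, ht]
    simp only [h1, Cf.fx, Cf.fy, Cf.fxx, Cf.fxy, Cf.fyy, Cf.ev, Cf.map, C_add, C_sub, C_mul,
      C_pow, C_neg, map_ofNat]
    ring
  rw [e0, e1]
  refine ⟨?_, ?_⟩ <;> compute_degree

end

section

variable {M : Type*} [CommRing M]

/-- the plane polynomials as polynomials in `a` over the polynomials in `b` -/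
noncomputable def psi : MvPolynomial (Fin 2) M →ₐ[M] M[X][X] :=
  MvPolynomial.aeval ![X, C X]

theorem psi_injective : Function.Injective (psi : MvPolynomial (Fin 2) M →ₐ[M] M[X][X]) := by
  let χ : M[X][X] →+* MvPolynomial (Fin 2) M :=
    eval₂RingHom (eval₂RingHom MvPolynomial.C (MvPolynomial.X 1)) (MvPolynomial.X 0)
  have h : χ.comp (psi : MvPolynomial (Fin 2) M →ₐ[M] M[X][X]).toRingHom = RingHom.id _ := by
    refine MvPolynomial.ringHom_ext (fun r => ?_) (fun i => ?_)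
    · simp [χ, psi]
    · fin_cases i <;> simp [χ, psi]
  intro x y hxy
  have h1 : χ (psi x) = χ (psi y) := by rw [hxy]
  have h2 : ∀ z, χ (psi z) = z := fun z => RingHom.congr_fun h z
  rwa [h2, h2] at h1

/-- the equation of the level curve -/
noncomputable def GM (c : Cf M) (e : M) : MvPolynomial (Fin 2) M :=
  gg (c.map MvPolynomial.C) (MvPolynomial.C e) (MvPolynomial.X 0) (MvPolynomial.X 1)

noncomputable def HM (c : Cf M) (a0 b0 : M) : MvPolynomial (Fin 2) M :=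
  hh (c.map MvPolynomial.C) (MvPolynomial.C a0) (MvPolynomial.C b0) (MvPolynomial.X 0)
    (MvPolynomial.X 1)

theorem psi_C (r : M) : psi (MvPolynomial.C r) = C (C r) := by
  simp [psi]

theorem psi_X0 : psi (MvPolynomial.X 0 : MvPolynomial (Fin 2) M) = X := by
  simp [psi]

theorem psi_X1 : psi (MvPolynomial.X 1 : MvPolynomial (Fin 2) M) = C X := by
  simp [psi]

theorem psi_map (c : Cf M) :
    (c.map MvPolynomial.C).map (psi : MvPolynomial (Fin 2) M →ₐ[M] M[X][X]).toRingHom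
      = c.map ((C : M[X] →+* M[X][X]).comp (C : M →+* M[X])) := by
  rw [Cf.map_map]
  congr 1
  ext r
  simp [psi]

theorem psi_GM (c : Cf M) (e : M) : psi (GM c e) = GG c e := by
  have h := map_gg (psi : MvPolynomial (Fin 2) M →ₐ[M] M[X][X]).toRingHom
    (c.map MvPolynomial.C) (MvPolynomial.C e) (MvPolynomial.X 0) (MvPolynomial.X 1)
  rw [psi_map] at h
  have e1 : (psi : MvPolynomial (Fin 2) M →ₐ[M] M[X][X]).toRingHom (MvPolynomial.C e)
      = C (C e) := psi_C e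
  have e2 : (psi : MvPolynomial (Fin 2) M →ₐ[M] M[X][X]).toRingHom (MvPolynomial.X 0) = X :=
    psi_X0
  have e3 : (psi : MvPolynomial (Fin 2) M →ₐ[M] M[X][X]).toRingHom (MvPolynomial.X 1) = C X :=
    psi_X1
  rw [e1, e2, e3] at h
  exact h

theorem psi_HM (c : Cf M) (a0 b0 : M) : psi (HM c a0 b0) = HP c a0 b0 := by
  have h := map_hh (psi : MvPolynomial (Fin 2) M →ₐ[M] M[X][X]).toRingHom
    (c.map MvPolynomial.C) (MvPolynomial.C a0) (MvPolynomial.C b0) (MvPolynomial.X 0)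
    (MvPolynomial.X 1)
  rw [psi_map] at h
  have e1 : ∀ r, (psi : MvPolynomial (Fin 2) M →ₐ[M] M[X][X]).toRingHom (MvPolynomial.C r)
      = C (C r) := psi_C
  have e2 : (psi : MvPolynomial (Fin 2) M →ₐ[M] M[X][X]).toRingHom (MvPolynomial.X 0) = X :=
    psi_X0
  have e3 : (psi : MvPolynomial (Fin 2) M →ₐ[M] M[X][X]).toRingHom (MvPolynomial.X 1) = C X :=
    psi_X1
  rw [e1, e1, e2, e3] at h
  exact h

theorem eval_GM (c : Cf M) (e : M) (Q : Fin 2 → M) :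
    MvPolynomial.eval Q (GM c e) = gg c e (Q 0) (Q 1) := by
  rw [GM, map_gg, MvPolynomial.eval_C, MvPolynomial.eval_X, MvPolynomial.eval_X, Cf.map_map]
  congr 1
  have : (MvPolynomial.eval Q).comp (MvPolynomial.C) = RingHom.id M := by
    ext r; simp
  rw [this]
  rfl

theorem eval_HM (c : Cf M) (a0 b0 : M) (Q : Fin 2 → M) :
    MvPolynomial.eval Q (HM c a0 b0) = hh c a0 b0 (Q 0) (Q 1) := by
  rw [HM, map_hh, MvPolynomial.eval_C, MvPolynomial.eval_C, MvPolynomial.eval_X,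
    MvPolynomial.eval_X, Cf.map_map]
  congr 1
  have : (MvPolynomial.eval Q).comp (MvPolynomial.C) = RingHom.id M := by
    ext r; simp
  rw [this]
  rfl

end

end Pool.Agent.TCC
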