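import Pool.Agent.TCC.Bi
import Pool.Agent.TQU.RW
import Pool.Agent.TQU.RF

/-!
# At least eight zeros of `hh` on the level curve
-/

set_option autoImplicit false

namespace Pool.Agent.TCC

open Polynomial Pool.Agent.TQU

section

variable {M : Type*} [Field M]

/-- first step: the degree of `α` in `a` is at most one -/
theorem desc1 (F H : M[X][X]) (hF : F.natDegree = 3) (hH : H.natDegree = 2)
    (hcop : IsCoprime H.leadingCoeff F.leadingCoeff) (n : ℕ) :
    ∀ α β : M[X][X], α.natDegree < n → (α * F + β * H).natDegree ≤ 2 →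
      ∃ α' β' : M[X][X], α'.natDegree ≤ 1 ∧ α * F + β * H = α' * F + β' * H := by
  have hH0 : H ≠ 0 := by
    rintro rfl
    rw [natDegree_zero] at hH
    omega
  have hF0 : F ≠ 0 := by
    rintro rfl
    rw [natDegree_zero] at hF
    omega
  induction n with
  | zero => intro α β h; omega
  | succ n ih =>
    intro α β hα hd
    by_cases h1 : α.natDegree ≤ 1
    · exact ⟨α, β, h1, rfl⟩
    have hα0 : α ≠ 0 := by
      rintro rfl
      rw [natDegree_zero] at h1
      omega
    have e1 : (α * F).natDegree = α.natDegree + 3 := by rw [natDegree_mul hα0 hF0, hF]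
    have e2 : (α * F).coeff (α.natDegree + 3) = α.leadingCoeff * F.leadingCoeff := by
      rw [← e1, coeff_natDegree, leadingCoeff_mul]
    have e3 : (β * H).coeff (α.natDegree + 3) = -(α.leadingCoeff * F.leadingCoeff) := by
      have h1 : (α * F + β * H).coeff (α.natDegree + 3) = 0 :=
        coeff_eq_zero_of_natDegree_lt (by omega)
      rw [coeff_add, e2] at h1
      exact (neg_eq_of_add_eq_zero_right h1).symm
    have hne : α.leadingCoeff * F.leadingCoeff ≠ 0 :=
      mul_ne_zero (leadingCoeff_ne_zero.2 hα0) (leadingCoeff_ne_zero.2 hF0)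
    have e4 : (β * H).natDegree = α.natDegree + 3 := by
      apply le_antisymm
      · have h1 : β * H = (α * F + β * H) - α * F := by ring
        rw [h1]
        refine (natDegree_sub_le _ _).trans (max_le (by omega) e1.le)
      · apply le_natDegree_of_ne_zero
        rw [e3]
        exact neg_ne_zero.2 hne
    have e5 : β.leadingCoeff * H.leadingCoeff = -(α.leadingCoeff * F.leadingCoeff) := by
      rw [← leadingCoeff_mul, ← coeff_natDegree, e4, e3]
    obtain ⟨γ, hγ⟩ : H.leadingCoeff ∣ α.leadingCoeff := by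
      refine hcop.dvd_of_dvd_mul_right ⟨-β.leadingCoeff, ?_⟩
      rw [mul_neg, mul_comm H.leadingCoeff, e5, neg_neg]
    have hγ0 : γ ≠ 0 := by
      rintro rfl
      rw [mul_zero] at hγ
      exact leadingCoeff_ne_zero.2 hα0 hγ
    have hX : (X : M[X][X]) ^ (α.natDegree - 2) ≠ 0 := pow_ne_zero _ X_ne_zero
    have hC : (C γ : M[X][X]) ≠ 0 := C_ne_zero.2 hγ0
    have hQ0 : C γ * X ^ (α.natDegree - 2) * H ≠ 0 := mul_ne_zero (mul_ne_zero hC hX) hH0
    have hQd : (C γ * X ^ (α.natDegree - 2) * H).natDegree = α.natDegree := by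
      rw [natDegree_mul (mul_ne_zero hC hX) hH0, natDegree_C_mul_X_pow _ _ hγ0, hH]
      omega
    have hQl : (C γ * X ^ (α.natDegree - 2) * H).leadingCoeff = α.leadingCoeff := by
      rw [leadingCoeff_mul, leadingCoeff_mul, leadingCoeff_C, leadingCoeff_X_pow, mul_one, hγ,
        mul_comm]
    have hlt : (α - C γ * X ^ (α.natDegree - 2) * H).degree < α.degree := by
      apply degree_sub_lt_left _ hα0 hQl.symm
      rw [degree_eq_natDegree hα0, degree_eq_natDegree hQ0, hQd]
    have hlt' : (α - C γ * X ^ (α.natDegree - 2) * H).natDegree < α.natDegree := by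
      by_cases h0 : α - C γ * X ^ (α.natDegree - 2) * H = 0
      · rw [h0, natDegree_zero]; omega
      · exact natDegree_lt_natDegree h0 hlt
    have e8 : α * F + β * H = (α - C γ * X ^ (α.natDegree - 2) * H) * F +
        (β + C γ * X ^ (α.natDegree - 2) * F) * H := by ring
    rw [e8]
    apply ih
    · omega
    · rw [← e8]
      exact hd

/-- second step: `α = 0` -/
theorem desc2 (F H α β : M[X][X]) (hF : F.natDegree = 3) (hH : H.natDegree = 2)
    (hcop : IsCoprime H.leadingCoeff F.leadingCoeff) (hlc : H.leadingCoeff.natDegree = 2)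
    (hα : α.leadingCoeff.natDegree ≤ 1) (hd : (α * F + β * H).natDegree ≤ 2) : α = 0 := by
  have hH0 : H ≠ 0 := by
    rintro rfl
    rw [natDegree_zero] at hH
    omega
  have hF0 : F ≠ 0 := by
    rintro rfl
    rw [natDegree_zero] at hF
    omega
  by_contra hα0
  have e1 : (α * F).natDegree = α.natDegree + 3 := by rw [natDegree_mul hα0 hF0, hF]
  have e2 : (α * F).coeff (α.natDegree + 3) = α.leadingCoeff * F.leadingCoeff := by
    rw [← e1, coeff_natDegree, leadingCoeff_mul]
  have e3 : (β * H).coeff (α.natDegree + 3) = -(α.leadingCoeff * F.leadingCoeff) := by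
    have h1 : (α * F + β * H).coeff (α.natDegree + 3) = 0 :=
      coeff_eq_zero_of_natDegree_lt (by omega)
    rw [coeff_add, e2] at h1
    exact (neg_eq_of_add_eq_zero_right h1).symm
  have hne : α.leadingCoeff * F.leadingCoeff ≠ 0 :=
    mul_ne_zero (leadingCoeff_ne_zero.2 hα0) (leadingCoeff_ne_zero.2 hF0)
  have e4 : (β * H).natDegree = α.natDegree + 3 := by
    apply le_antisymm
    · have h1 : β * H = (α * F + β * H) - α * F := by ring
      rw [h1]
      refine (natDegree_sub_le _ _).trans (max_le (by omega) e1.le)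
    · apply le_natDegree_of_ne_zero
      rw [e3]
      exact neg_ne_zero.2 hne
  have e5 : β.leadingCoeff * H.leadingCoeff = -(α.leadingCoeff * F.leadingCoeff) := by
    rw [← leadingCoeff_mul, ← coeff_natDegree, e4, e3]
  have h6 : H.leadingCoeff ∣ α.leadingCoeff := by
    refine hcop.dvd_of_dvd_mul_right ⟨-β.leadingCoeff, ?_⟩
    rw [mul_neg, mul_comm H.leadingCoeff, e5, neg_neg]
  have h7 := natDegree_le_of_dvd h6 (leadingCoeff_ne_zero.2 hα0)
  omega

open Polynomial.Bivariate in
/-- Polynomials of bidegree at most `(2,2)` in `(F, H)` are multiples of `H`. -/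
theorem desc (F H v : M[X][X]) (hF : F.natDegree = 3) (hH : H.natDegree = 2)
    (hcop : IsCoprime H.leadingCoeff F.leadingCoeff)
    (hF' : (swap F).natDegree = 3) (hH' : (swap H).natDegree = 2)
    (hcop' : IsCoprime (swap H).leadingCoeff (swap F).leadingCoeff)
    (hlc' : (swap H).leadingCoeff.natDegree = 2)
    (hv : v.natDegree ≤ 2) (hv' : (swap v).natDegree ≤ 2) (α β : M[X][X])
    (h : v = α * F + β * H) : ∃ γ : M, v = C (C γ) * H := by
  obtain ⟨α', β', hα', h'⟩ := desc1 F H hF hH hcop (α.natDegree + 1) α β (Nat.lt_succ_self _)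
    (by rw [← h]; exact hv)
  rw [← h] at h'
  have hα'' : α' = C (α'.coeff 0) + C (α'.coeff 1) * X := by
    conv_lhs => rw [eq_X_add_C_of_natDegree_le_one hα']
    ring
  have hsw : swap v = swap α' * swap F + swap β' * swap H := by
    rw [h', map_add, map_mul, map_mul]
  have hsα : swap α' = (α'.coeff 0).map C + (α'.coeff 1).map C * C X := by
    conv_lhs => rw [hα'']
    rw [map_add, map_mul, swap_C, swap_C, swap_Y]
  have hco : ∀ n, ((swap α').coeff n).natDegree ≤ 1 := by
    intro n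
    rw [hsα, coeff_add, coeff_mul_C, coeff_map, coeff_map]
    compute_degree
  have h0 : swap α' = 0 := desc2 (swap F) (swap H) (swap α') (swap β') hF' hH' hcop' hlc' (hco _)
    (by rw [← hsw]; exact hv')
  rw [h0, zero_mul, zero_add] at hsw
  have h0' : α' = 0 := by
    have := congrArg swap h0
    rwa [swap_swap_apply, map_zero] at this
  rw [h0', zero_mul, zero_add] at h'
  by_cases hβ : β' = 0
  · refine ⟨0, ?_⟩
    rw [h', hβ]; simp
  have hH0 : H ≠ 0 := by
    rintro rfl
    rw [natDegree_zero] at hH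
    omega
  have hH0' : swap H ≠ 0 := by
    intro h0
    rw [h0, natDegree_zero] at hH'
    omega
  have hd1 : β'.natDegree = 0 := by
    rw [h', natDegree_mul hβ hH0] at hv
    omega
  have hβ' : swap β' ≠ 0 := by
    intro h0
    apply hβ
    have := congrArg swap h0
    rwa [swap_swap_apply, map_zero] at this
  have hd2 : (swap β').natDegree = 0 := by
    rw [hsw, natDegree_mul hβ' hH0'] at hv'
    omega
  rw [eq_C_of_natDegree_eq_zero hd1, swap_C, natDegree_map_eq_of_injective C_injective] at hd2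
  refine ⟨(β'.coeff 0).coeff 0, ?_⟩
  rw [← eq_C_of_natDegree_eq_zero hd2, ← eq_C_of_natDegree_eq_zero hd1]
  exact h'

/-- exponents -/
abbrev I9 : Type := Fin 3 × Fin 3

noncomputable def expo9 (p : I9) : Fin 2 →₀ ℕ :=
  Finsupp.single 0 p.1.1 + Finsupp.single 1 p.2.1

theorem expo9_injective : Function.Injective expo9 := by
  intro p q h
  have h0 := DFunLike.congr_fun h 0
  have h1 := DFunLike.congr_fun h 1
  simp [expo9] at h0 h1
  exact Prod.ext (Fin.ext h0) (Fin.ext h1)

/-- polynomials of bidegree at most `(2,2)` -/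
noncomputable def pol9 : (I9 → M) →ₗ[M] MvPolynomial (Fin 2) M :=
  ∑ j : I9, (MvPolynomial.monomial (expo9 j) : M →ₗ[M] MvPolynomial (Fin 2) M) ∘ₗ LinearMap.proj j

theorem pol9_apply (v : I9 → M) : pol9 v = ∑ j : I9, MvPolynomial.monomial (expo9 j) (v j) := by
  simp [pol9]

theorem coeff_pol9 (v : I9 → M) (j : I9) : MvPolynomial.coeff (expo9 j) (pol9 v) = v j := by
  rw [pol9_apply, MvPolynomial.coeff_sum, Finset.sum_eq_single j]
  · simp
  · intro b _ hb
    rw [MvPolynomial.coeff_monomial, if_neg]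
    exact fun h => hb (expo9_injective h)
  · intro h; exact absurd (Finset.mem_univ j) h

theorem pol9_injective : Function.Injective (pol9 : (I9 → M) →ₗ[M] MvPolynomial (Fin 2) M) := by
  intro v w h
  funext j
  rw [← coeff_pol9 v j, ← coeff_pol9 w j, h]

theorem psi_pol9 (v : I9 → M) :
    psi (pol9 v) = ∑ j : I9, C (C (v j)) * (X ^ (j.1 : ℕ) * C X ^ (j.2 : ℕ)) := by
  rw [pol9_apply, map_sum]
  refine Finset.sum_congr rfl (fun j _ => ?_)
  rw [psi, MvPolynomial.aeval_monomial, expo9,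
    Finsupp.prod_fintype _ _ (fun _ => pow_zero _), Fin.prod_univ_two]
  simp

theorem psi_pol9_degree (v : I9 → M) : (psi (pol9 v)).natDegree ≤ 2 := by
  rw [psi_pol9]
  refine natDegree_sum_le_of_forall_le _ _ (fun j _ => ?_)
  have h1 : (j.1 : ℕ) ≤ 2 := by omega
  refine natDegree_mul_le.trans ?_
  rw [natDegree_C, zero_add]
  refine natDegree_mul_le.trans ?_
  rw [natDegree_X_pow, ← C_pow, natDegree_C]
  omega

open Polynomial.Bivariate in
theorem swap_pol9_degree (v : I9 → M) : (swap (psi (pol9 v))).natDegree ≤ 2 := by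
  rw [psi_pol9, map_sum]
  refine natDegree_sum_le_of_forall_le _ _ (fun j _ => ?_)
  have h1 : (j.2 : ℕ) ≤ 2 := by omega
  rw [map_mul, map_mul, map_pow, map_pow, swap_C_C, swap_Y, swap_X]
  refine natDegree_mul_le.trans ?_
  rw [natDegree_C, zero_add]
  refine natDegree_mul_le.trans ?_
  rw [natDegree_X_pow, ← C_pow, natDegree_C]
  omega

/-- exchange of the variables -/
noncomputable def sw : M[X][X] →+* M[X][X] :=
  (Polynomial.Bivariate.swap (R := M) : M[X][X] ≃ₐ[M] M[X][X]).toAlgHom.toRingHom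

theorem sw_map (c : Cf M) :
    (c.map ((C : M[X] →+* M[X][X]).comp (C : M →+* M[X]))).map sw
      = c.map ((C : M[X] →+* M[X][X]).comp (C : M →+* M[X])) := by
  rw [Cf.map_map]
  have h : (sw (M := M)).comp ((C : M[X] →+* M[X][X]).comp (C : M →+* M[X]))
      = (C : M[X] →+* M[X][X]).comp (C : M →+* M[X]) :=
    RingHom.ext (fun r => Polynomial.Bivariate.swap_C_C r)
  rw [h]

theorem sw_X : sw (X : M[X][X]) = C X := Polynomial.Bivariate.swap_Y

theorem sw_CX : sw (C X : M[X][X]) = X := Polynomial.Bivariate.swap_X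

theorem sw_CC (r : M) : sw (C (C r) : M[X][X]) = C (C r) := Polynomial.Bivariate.swap_C_C r

open Polynomial.Bivariate in
theorem swap_GG (c : Cf M) (e : M) : swap (GG c e) = GG c (-e) := by
  have h1 : sw (GG c e) = gg (c.map (C.comp C)) (C (C e)) (C X) X := by
    rw [GG, map_gg, sw_map, sw_CC, sw_X, sw_CX]
  have h2 : gg (c.map ((C : M[X] →+* M[X][X]).comp (C : M →+* M[X]))) (C (C e)) (C X) X
      = GG c (-e) := by
    rw [gg_swap, GG, C_neg, C_neg]
  exact h1.trans h2

open Polynomial.Bivariate in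
theorem swap_HP (c : Cf M) (a0 b0 : M) : swap (HP c a0 b0) = - HP c b0 a0 := by
  have h1 : sw (HP c a0 b0) = hh (c.map (C.comp C)) (C (C a0)) (C (C b0)) (C X) X := by
    rw [HP, map_hh, sw_map, sw_CC, sw_CC, sw_X, sw_CX]
  have h2 : hh (c.map ((C : M[X] →+* M[X][X]).comp (C : M →+* M[X]))) (C (C a0)) (C (C b0))
      (C X) X = - HP c b0 a0 := by
    rw [hh_swap, HP]
  exact h1.trans h2

theorem GG_lead (c : Cf M) (h03 : c.c03 ≠ 0) (e : M) : (GG c e).natDegree = 3 ∧
    (GG c e).leadingCoeff = g3 (c.map C) (C e) X := by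
  have h1 : (GG c e).coeff 3 ≠ 0 := by
    rw [GG_coeff]
    intro h
    have h5 := g3_coeff c e
    rw [h, coeff_zero] at h5
    exact h03 h5.symm
  have h2 : (GG c e).natDegree = 3 :=
    le_antisymm (GG_degree c e) (le_natDegree_of_ne_zero h1)
  exact ⟨h2, by rw [leadingCoeff, h2, GG_coeff]⟩

theorem HP_lead (c : Cf M) (a0 b0 : M) (hC : (a0 - b0) * c.fyy (a0 + b0) (a0 * b0) ≠ 0) :
    (HP c a0 b0).natDegree = 2 ∧ (HP c a0 b0).leadingCoeff = h2 (c.map C) (C a0) (C b0) X ∧
      (h2 (c.map C) (C a0) (C b0) X).natDegree = 2 := by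
  have h0 : (h2 (c.map C) (C a0) (C b0) X).coeff 2 ≠ 0 := by
    rw [h2_coeff]
    exact neg_ne_zero.2 hC
  have h1 : (HP c a0 b0).coeff 2 ≠ 0 := by
    rw [HP_coeff]
    intro h
    rw [h, coeff_zero] at h0
    exact h0 rfl
  have h2 : (HP c a0 b0).natDegree = 2 :=
    le_antisymm (HP_degree c a0 b0) (le_natDegree_of_ne_zero h1)
  exact ⟨h2, by rw [leadingCoeff, h2, HP_coeff],
    le_antisymm (h2_degree c a0 b0) (le_natDegree_of_ne_zero h0)⟩

theorem coprime_of [IsAlgClosed M] (p q : M[X]) (h : ∀ β : M, ¬ (q.eval β = 0 ∧ p.eval β = 0)) :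
    IsCoprime p q := by
  rw [isCoprime_iff_aeval_ne_zero_of_isAlgClosed M M]
  intro a
  rw [coe_aeval_eq_eval]
  by_contra hcon
  push Not at hcon
  exact h a ⟨hcon.2, hcon.1⟩

theorem eight [IsAlgClosed M] (c : Cf M) (h03 : c.c03 ≠ 0) (e a0 b0 : M)
    [IsDedekindDomain (CR (GM c e))] (hC : (a0 - b0) * c.fyy (a0 + b0) (a0 * b0) ≠ 0)
    (hcop : ∀ β, ¬ (g3 c e β = 0 ∧ h2 c a0 b0 β = 0))
    (hcop' : ∀ β, ¬ (g3 c (-e) β = 0 ∧ h2 c b0 a0 β = 0))
    (s : Multiset (Fin 2 → M)) (hs : ∀ Q ∈ s, MvPolynomial.eval Q (GM c e) = 0)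
    (h : Ideal.span {Ideal.Quotient.mk (Ideal.span {GM c e}) (HM c a0 b0)}
      = (s.map (ptIdeal (GM c e))).prod) :
    8 ≤ s.card := by
  have hC' : (b0 - a0) * c.fyy (b0 + a0) (b0 * a0) ≠ 0 := by
    rw [add_comm b0 a0, mul_comm b0 a0]
    intro h
    apply hC
    linear_combination -h
  obtain ⟨f1, f2⟩ := GG_lead c h03 e
  obtain ⟨f1', f2'⟩ := GG_lead c h03 (-e)
  obtain ⟨k1, k2, k3⟩ := HP_lead c a0 b0 hC
  obtain ⟨k1', k2', k3'⟩ := HP_lead c b0 a0 hC'
  have key : ∀ v : I9 → M, Ideal.Quotient.mk (Ideal.span {GM c e}) (pol9 v) ∈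
      Ideal.span {Ideal.Quotient.mk (Ideal.span {GM c e}) (HM c a0 b0)} →
      ∃ r : M, pol9 v = MvPolynomial.C r * HM c a0 b0 := by
    intro v hv
    obtain ⟨r, hr⟩ := Ideal.mem_span_singleton'.1 hv
    obtain ⟨β, rfl⟩ := Ideal.Quotient.mk_surjective r
    rw [← map_mul, Ideal.Quotient.eq, Ideal.mem_span_singleton'] at hr
    obtain ⟨α, hα⟩ := hr
    have h1 : pol9 v = (-α) * GM c e + β * HM c a0 b0 := by rw [neg_mul, hα]; ring
    have h2 : psi (pol9 v) = psi (-α) * GG c e + psi β * HP c a0 b0 := by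
      rw [h1, map_add, map_mul, map_mul, psi_GM, psi_HM]
    obtain ⟨γ, hγ⟩ := desc (GG c e) (HP c a0 b0) (psi (pol9 v)) f1 k1
      (by
        rw [f2, k2]
        refine coprime_of _ _ (fun β hβ => ?_)
        rw [eval_g3, eval_h2] at hβ
        exact hcop β hβ)
      (by rw [swap_GG]; exact f1')
      (by rw [swap_HP, natDegree_neg]; exact k1')
      (by
        rw [swap_GG, swap_HP, leadingCoeff_neg, f2', k2']
        refine IsCoprime.neg_left (coprime_of _ _ (fun β hβ => ?_))
        rw [eval_g3, eval_h2] at hβ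
        exact hcop' β hβ)
      (by rw [swap_HP, leadingCoeff_neg, natDegree_neg, k2']; exact k3')
      (psi_pol9_degree v) (swap_pol9_degree v) _ _ h2
    refine ⟨γ, psi_injective ?_⟩
    rw [hγ, map_mul, psi_HM, psi_C]
  let Λ : (I9 → M) →ₗ[M] CR (GM c e) :=
    (Ideal.Quotient.mkₐ M (Ideal.span {GM c e})).toLinearMap ∘ₗ pol9
  have hcount := count Λ (s.map (ptIdeal (GM c e))) (by
    intro m hm
    obtain ⟨Q, hQ, rfl⟩ := Multiset.mem_map.1 hm
    exact ⟨pt_max _ Q (hs Q hQ), pt_ne_bot _ Q (hs Q hQ), pt_res _ Q (hs Q hQ)⟩)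
  rw [← h, Multiset.card_map, Module.finrank_fintype_fun_eq_card] at hcount
  have hcard : Fintype.card I9 = 9 := by decide
  rw [hcard] at hcount
  have hle : Module.finrank M (Submodule.comap Λ
      ((Ideal.span {Ideal.Quotient.mk (Ideal.span {GM c e}) (HM c a0 b0)}).restrictScalars M))
      ≤ 1 := by
    set W := Submodule.comap Λ
      ((Ideal.span {Ideal.Quotient.mk (Ideal.span {GM c e}) (HM c a0 b0)}).restrictScalars M)
      with hW
    by_cases hbot : ∃ v ∈ W, v ≠ 0
    · obtain ⟨v, hv, hv0⟩ := hbot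
      obtain ⟨c1, hc⟩ := key v hv
      have hc0 : c1 ≠ 0 := by
        rintro rfl
        rw [map_zero, zero_mul] at hc
        exact hv0 (pol9_injective (by rw [hc, map_zero]))
      refine finrank_le_one (⟨v, hv⟩ : W) ?_
      rintro ⟨w, hw⟩
      obtain ⟨d, hd⟩ := key w hw
      refine ⟨d / c1, Subtype.ext (pol9_injective ?_)⟩
      change pol9 ((d / c1) • v) = pol9 w
      rw [map_smul, hc, hd, MvPolynomial.smul_eq_C_mul, ← mul_assoc, ← map_mul]
      congr 2
      field_simp
    · push Not at hbot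
      have : W = ⊥ := (Submodule.eq_bot_iff W).2 hbot
      rw [this, finrank_bot]
      norm_num
  omega

end

end Pool.Agent.TCC
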