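import Pool.Agent.TCC.Bi
import Pool.Agent.TSF.Basic

/-!
# The leading coefficients are coprime for a generic base point
-/

set_option autoImplicit false

namespace Pool.Agent.TCC

open Polynomial Pool.Agent.TSF

universe u

section

variable {k M : Type u} [Field k] [Field M] [Algebra k M]

theorem no_two (a0 b0 β : M) (hP : AlgebraicIndependent k ![a0, b0])
    (ha : IsAlgebraic (IntermediateField.adjoin k {β}) a0)
    (hb : IsAlgebraic (IntermediateField.adjoin k {β}) b0) : False := by
  have h1 := trdeg_adjoin_le β (k := k) {a0, b0} (by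
    rintro a (rfl | rfl)
    · exact ha
    · exact hb)
  let x : Fin 2 → IntermediateField.adjoin k {a0, b0} :=
    ![⟨a0, IntermediateField.subset_adjoin k _ (by simp)⟩,
      ⟨b0, IntermediateField.subset_adjoin k _ (by simp)⟩]
  have hx : AlgebraicIndependent k x := by
    rw [← AlgHom.algebraicIndependent_iff (IntermediateField.adjoin k {a0, b0}).val
      Subtype.val_injective]
    convert hP using 1
    funext i
    fin_cases i <;> rfl
  have h2 := hx.lift_cardinalMk_le_trdeg
  rw [Cardinal.mk_fin, Cardinal.lift_natCast, Cardinal.lift_id'.{0, u}] at h2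
  have h3 : ((2 : ℕ) : Cardinal.{u}) ≤ 1 := h2.trans h1
  have h4 : ((2 : ℕ) : Cardinal.{u}) ≤ ((1 : ℕ) : Cardinal.{u}) := by
    rw [Nat.cast_one]
    exact h3
  rw [Nat.cast_le] at h4
  omega

end

section

variable {κ M : Type u} [Field κ] [Field M] [Algebra κ M]

/-- units are detected after extension of scalars -/
theorem irr_of_map (u : MvPolynomial (Fin 2) κ)
    (h : Irreducible (MvPolynomial.map (algebraMap κ M) u)) : Irreducible u := by
  have hloc : IsLocalHom (MvPolynomial.map (σ := Fin 2) (algebraMap κ M)) := by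
    refine ⟨fun v hv => ?_⟩
    rw [MvPolynomial.isUnit_iff_totalDegree_of_isReduced] at hv ⊢
    obtain ⟨h1, h2⟩ := hv
    constructor
    · rw [MvPolynomial.coeff_map, isUnit_iff_ne_zero] at h1
      rw [isUnit_iff_ne_zero]
      intro h0
      apply h1
      rw [h0, map_zero]
    · have hs : (MvPolynomial.map (algebraMap κ M) v).support = v.support :=
        MvPolynomial.support_map_of_injective _ (algebraMap κ M).injective
      rw [MvPolynomial.totalDegree, hs] at h2
      exact h2
  exact Irreducible.of_map h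

theorem dim2 (I J m : Ideal (MvPolynomial (Fin 2) κ)) [I.IsPrime] [J.IsPrime] [m.IsPrime]
    (h0 : ⊥ < J) (h1 : J < I) (h2 : I < m) : False := by
  have e0 := Ideal.height_add_one_le_of_lt_of_isPrime h0
  have e1 := Ideal.height_add_one_le_of_lt_of_isPrime h1
  have e2 := Ideal.height_add_one_le_of_lt_of_isPrime h2
  have e3 : (m.height : WithBot ℕ∞) ≤ ringKrullDim (MvPolynomial (Fin 2) κ) :=
    Ideal.height_le_ringKrullDim_of_isPrime
  rw [MvPolynomial.ringKrullDim_of_isNoetherianRing, ringKrullDim_eq_zero_of_field, zero_add,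
    Nat.card_eq_fintype_card, Fintype.card_fin] at e3
  have e4 : (3 : ℕ∞) ≤ m.height := by
    calc (3 : ℕ∞) = 0 + 1 + 1 + 1 := by norm_num
      _ ≤ (⊥ : Ideal (MvPolynomial (Fin 2) κ)).height + 1 + 1 + 1 := by gcongr; exact zero_le
      _ ≤ J.height + 1 + 1 := by gcongr
      _ ≤ I.height + 1 := by gcongr
      _ ≤ m.height := e2
  have e5 : ((3 : ℕ∞) : WithBot ℕ∞) ≤ ((2 : ℕ∞) : WithBot ℕ∞) :=
    le_trans (WithBot.coe_le_coe.2 e4) e3
  rw [WithBot.coe_le_coe] at e5
  exact absurd e5 (by norm_num)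

/-- a common zero of two coprime polynomials over an algebraically closed field is rational -/
theorem rat_of_zero [IsAlgClosed κ] (E1 E2 : MvPolynomial (Fin 2) κ) (hE : Irreducible E1)
    (hnd : ¬ E1 ∣ E2) (P : Fin 2 → M) (h1 : MvPolynomial.aeval P E1 = 0)
    (h2 : MvPolynomial.aeval P E2 = 0) (i : Fin 2) : ∃ a : κ, algebraMap κ M a = P i := by
  let φ : MvPolynomial (Fin 2) κ →+* M := (MvPolynomial.aeval P : MvPolynomial (Fin 2) κ →ₐ[κ] M).toRingHom
  let I : Ideal (MvPolynomial (Fin 2) κ) := RingHom.ker φ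
  have hI : I.IsPrime := RingHom.ker_isPrime φ
  let J : Ideal (MvPolynomial (Fin 2) κ) := Ideal.span {E1}
  have hJ : J.IsPrime := (Ideal.span_singleton_prime hE.ne_zero).2 hE.prime
  have hJ0 : ⊥ < J := by
    rw [bot_lt_iff_ne_bot]
    intro h
    exact hE.ne_zero (Ideal.span_singleton_eq_bot.1 h)
  have hJI : J < I := by
    refine lt_of_le_of_ne ?_ ?_
    · rw [Ideal.span_le, Set.singleton_subset_iff]
      exact h1
    · intro h
      apply hnd
      rw [← Ideal.mem_span_singleton]
      change E2 ∈ J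
      rw [h]
      exact h2
  have hImax : I.IsMaximal := by
    obtain ⟨m, hm, hle⟩ := Ideal.exists_le_maximal I hI.ne_top
    rcases lt_or_eq_of_le hle with h | h
    · have hmp : m.IsPrime := hm.isPrime
      exact (dim2 I J m hJ0 hJI h).elim
    · rw [h]; exact hm
  obtain ⟨x, hx⟩ := MvPolynomial.isMaximal_iff_eq_vanishingIdeal_singleton.1 hImax
  refine ⟨x i, ?_⟩
  have h3 : MvPolynomial.X i - MvPolynomial.C (x i) ∈ I := by
    rw [hx, MvPolynomial.mem_vanishingIdeal_singleton_iff]
    simp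
  have h4 : φ (MvPolynomial.X i - MvPolynomial.C (x i)) = 0 := h3
  have h5 : φ (MvPolynomial.X i - MvPolynomial.C (x i)) = P i - algebraMap κ M (x i) := by
    simp [φ]
  rw [h5] at h4
  exact (sub_eq_zero.1 h4).symm

end

section

variable {k M : Type u} [Field k] [Field M] [Algebra k M]

theorem map_GM {κ M : Type*} [CommRing κ] [CommRing M] (φ : κ →+* M) (c : Cf κ) (e : κ) :
    MvPolynomial.map φ (GM c e) = GM (c.map φ) (φ e) := by
  rw [GM, map_gg, MvPolynomial.map_C, MvPolynomial.map_X, MvPolynomial.map_X, Cf.map_map, GM,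
    Cf.map_map]
  congr 2
  ext r
  simp

/-- `h2` as a polynomial in the base point -/
noncomputable def WM {κ : Type*} [CommRing κ] (c : Cf κ) (β : κ) : MvPolynomial (Fin 2) κ :=
  h2 (c.map MvPolynomial.C) (MvPolynomial.X 0) (MvPolynomial.X 1) (MvPolynomial.C β)

theorem map_h2 {A B : Type*} [CommRing A] [CommRing B] (φ : A →+* B) (c : Cf A) (a0 b0 b : A) :
    φ (h2 c a0 b0 b) = h2 (c.map φ) (φ a0) (φ b0) (φ b) := by
  simp only [h2, Cf.fx, Cf.fy, Cf.fxx, Cf.fxy, Cf.fyy, Cf.map, map_sub, map_mul, map_pow,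
    map_add, map_ofNat]

theorem map_g3 {A B : Type*} [CommRing A] [CommRing B] (φ : A →+* B) (c : Cf A) (e b : A) :
    φ (g3 c e b) = g3 (c.map φ) (φ e) (φ b) := by
  simp only [g3, Cf.map, map_sub, map_mul, map_pow, map_add]

theorem map_WM {κ M : Type*} [CommRing κ] [CommRing M] (φ : κ →+* M) (c : Cf κ) (β : κ) :
    MvPolynomial.map φ (WM c β) = WM (c.map φ) (φ β) := by
  rw [WM, map_h2, MvPolynomial.map_C, MvPolynomial.map_X, MvPolynomial.map_X, Cf.map_map, WM,
    Cf.map_map]
  congr 2
  ext r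
  simp

theorem psi_WM (c : Cf M) (β : M) : psi (WM c β) = WW c β := by
  have h := map_h2 (psi : MvPolynomial (Fin 2) M →ₐ[M] M[X][X]).toRingHom
    (c.map MvPolynomial.C) (MvPolynomial.X 0) (MvPolynomial.X 1) (MvPolynomial.C β)
  rw [psi_map] at h
  have e1 : ∀ r, (psi : MvPolynomial (Fin 2) M →ₐ[M] M[X][X]).toRingHom (MvPolynomial.C r)
      = C (C r) := psi_C
  have e2 : (psi : MvPolynomial (Fin 2) M →ₐ[M] M[X][X]).toRingHom (MvPolynomial.X 0) = X :=
    psi_X0
  have e3 : (psi : MvPolynomial (Fin 2) M →ₐ[M] M[X][X]).toRingHom (MvPolynomial.X 1) = C X :=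
    psi_X1
  rw [e1, e2, e3] at h
  exact h

theorem aeval_comp_C {κ M : Type*} [CommRing κ] [CommRing M] [Algebra κ M] (P : Fin 2 → M) :
    ((MvPolynomial.aeval P : MvPolynomial (Fin 2) κ →ₐ[κ] M).toRingHom).comp MvPolynomial.C
      = algebraMap κ M := by
  ext r
  simp

theorem aeval_GM {κ M : Type*} [CommRing κ] [CommRing M] [Algebra κ M] (c : Cf κ) (e : κ)
    (P : Fin 2 → M) : MvPolynomial.aeval P (GM c e)
      = gg (c.map (algebraMap κ M)) (algebraMap κ M e) (P 0) (P 1) := by
  have h := map_gg (MvPolynomial.aeval P : MvPolynomial (Fin 2) κ →ₐ[κ] M).toRingHom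
    (c.map MvPolynomial.C) (MvPolynomial.C e) (MvPolynomial.X 0) (MvPolynomial.X 1)
  rw [Cf.map_map, aeval_comp_C] at h
  simpa [GM] using h

theorem aeval_WM {κ M : Type*} [CommRing κ] [CommRing M] [Algebra κ M] (c : Cf κ) (β : κ)
    (P : Fin 2 → M) : MvPolynomial.aeval P (WM c β)
      = h2 (c.map (algebraMap κ M)) (P 0) (P 1) (algebraMap κ M β) := by
  have h := map_h2 (MvPolynomial.aeval P : MvPolynomial (Fin 2) κ →ₐ[κ] M).toRingHom
    (c.map MvPolynomial.C) (MvPolynomial.X 0) (MvPolynomial.X 1) (MvPolynomial.C β)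
  rw [Cf.map_map, aeval_comp_C] at h
  simpa [WM] using h

/-- generic base points have a transcendental level -/
theorem level_ne (c : Cf k) (h03 : c.c03 ≠ 0) (a0 b0 : M)
    (hP : AlgebraicIndependent k ![a0, b0]) (e : k)
    (hg : gg (c.map (algebraMap k M)) (algebraMap k M e) a0 b0 = 0) : False := by
  have h1 : MvPolynomial.aeval ![a0, b0] (GM c e) = 0 := by
    rw [aeval_GM]; exact hg
  have h2 := hP.eq_zero_of_aeval_eq_zero _ h1
  have h3 : GG c e = 0 := by rw [← psi_GM, h2, map_zero]
  have h4 := GG_coeff c e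
  rw [h3, coeff_zero] at h4
  have h5 := g3_coeff c e
  rw [← h4, coeff_zero] at h5
  exact h03 h5.symm

theorem not_dvd_W (c : Cf k) (h03 : c.c03 ≠ 0) (h3 : (3 : k) ≠ 0 ∨ c.c12 ≠ 0)
    (a0 b0 : M) (hP : AlgebraicIndependent k ![a0, b0]) (e : M)
    (hg : gg (c.map (algebraMap k M)) e a0 b0 = 0) (β : M)
    (h1 : g3 (c.map (algebraMap k M)) e β = 0) :
    ¬ GM (c.map (algebraMap k M)) e ∣ WM (c.map (algebraMap k M)) β := by
  intro hd2
  obtain ⟨v, hv⟩ := hd2
  have hd3 : GG (c.map (algebraMap k M)) e ∣ WW (c.map (algebraMap k M)) β :=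
    ⟨psi v, by rw [← psi_WM, hv, map_mul, psi_GM]⟩
  have hcoef : (GG (c.map (algebraMap k M)) e).coeff 3 ≠ 0 := by
    rw [GG_coeff]
    intro h
    have h5 := g3_coeff (c.map (algebraMap k M)) e
    rw [h, coeff_zero] at h5
    exact h03 ((algebraMap k M).injective (by rw [map_zero]; exact h5.symm))
  have hdeg : 3 ≤ (GG (c.map (algebraMap k M)) e).natDegree :=
    le_natDegree_of_ne_zero hcoef
  have hW : WW (c.map (algebraMap k M)) β = 0 := by
    by_contra hne
    have h6 := natDegree_le_of_dvd hd3 hne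
    have h7 := WW_degree (c.map (algebraMap k M)) β
    omega
  have h8 := WW_coeff (c.map (algebraMap k M)) β
  rw [hW, coeff_zero] at h8
  have h9 := w2_coeff (c.map (algebraMap k M)) β
  rw [← h8, coeff_zero] at h9
  have h10 : algebraMap k M c.c12 + 3 * algebraMap k M c.c03 * β = 0 := h9.symm
  by_cases h30 : (3 : k) = 0
  · have h11 : c.c12 ≠ 0 := h3.resolve_left (fun h => h h30)
    have h12 : (3 : M) = 0 := by
      have := congrArg (algebraMap k M) h30
      rwa [map_ofNat, map_zero] at this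
    rw [h12, zero_mul, zero_mul, add_zero] at h10
    exact h11 ((algebraMap k M).injective (by rw [map_zero]; exact h10))
  · -- `β` is rational
    have h13 : (3 * c.c03 : k) ≠ 0 := mul_ne_zero h30 h03
    have h13' : (3 * algebraMap k M c.c03 : M) ≠ 0 := by
      intro h
      apply h13
      apply (algebraMap k M).injective
      rw [map_mul, map_ofNat, map_zero]
      exact h
    have h12 : β = algebraMap k M (-c.c12 / (3 * c.c03)) := by
      rw [map_div₀, map_neg, map_mul, map_ofNat, eq_div_iff h13']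
      linear_combination h10
    refine level_ne c h03 a0 b0 hP (g3 c 0 (-c.c12 / (3 * c.c03))) ?_
    have h14 : algebraMap k M (g3 c 0 (-c.c12 / (3 * c.c03))) = e := by
      rw [map_g3, map_zero, ← h12]
      simp only [g3] at h1 ⊢
      linear_combination h1
    rw [h14]
    exact hg

theorem cop_aux {κ : Type u} [Field κ] [IsAlgClosed κ] [Algebra k κ] [Algebra κ M]
    [IsScalarTower k κ M] (c : Cf k) (h03 : c.c03 ≠ 0) (h3 : (3 : k) ≠ 0 ∨ c.c12 ≠ 0)
    (a0 b0 : M) (hP : AlgebraicIndependent k ![a0, b0]) (e : M)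
    (hg : gg (c.map (algebraMap k M)) e a0 b0 = 0)
    (hirr : Irreducible (GM (c.map (algebraMap k M)) e)) (b' : κ)
    (h1 : g3 (c.map (algebraMap k M)) e (algebraMap κ M b') = 0)
    (h2' : h2 (c.map (algebraMap k M)) a0 b0 (algebraMap κ M b') = 0) (j : Fin 2) :
    ∃ a : κ, algebraMap κ M a = ![a0, b0] j := by
  have hi : (algebraMap κ M).comp (algebraMap k κ) = algebraMap k M :=
    (IsScalarTower.algebraMap_eq k κ M).symm
  obtain ⟨e', he'⟩ : ∃ e' : κ, algebraMap κ M e' = e := by
    refine ⟨g3 (c.map (algebraMap k κ)) 0 b', ?_⟩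
    rw [map_g3, Cf.map_map, hi, map_zero]
    simp only [g3] at h1 ⊢
    linear_combination h1
  have hE1 : MvPolynomial.map (algebraMap κ M) (GM (c.map (algebraMap k κ)) e')
      = GM (c.map (algebraMap k M)) e := by
    rw [map_GM, Cf.map_map, hi, he']
  have hE2 : MvPolynomial.map (algebraMap κ M) (WM (c.map (algebraMap k κ)) b')
      = WM (c.map (algebraMap k M)) (algebraMap κ M b') := by
    rw [map_WM, Cf.map_map, hi]
  have hir : Irreducible (GM (c.map (algebraMap k κ)) e') := irr_of_map (M := M) _ (by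
    rw [hE1]; exact hirr)
  have hnd : ¬ GM (c.map (algebraMap k κ)) e' ∣ WM (c.map (algebraMap k κ)) b' := by
    intro hd
    apply not_dvd_W c h03 h3 a0 b0 hP e hg (algebraMap κ M b') h1
    rw [← hE1, ← hE2]
    exact map_dvd (MvPolynomial.map (algebraMap κ M)) hd
  have hz1 : MvPolynomial.aeval ![a0, b0] (GM (c.map (algebraMap k κ)) e') = 0 := by
    rw [aeval_GM, Cf.map_map, hi, he']
    exact hg
  have hz2 : MvPolynomial.aeval ![a0, b0] (WM (c.map (algebraMap k κ)) b') = 0 := by
    rw [aeval_WM, Cf.map_map, hi]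
    exact h2'
  exact rat_of_zero (M := M) _ _ hir hnd ![a0, b0] hz1 hz2 j

/-- The leading coefficients of `gg` and `hh` have no common zero. -/
theorem cop [IsAlgClosed M] (c : Cf k) (h03 : c.c03 ≠ 0) (h3 : (3 : k) ≠ 0 ∨ c.c12 ≠ 0)
    (a0 b0 : M) (hP : AlgebraicIndependent k ![a0, b0]) (e : M)
    (hg : gg (c.map (algebraMap k M)) e a0 b0 = 0)
    (hirr : Irreducible (GM (c.map (algebraMap k M)) e)) (β : M)
    (h1 : g3 (c.map (algebraMap k M)) e β = 0)
    (h2' : h2 (c.map (algebraMap k M)) a0 b0 β = 0) : False := by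
  have hκ : IsAlgClosed (algebraicClosure (IntermediateField.adjoin k {β}) M) :=
    IsAlgClosure.isAlgClosed (IntermediateField.adjoin k {β})
  have hβκ : β ∈ algebraicClosure (IntermediateField.adjoin k {β}) M :=
    mem_algebraicClosure_iff.2 (isAlgebraic_algebraMap
      (⟨β, IntermediateField.subset_adjoin k _ rfl⟩ : IntermediateField.adjoin k {β}))
  have _ : IsScalarTower k (algebraicClosure (IntermediateField.adjoin k {β}) M) M :=
    IsScalarTower.of_algebraMap_eq (fun _ => rfl)
  have hr := cop_aux (κ := algebraicClosure (IntermediateField.adjoin k {β}) M) c h03 h3 a0 b0 hP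
    e hg hirr ⟨β, hβκ⟩ h1 h2'
  obtain ⟨x0, hx0⟩ := hr 0
  obtain ⟨x1, hx1⟩ := hr 1
  refine no_two a0 b0 β hP ?_ ?_
  · have h5 : a0 ∈ algebraicClosure (IntermediateField.adjoin k {β}) M := by
      have : algebraMap (algebraicClosure (IntermediateField.adjoin k {β}) M) M x0 = a0 := hx0
      rw [← this]
      exact x0.2
    exact mem_algebraicClosure_iff.1 h5
  · have h5 : b0 ∈ algebraicClosure (IntermediateField.adjoin k {β}) M := by
      have : algebraMap (algebraicClosure (IntermediateField.adjoin k {β}) M) M x1 = b0 := hx1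
      rw [← this]
      exact x1.2
    exact mem_algebraicClosure_iff.1 h5

end

end Pool.Agent.TCC
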