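import Pool.Agent.TCC.Alg
import Pool.Agent.TQC.Loc

/-!
# Local analysis at the base point
-/

set_option autoImplicit false

namespace Pool.Agent.TCC

open Pool.Agent.TQU

section

variable {M R : Type*} [Field M] [CommRing R] [Algebra M R]

/-- a uniformizer -/
theorem unif2 [IsDedekindDomain R] (m : Ideal R) (hprime : m.IsPrime) (hne : m ≠ ⊥) (u0 u1 : R)
    (hmu : m = Ideal.span {u0, u1}) (l0 l1 : M) (hl : l0 ≠ 0 ∨ l1 ≠ 0)
    (h : u0 * algebraMap M R l0 + u1 * algebraMap M R l1 ∈ m ^ 2) :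
    ∃ w ∈ m, w ∉ m ^ 2 ∧ u0 - algebraMap M R l1 * w ∈ m ^ 2 ∧
      u1 - algebraMap M R (-l0) * w ∈ m ^ 2 := by
  have hu0 : u0 ∈ m := by rw [hmu]; exact Ideal.subset_span (by simp)
  have hu1 : u1 ∈ m := by rw [hmu]; exact Ideal.subset_span (by simp)
  obtain ⟨w, hwm, hw0, hw1⟩ : ∃ w ∈ m, u0 - algebraMap M R l1 * w ∈ m ^ 2 ∧
      u1 - algebraMap M R (-l0) * w ∈ m ^ 2 := by
    rcases hl with h0 | h1
    · have e1 : algebraMap M R (l0⁻¹) * algebraMap M R l0 = 1 := by
        rw [← map_mul, inv_mul_cancel₀ h0, map_one]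
      refine ⟨algebraMap M R (-l0⁻¹) * u1, Ideal.mul_mem_left _ _ hu1, ?_, ?_⟩
      · have e : u0 - algebraMap M R l1 * (algebraMap M R (-l0⁻¹) * u1) =
            algebraMap M R (l0⁻¹) * (u0 * algebraMap M R l0 + u1 * algebraMap M R l1) := by
          rw [map_neg]
          linear_combination (-u0) * e1
        rw [e]
        exact Ideal.mul_mem_left _ _ h
      · have e : u1 - algebraMap M R (-l0) * (algebraMap M R (-l0⁻¹) * u1) = 0 := by
          rw [map_neg, map_neg]
          linear_combination (-u1) * e1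
        rw [e]
        exact zero_mem _
    · have e1 : algebraMap M R (l1⁻¹) * algebraMap M R l1 = 1 := by
        rw [← map_mul, inv_mul_cancel₀ h1, map_one]
      refine ⟨algebraMap M R (l1⁻¹) * u0, Ideal.mul_mem_left _ _ hu0, ?_, ?_⟩
      · have e : u0 - algebraMap M R l1 * (algebraMap M R (l1⁻¹) * u0) = 0 := by
          linear_combination (-u0) * e1
        rw [e]
        exact zero_mem _
      · have e : u1 - algebraMap M R (-l0) * (algebraMap M R (l1⁻¹) * u0) =
            algebraMap M R (l1⁻¹) * (u0 * algebraMap M R l0 + u1 * algebraMap M R l1) := by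
          rw [map_neg]
          linear_combination (-u1) * e1
        rw [e]
        exact Ideal.mul_mem_left _ _ h
  refine ⟨w, hwm, ?_, hw0, hw1⟩
  intro hcon
  apply RL_sq m hprime hne
  conv_lhs => rw [hmu]
  rw [Ideal.span_le]
  rintro x (rfl | hx)
  · have e : x = (x - algebraMap M R l1 * w) + algebraMap M R l1 * w := by ring
    rw [SetLike.mem_coe, e]
    exact (m ^ 2).add_mem hw0 (Ideal.mul_mem_left _ _ hcon)
  · rw [Set.mem_singleton_iff] at hx
    have e : x = (u1 - algebraMap M R (-l0) * w) + algebraMap M R (-l0) * w := by rw [hx]; ring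
    rw [SetLike.mem_coe, e]
    exact (m ^ 2).add_mem hw1 (Ideal.mul_mem_left _ _ hcon)

omit [Algebra M R] in
theorem tri (m : Ideal R) {x y z x' y' z' : R} (hy : y ∈ m) (hz : z ∈ m)
    (hx' : x' ∈ m) (hy' : y' ∈ m) (h1 : x - x' ∈ m ^ 2) (h2 : y - y' ∈ m ^ 2)
    (h3 : z - z' ∈ m ^ 2) : x * y * z - x' * y' * z' ∈ m ^ 4 := by
  have e : x * y * z - x' * y' * z' = (x - x') * (y * z) + (y - y') * (x' * z)
      + (z - z') * (x' * y') := by ring
  have e4 : m ^ 4 = m ^ 2 * (m * m) := by ring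
  rw [e, e4]
  exact add_mem (add_mem (Ideal.mul_mem_mul h1 (Ideal.mul_mem_mul hy hz))
    (Ideal.mul_mem_mul h2 (Ideal.mul_mem_mul hx' hz)))
    (Ideal.mul_mem_mul h3 (Ideal.mul_mem_mul hx' hy'))

/-- the cubic form `h₀ A₃ - θ A₂` -/
def EE (c : Cf M) (e a0 b0 ξ η θ : M) : M :=
  (a0 - b0) * A3 c e ξ η θ - θ * A2 c e a0 b0 ξ η θ

variable (c : Cf M) (e a0 b0 : M) (a b : R) (m : Ideal R)

/-- mk of the displacement -/
theorem in_m (hmu : m = Ideal.span {a - algebraMap M R a0, b - algebraMap M R b0}) :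
    a + b - (algebraMap M R a0 + algebraMap M R b0) ∈ m ∧
      a * b - algebraMap M R a0 * algebraMap M R b0 ∈ m ∧
      a - b - (algebraMap M R a0 - algebraMap M R b0) ∈ m := by
  have hu0 : a - algebraMap M R a0 ∈ m := by rw [hmu]; exact Ideal.subset_span (by simp)
  have hu1 : b - algebraMap M R b0 ∈ m := by rw [hmu]; exact Ideal.subset_span (by simp)
  refine ⟨?_, ?_, ?_⟩
  · have e1 : a + b - (algebraMap M R a0 + algebraMap M R b0)
        = (a - algebraMap M R a0) + (b - algebraMap M R b0) := by ring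
    rw [e1]; exact add_mem hu0 hu1
  · have e1 : a * b - algebraMap M R a0 * algebraMap M R b0
        = b * (a - algebraMap M R a0) + algebraMap M R a0 * (b - algebraMap M R b0) := by ring
    rw [e1]; exact add_mem (Ideal.mul_mem_left _ _ hu0) (Ideal.mul_mem_left _ _ hu1)
  · have e1 : a - b - (algebraMap M R a0 - algebraMap M R b0)
        = (a - algebraMap M R a0) - (b - algebraMap M R b0) := by ring
    rw [e1]; exact sub_mem hu0 hu1

omit [Algebra M R] in
theorem A2_mem (C : Cf R) (E α β ξ η θ : R) (hξ : ξ ∈ m) (hη : η ∈ m) (hθ : θ ∈ m) :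
    A2 C E α β ξ η θ ∈ m ^ 2 := by
  have e : A2 C E α β ξ η θ = C.fxx (α + β) (α * β) * (ξ * ξ) + C.fxy (α + β) (α * β) * (ξ * η)
      + C.fyy (α + β) (α * β) * (η * η) + (-(3 * E * (α - β))) * (θ * θ) := by
    simp only [A2, Cf.T2]; ring
  rw [e, pow_two]
  exact add_mem (add_mem (add_mem (Ideal.mul_mem_left _ _ (Ideal.mul_mem_mul hξ hξ))
    (Ideal.mul_mem_left _ _ (Ideal.mul_mem_mul hξ hη)))
    (Ideal.mul_mem_left _ _ (Ideal.mul_mem_mul hη hη)))
    (Ideal.mul_mem_left _ _ (Ideal.mul_mem_mul hθ hθ))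

omit [Algebra M R] in
theorem A3_mem (C : Cf R) (E ξ η θ : R) (hξ : ξ ∈ m) (hη : η ∈ m) (hθ : θ ∈ m) :
    A3 C E ξ η θ ∈ m ^ 3 := by
  have e : A3 C E ξ η θ = C.c30 * (ξ * (ξ * ξ)) + C.c21 * (ξ * (ξ * η)) + C.c12 * (ξ * (η * η))
      + C.c03 * (η * (η * η)) + (-E) * (θ * (θ * θ)) := by
    simp only [A3, Cf.T3]; ring
  have e3 : m ^ 3 = m * (m * m) := by ring
  rw [e, e3]
  exact add_mem (add_mem (add_mem (add_mem
    (Ideal.mul_mem_left _ _ (Ideal.mul_mem_mul hξ (Ideal.mul_mem_mul hξ hξ)))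
    (Ideal.mul_mem_left _ _ (Ideal.mul_mem_mul hξ (Ideal.mul_mem_mul hξ hη))))
    (Ideal.mul_mem_left _ _ (Ideal.mul_mem_mul hξ (Ideal.mul_mem_mul hη hη))))
    (Ideal.mul_mem_left _ _ (Ideal.mul_mem_mul hη (Ideal.mul_mem_mul hη hη))))
    (Ideal.mul_mem_left _ _ (Ideal.mul_mem_mul hθ (Ideal.mul_mem_mul hθ hθ)))

theorem gg_base (hP : gg c e a0 b0 = 0) : gg (c.map (algebraMap M R)) (algebraMap M R e)
    (algebraMap M R a0) (algebraMap M R b0) = 0 := by
  rw [← map_gg, hP, map_zero]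

/-- the value of `hh` on the curve -/
theorem hh_curve (hP : gg c e a0 b0 = 0)
    (hG : gg (c.map (algebraMap M R)) (algebraMap M R e) a b = 0) :
    let ξ := a + b - (algebraMap M R a0 + algebraMap M R b0)
    let η := a * b - algebraMap M R a0 * algebraMap M R b0
    let θ := a - b - (algebraMap M R a0 - algebraMap M R b0)
    hh (c.map (algebraMap M R)) (algebraMap M R a0) (algebraMap M R b0) a b
      = ((algebraMap M R a0 - algebraMap M R b0) - θ)
          * A3 (c.map (algebraMap M R)) (algebraMap M R e) ξ η θ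
        - θ * A2 (c.map (algebraMap M R)) (algebraMap M R e) (algebraMap M R a0)
          (algebraMap M R b0) ξ η θ := by
  intro ξ η θ
  have h1 := gg_sub (c.map (algebraMap M R)) (algebraMap M R e) (algebraMap M R a0)
    (algebraMap M R b0) a b
  have h2 := hh_eq (c.map (algebraMap M R)) (algebraMap M R e) (algebraMap M R a0)
    (algebraMap M R b0) a b
  rw [gg_base c e a0 b0 hP] at h1 h2
  rw [hG] at h1
  rw [h2]
  linear_combination (-(θ - (algebraMap M R a0 - algebraMap M R b0))) * h1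

theorem hh_mem (hmu : m = Ideal.span {a - algebraMap M R a0, b - algebraMap M R b0})
    (hP : gg c e a0 b0 = 0)
    (hG : gg (c.map (algebraMap M R)) (algebraMap M R e) a b = 0) :
    hh (c.map (algebraMap M R)) (algebraMap M R a0) (algebraMap M R b0) a b ∈ m ^ 3 := by
  obtain ⟨hξ, hη, hθ⟩ := in_m a0 b0 a b m hmu
  have h := hh_curve c e a0 b0 a b hP hG
  dsimp only at h
  rw [h]
  refine sub_mem (Ideal.mul_mem_left _ _ (A3_mem m _ _ _ _ _ hξ hη hθ)) ?_
  have e3 : m ^ 3 = m * m ^ 2 := by ring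
  rw [e3]
  exact Ideal.mul_mem_mul hθ (A2_mem m _ _ _ _ _ _ _ hξ hη hθ)

/-- a zero of order four -/
theorem hh_four [IsDedekindDomain R] (hprime : m.IsPrime) (hne : m ≠ ⊥)
    (hmu : m = Ideal.span {a - algebraMap M R a0, b - algebraMap M R b0})
    (hP : gg c e a0 b0 = 0)
    (hG : gg (c.map (algebraMap M R)) (algebraMap M R e) a b = 0) (l0 l1 : M)
    (hl0 : l0 = c.fx (a0 + b0) (a0 * b0) + c.fy (a0 + b0) (a0 * b0) * b0 - 3 * e * (a0 - b0) ^ 2)
    (hl1 : l1 = c.fx (a0 + b0) (a0 * b0) + c.fy (a0 + b0) (a0 * b0) * a0 + 3 * e * (a0 - b0) ^ 2)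
    (hl : l0 ≠ 0 ∨ l1 ≠ 0)
    (h4 : hh (c.map (algebraMap M R)) (algebraMap M R a0) (algebraMap M R b0) a b ∈ m ^ 4) :
    EE c e a0 b0 (l1 - l0) (l1 * b0 - l0 * a0) (l1 + l0) = 0 := by
  obtain ⟨hξ, hη, hθ⟩ := in_m a0 b0 a b m hmu
  have hu0 : a - algebraMap M R a0 ∈ m := by rw [hmu]; exact Ideal.subset_span (by simp)
  have hu1 : b - algebraMap M R b0 ∈ m := by rw [hmu]; exact Ideal.subset_span (by simp)
  have hcur := hh_curve c e a0 b0 a b hP hG
  dsimp only at hcur
  have hA2 := A2_mem m (c.map (algebraMap M R)) (algebraMap M R e) (algebraMap M R a0)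
    (algebraMap M R b0) _ _ _ hξ hη hθ
  have hA3 := A3_mem m (c.map (algebraMap M R)) (algebraMap M R e) _ _ _ hξ hη hθ
  -- the linear form
  have hlin : (a - algebraMap M R a0) * algebraMap M R l0
      + (b - algebraMap M R b0) * algebraMap M R l1 ∈ m ^ 2 := by
    have h1 := gg_sub (c.map (algebraMap M R)) (algebraMap M R e) (algebraMap M R a0)
      (algebraMap M R b0) a b
    rw [gg_base c e a0 b0 hP, hG] at h1
    have e1 : (a - algebraMap M R a0) * algebraMap M R l0
        + (b - algebraMap M R b0) * algebraMap M R l1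
        = A1 (c.map (algebraMap M R)) (algebraMap M R e) (algebraMap M R a0) (algebraMap M R b0)
          (a + b - (algebraMap M R a0 + algebraMap M R b0))
          (a * b - algebraMap M R a0 * algebraMap M R b0)
          (a - b - (algebraMap M R a0 - algebraMap M R b0))
          + (-((c.map (algebraMap M R)).fy (algebraMap M R a0 + algebraMap M R b0)
            (algebraMap M R a0 * algebraMap M R b0)))
            * ((a - algebraMap M R a0) * (b - algebraMap M R b0)) := by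
      rw [hl0, hl1]
      simp only [A1, Cf.T1, Cf.fx, Cf.fy, Cf.map, map_add, map_sub, map_mul, map_pow, map_ofNat]
      ring
    have e2 : A1 (c.map (algebraMap M R)) (algebraMap M R e) (algebraMap M R a0)
        (algebraMap M R b0) (a + b - (algebraMap M R a0 + algebraMap M R b0))
          (a * b - algebraMap M R a0 * algebraMap M R b0)
          (a - b - (algebraMap M R a0 - algebraMap M R b0))
        = -(A2 (c.map (algebraMap M R)) (algebraMap M R e) (algebraMap M R a0)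
            (algebraMap M R b0) (a + b - (algebraMap M R a0 + algebraMap M R b0))
          (a * b - algebraMap M R a0 * algebraMap M R b0)
          (a - b - (algebraMap M R a0 - algebraMap M R b0))
          + A3 (c.map (algebraMap M R)) (algebraMap M R e)
            (a + b - (algebraMap M R a0 + algebraMap M R b0))
          (a * b - algebraMap M R a0 * algebraMap M R b0)
          (a - b - (algebraMap M R a0 - algebraMap M R b0))) := by
      linear_combination -h1
    rw [e1, e2]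
    refine add_mem (neg_mem (add_mem hA2 (Ideal.pow_le_pow_right (by norm_num) hA3))) ?_
    refine Ideal.mul_mem_left _ _ ?_
    rw [pow_two]
    exact Ideal.mul_mem_mul hu0 hu1
  obtain ⟨w, hwm, hw2, hw0, hw1⟩ := unif2 m hprime hne _ _ hmu l0 l1 hl hlin
  by_contra hE
  apply hw2
  apply RL_cube m hprime hne
  -- congruences
  obtain ⟨ξ, hξd⟩ : ∃ ξ, ξ = a + b - (algebraMap M R a0 + algebraMap M R b0) := ⟨_, rfl⟩
  obtain ⟨η, hηd⟩ : ∃ η, η = a * b - algebraMap M R a0 * algebraMap M R b0 := ⟨_, rfl⟩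
  obtain ⟨θ, hθd⟩ : ∃ θ, θ = a - b - (algebraMap M R a0 - algebraMap M R b0) := ⟨_, rfl⟩
  rw [← hξd] at hξ
  rw [← hηd] at hη
  rw [← hθd] at hθ
  rw [← hξd, ← hηd, ← hθd] at hcur hA2 hA3
  have cξ : ξ - algebraMap M R (l1 - l0) * w ∈ m ^ 2 := by
    have e1 : ξ - algebraMap M R (l1 - l0) * w
        = (a - algebraMap M R a0 - algebraMap M R l1 * w)
          + (b - algebraMap M R b0 - algebraMap M R (-l0) * w) := by
      rw [hξd, map_sub, map_neg]; ring
    rw [e1]; exact add_mem hw0 hw1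
  have cη : η - algebraMap M R (l1 * b0 - l0 * a0) * w ∈ m ^ 2 := by
    have e1 : η - algebraMap M R (l1 * b0 - l0 * a0) * w
        = algebraMap M R b0 * (a - algebraMap M R a0 - algebraMap M R l1 * w)
          + algebraMap M R a0 * (b - algebraMap M R b0 - algebraMap M R (-l0) * w)
          + (a - algebraMap M R a0) * (b - algebraMap M R b0) := by
      rw [hηd, map_sub, map_neg, map_mul, map_mul]; ring
    rw [e1]
    refine add_mem (add_mem (Ideal.mul_mem_left _ _ hw0) (Ideal.mul_mem_left _ _ hw1)) ?_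
    rw [pow_two]
    exact Ideal.mul_mem_mul hu0 hu1
  have cθ : θ - algebraMap M R (l1 + l0) * w ∈ m ^ 2 := by
    have e1 : θ - algebraMap M R (l1 + l0) * w
        = (a - algebraMap M R a0 - algebraMap M R l1 * w)
          - (b - algebraMap M R b0 - algebraMap M R (-l0) * w) := by
      rw [hθd, map_add, map_neg]; ring
    rw [e1]; exact sub_mem hw0 hw1
  have hw' : ∀ t : M, algebraMap M R t * w ∈ m := fun t => Ideal.mul_mem_left _ _ hwm
  -- `h₀ A₃ - θ A₂ ∈ m⁴`
  have h5 : (algebraMap M R a0 - algebraMap M R b0) * A3 (c.map (algebraMap M R))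
      (algebraMap M R e) ξ η θ - θ * A2 (c.map (algebraMap M R)) (algebraMap M R e)
        (algebraMap M R a0) (algebraMap M R b0) ξ η θ ∈ m ^ 4 := by
    have e1 : (algebraMap M R a0 - algebraMap M R b0) * A3 (c.map (algebraMap M R))
        (algebraMap M R e) ξ η θ - θ * A2 (c.map (algebraMap M R)) (algebraMap M R e)
        (algebraMap M R a0) (algebraMap M R b0) ξ η θ
        = hh (c.map (algebraMap M R)) (algebraMap M R a0) (algebraMap M R b0) a b
          + θ * A3 (c.map (algebraMap M R)) (algebraMap M R e) ξ η θ := by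
      rw [hcur]; ring
    rw [e1]
    refine add_mem h4 ?_
    have e4 : m ^ 4 = m * m ^ 3 := by ring
    rw [e4]
    exact Ideal.mul_mem_mul hθ hA3
  obtain ⟨ξ', hξ'⟩ : ∃ x, x = algebraMap M R (l1 - l0) * w := ⟨_, rfl⟩
  obtain ⟨η', hη'⟩ : ∃ x, x = algebraMap M R (l1 * b0 - l0 * a0) * w := ⟨_, rfl⟩
  obtain ⟨θ', hθ'⟩ : ∃ x, x = algebraMap M R (l1 + l0) * w := ⟨_, rfl⟩
  have mξ' : ξ' ∈ m := by rw [hξ']; exact hw' _
  have mη' : η' ∈ m := by rw [hη']; exact hw' _
  have mθ' : θ' ∈ m := by rw [hθ']; exact hw' _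
  rw [← hξ'] at cξ
  rw [← hη'] at cη
  rw [← hθ'] at cθ
  have h6 : algebraMap M R (EE c e a0 b0 (l1 - l0) (l1 * b0 - l0 * a0) (l1 + l0)) * w ^ 3
      = ((algebraMap M R a0 - algebraMap M R b0) * A3 (c.map (algebraMap M R))
      (algebraMap M R e) ξ η θ - θ * A2 (c.map (algebraMap M R)) (algebraMap M R e)
        (algebraMap M R a0) (algebraMap M R b0) ξ η θ)
      - (algebraMap M R ((a0 - b0) * c.c30) * (ξ * ξ * ξ - ξ' * ξ' * ξ')
        + algebraMap M R ((a0 - b0) * c.c21) * (ξ * ξ * η - ξ' * ξ' * η')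
        + algebraMap M R ((a0 - b0) * c.c12) * (ξ * η * η - ξ' * η' * η')
        + algebraMap M R ((a0 - b0) * c.c03) * (η * η * η - η' * η' * η')
        + algebraMap M R (2 * (a0 - b0) * e) * (θ * θ * θ - θ' * θ' * θ')
        + algebraMap M R (-(c.fxx (a0 + b0) (a0 * b0))) * (θ * ξ * ξ - θ' * ξ' * ξ')
        + algebraMap M R (-(c.fxy (a0 + b0) (a0 * b0))) * (θ * ξ * η - θ' * ξ' * η')
        + algebraMap M R (-(c.fyy (a0 + b0) (a0 * b0))) * (θ * η * η - θ' * η' * η')) := by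
    rw [hξ', hη', hθ']
    simp only [EE, A2, A3, Cf.T2, Cf.T3, Cf.fxx, Cf.fxy, Cf.fyy, Cf.map, map_add, map_sub,
      map_mul, map_pow, map_ofNat, map_neg]
    ring
  have h7 : algebraMap M R (EE c e a0 b0 (l1 - l0) (l1 * b0 - l0 * a0) (l1 + l0)) * w ^ 3
      ∈ m ^ 4 := by
    rw [h6]
    refine sub_mem h5 (add_mem (add_mem (add_mem (add_mem (add_mem (add_mem (add_mem ?_ ?_) ?_) ?_)
      ?_) ?_) ?_) ?_)
    · exact Ideal.mul_mem_left _ _ (tri m hξ hξ mξ' mξ' cξ cξ cξ)
    · exact Ideal.mul_mem_left _ _ (tri m hξ hη mξ' mξ' cξ cξ cη)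
    · exact Ideal.mul_mem_left _ _ (tri m hη hη mξ' mη' cξ cη cη)
    · exact Ideal.mul_mem_left _ _ (tri m hη hη mη' mη' cη cη cη)
    · exact Ideal.mul_mem_left _ _ (tri m hθ hθ mθ' mθ' cθ cθ cθ)
    · exact Ideal.mul_mem_left _ _ (tri m hξ hξ mθ' mξ' cθ cξ cξ)
    · exact Ideal.mul_mem_left _ _ (tri m hξ hη mθ' mξ' cθ cξ cη)
    · exact Ideal.mul_mem_left _ _ (tri m hη hη mθ' mη' cθ cη cη)
  have h8 : w ^ 3 = algebraMap M R (EE c e a0 b0 (l1 - l0) (l1 * b0 - l0 * a0) (l1 + l0))⁻¹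
      * (algebraMap M R (EE c e a0 b0 (l1 - l0) (l1 * b0 - l0 * a0) (l1 + l0)) * w ^ 3) := by
    rw [← mul_assoc, ← map_mul, inv_mul_cancel₀ hE, map_one, one_mul]
  rw [h8]
  exact Ideal.mul_mem_left _ _ h7

end

end Pool.Agent.TCC
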