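import Pool.Agent.TCC.Cnt
import Pool.Agent.TCC.Loc

/-!
# The partners of the base point
-/

set_option autoImplicit false

namespace Pool.Agent.TCC

open Polynomial Pool.Agent.TQU Pool.Agent.TQC

section

variable {M : Type*} [Field M]

/-- `(a0,b0)` and `Q` lie on a line of `𝔸³` on which `f - e h³ = ν τ (ρ - τ) h`. -/
def SymP (c : Cf M) (e a0 b0 : M) (Q : Fin 2 → M) : Prop :=
  ∃ δ0 δ1 ρ ν : M, (δ0 ≠ 0 ∨ δ1 ≠ 0) ∧ Q 0 = a0 + ρ * δ0 ∧ Q 1 = b0 + ρ * δ1 ∧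
    A1 c e a0 b0 (δ0 + δ1) (b0 * δ0 + a0 * δ1 + ρ * (δ0 * δ1)) (δ0 - δ1) = ν * ρ * (a0 - b0) ∧
    A2 c e a0 b0 (δ0 + δ1) (b0 * δ0 + a0 * δ1 + ρ * (δ0 * δ1)) (δ0 - δ1)
      = ν * (ρ * (δ0 - δ1) - (a0 - b0)) ∧
    A3 c e (δ0 + δ1) (b0 * δ0 + a0 * δ1 + ρ * (δ0 * δ1)) (δ0 - δ1) = -(ν * (δ0 - δ1))

theorem pderiv_GM0 (c : Cf M) (e : M) (P : Fin 2 → M) :
    MvPolynomial.eval P (MvPolynomial.pderiv 0 (GM c e))
      = c.fx (P 0 + P 1) (P 0 * P 1) + c.fy (P 0 + P 1) (P 0 * P 1) * P 1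
        - 3 * e * (P 0 - P 1) ^ 2 := by
  have e2 : (MvPolynomial.pderiv 0) (MvPolynomial.X 1 : MvPolynomial (Fin 2) M) = 0 :=
    MvPolynomial.pderiv_X_of_ne (by decide)
  simp only [GM, gg, Cf.ev, Cf.map, map_add, map_sub, MvPolynomial.pderiv_mul,
    MvPolynomial.pderiv_pow, MvPolynomial.pderiv_C, MvPolynomial.pderiv_X_self, e2, Cf.fx, Cf.fy,
    map_mul, map_pow, MvPolynomial.eval_C, MvPolynomial.eval_X, map_zero, map_one,
    Nat.cast_ofNat, map_ofNat]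
  ring

theorem pderiv_GM1 (c : Cf M) (e : M) (P : Fin 2 → M) :
    MvPolynomial.eval P (MvPolynomial.pderiv 1 (GM c e))
      = c.fx (P 0 + P 1) (P 0 * P 1) + c.fy (P 0 + P 1) (P 0 * P 1) * P 0
        + 3 * e * (P 0 - P 1) ^ 2 := by
  have e2 : (MvPolynomial.pderiv 1) (MvPolynomial.X 0 : MvPolynomial (Fin 2) M) = 0 :=
    MvPolynomial.pderiv_X_of_ne (by decide)
  simp only [GM, gg, Cf.ev, Cf.map, map_add, map_sub, MvPolynomial.pderiv_mul,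
    MvPolynomial.pderiv_pow, MvPolynomial.pderiv_C, MvPolynomial.pderiv_X_self, e2, Cf.fx, Cf.fy,
    map_mul, map_pow, MvPolynomial.eval_C, MvPolynomial.eval_X, map_zero, map_one,
    Nat.cast_ofNat, map_ofNat]
  ring

/-- the value of `hh` in the coordinate ring -/
theorem mk_HM (c : Cf M) (e a0 b0 : M) :
    Ideal.Quotient.mk (Ideal.span {GM c e}) (HM c a0 b0)
      = hh (c.map (algebraMap M (CR (GM c e)))) (algebraMap M (CR (GM c e)) a0)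
        (algebraMap M (CR (GM c e)) b0)
        (Ideal.Quotient.mk (Ideal.span {GM c e}) (MvPolynomial.X 0))
        (Ideal.Quotient.mk (Ideal.span {GM c e}) (MvPolynomial.X 1)) := by
  rw [HM, map_hh]
  rfl

theorem mk_GM (c : Cf M) (e : M) :
    gg (c.map (algebraMap M (CR (GM c e)))) (algebraMap M (CR (GM c e)) e)
        (Ideal.Quotient.mk (Ideal.span {GM c e}) (MvPolynomial.X 0))
        (Ideal.Quotient.mk (Ideal.span {GM c e}) (MvPolynomial.X 1)) = 0 := by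
  have h : Ideal.Quotient.mk (Ideal.span {GM c e}) (GM c e) = 0 :=
    Ideal.Quotient.eq_zero_iff_mem.2 (Ideal.mem_span_singleton_self _)
  have h2 := map_gg (Ideal.Quotient.mk (Ideal.span {GM c e})) (c.map MvPolynomial.C)
    (MvPolynomial.C e) (MvPolynomial.X 0) (MvPolynomial.X 1)
  exact h2.symm.trans h

theorem pt_eq (c : Cf M) (e a0 b0 : M) : ptIdeal (GM c e) ![a0, b0]
    = Ideal.span {Ideal.Quotient.mk (Ideal.span {GM c e}) (MvPolynomial.X 0)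
        - algebraMap M (CR (GM c e)) a0,
      Ideal.Quotient.mk (Ideal.span {GM c e}) (MvPolynomial.X 1)
        - algebraMap M (CR (GM c e)) b0} := by
  rw [ptIdeal, Ideal.map_span, ← Set.range_comp]
  congr 1
  ext x
  simp only [Set.mem_range, Fin.exists_fin_two, Function.comp, Set.mem_insert_iff,
    Set.mem_singleton_iff, map_sub]
  constructor
  · rintro (h | h)
    · exact Or.inl h.symm
    · exact Or.inr h.symm
  · rintro (h | h)
    · exact Or.inl h.symm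
    · exact Or.inr h.symm

theorem not_dvd_HM (c : Cf M) (h03 : c.c03 ≠ 0) (e a0 b0 : M)
    (hC : (a0 - b0) * c.fyy (a0 + b0) (a0 * b0) ≠ 0) : ¬ GM c e ∣ HM c a0 b0 := by
  rintro ⟨v, hv⟩
  obtain ⟨f1, -⟩ := GG_lead c h03 e
  obtain ⟨k1, -, -⟩ := HP_lead c a0 b0 hC
  have h : HP c a0 b0 = GG c e * psi v := by rw [← psi_HM, hv, map_mul, psi_GM]
  have h0 : HP c a0 b0 ≠ 0 := by
    intro h0
    rw [h0, natDegree_zero] at k1
    omega
  have h1 := natDegree_le_of_dvd ⟨psi v, h⟩ h0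
  omega

/-- a common zero different from the base point -/
theorem sym_of_ne (c : Cf M) (e a0 b0 : M) (hP : gg c e a0 b0 = 0) (h0 : a0 - b0 ≠ 0)
    (Q : Fin 2 → M) (hQ : gg c e (Q 0) (Q 1) = 0) (hH : hh c a0 b0 (Q 0) (Q 1) = 0)
    (hne : Q 0 ≠ a0 ∨ Q 1 ≠ b0) : SymP c e a0 b0 Q := by
  have h1 := gg_sub c e a0 b0 (Q 0) (Q 1)
  have h2 := hh_eq c e a0 b0 (Q 0) (Q 1)
  rw [hP, hQ] at h1
  rw [hP, hH] at h2
  have eξ : Q 0 + Q 1 - (a0 + b0) = (Q 0 - a0) + (Q 1 - b0) := by ring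
  have eη : Q 0 * Q 1 - a0 * b0 = b0 * (Q 0 - a0) + a0 * (Q 1 - b0)
      + 1 * ((Q 0 - a0) * (Q 1 - b0)) := by ring
  have eθ : Q 0 - Q 1 - (a0 - b0) = (Q 0 - a0) - (Q 1 - b0) := by ring
  rw [eξ, eη, eθ] at h1 h2
  obtain ⟨B1, hB1⟩ : ∃ B, B = A1 c e a0 b0 ((Q 0 - a0) + (Q 1 - b0))
    (b0 * (Q 0 - a0) + a0 * (Q 1 - b0) + 1 * ((Q 0 - a0) * (Q 1 - b0)))
    ((Q 0 - a0) - (Q 1 - b0)) := ⟨_, rfl⟩
  obtain ⟨B2, hB2⟩ : ∃ B, B = A2 c e a0 b0 ((Q 0 - a0) + (Q 1 - b0))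
    (b0 * (Q 0 - a0) + a0 * (Q 1 - b0) + 1 * ((Q 0 - a0) * (Q 1 - b0)))
    ((Q 0 - a0) - (Q 1 - b0)) := ⟨_, rfl⟩
  obtain ⟨B3, hB3⟩ : ∃ B, B = A3 c e ((Q 0 - a0) + (Q 1 - b0))
    (b0 * (Q 0 - a0) + a0 * (Q 1 - b0) + 1 * ((Q 0 - a0) * (Q 1 - b0)))
    ((Q 0 - a0) - (Q 1 - b0)) := ⟨_, rfl⟩
  rw [← hB1, ← hB2, ← hB3] at h1
  rw [← hB1, ← hB2] at h2
  refine ⟨Q 0 - a0, Q 1 - b0, 1, B1 / (a0 - b0), ?_, by ring, by ring, ?_, ?_, ?_⟩
  · rcases hne with h | h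
    · exact Or.inl (sub_ne_zero.2 h)
    · exact Or.inr (sub_ne_zero.2 h)
  · rw [← hB1]
    field_simp
  · rw [← hB2]
    field_simp
    linear_combination h2
  · rw [← hB3]
    field_simp
    linear_combination (-(a0 - b0)) * h1 - h2

/-- the partners -/
theorem partners [IsAlgClosed M] (c : Cf M) (h03 : c.c03 ≠ 0) (e a0 b0 : M)
    [IsDedekindDomain (CR (GM c e))] (hP : gg c e a0 b0 = 0)
    (hC : (a0 - b0) * c.fyy (a0 + b0) (a0 * b0) ≠ 0)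
    (hcop : ∀ β, ¬ (g3 c e β = 0 ∧ h2 c a0 b0 β = 0))
    (hcop' : ∀ β, ¬ (g3 c (-e) β = 0 ∧ h2 c b0 a0 β = 0)) :
    ∃ s : Multiset (Fin 2 → M), 5 ≤ s.card ∧
      (∀ Q ∈ s, MvPolynomial.eval Q (GM c e) = 0 ∧ SymP c e a0 b0 Q) ∧
      ((ptIdeal (GM c e) ![a0, b0]) ^ 3 * (s.map (ptIdeal (GM c e))).prod).IsPrincipal := by
  have h0 : a0 - b0 ≠ 0 := left_ne_zero_of_mul hC
  have hPe : MvPolynomial.eval ![a0, b0] (GM c e) = 0 := by
    rw [eval_GM]; exact hP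
  obtain ⟨s0, hs0, hprod⟩ := factor_pts (GM c e) (HM c a0 b0) (not_dvd_HM c h03 e a0 b0 hC)
  have h3 : (ptIdeal (GM c e) ![a0, b0]) ^ 3 ∣ (s0.map (ptIdeal (GM c e))).prod := by
    rw [← hprod, Ideal.dvd_span_singleton, mk_HM]
    exact hh_mem c e a0 b0 _ _ _ (pt_eq c e a0 b0) hP (mk_GM c e)
  obtain ⟨s, rfl⟩ := extract (GM c e) ![a0, b0] hPe 3 s0 (fun Q hQ => (hs0 Q hQ).1) h3
  have h8 := eight c h03 e a0 b0 hC hcop hcop' _ (fun Q hQ => (hs0 Q hQ).1) hprod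
  rw [Multiset.card_add, Multiset.card_replicate] at h8
  have hprod' : Ideal.span {Ideal.Quotient.mk (Ideal.span {GM c e}) (HM c a0 b0)}
      = (ptIdeal (GM c e) ![a0, b0]) ^ 3 * (s.map (ptIdeal (GM c e))).prod := by
    rw [hprod, Multiset.map_add, Multiset.prod_add, Multiset.map_replicate,
      Multiset.prod_replicate]
  refine ⟨s, by omega, ?_, ?_⟩
  · intro Q hQ
    obtain ⟨hQG, hQH⟩ := hs0 Q (Multiset.mem_add.2 (Or.inr hQ))
    refine ⟨hQG, ?_⟩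
    rw [eval_GM] at hQG
    rw [eval_HM] at hQH
    by_cases hPQ : Q = ![a0, b0]
    · -- multiplicity four
      have h5 : Ideal.Quotient.mk (Ideal.span {GM c e}) (HM c a0 b0)
          ∈ (ptIdeal (GM c e) ![a0, b0]) ^ 4 := by
        rw [← Ideal.dvd_span_singleton, hprod']
        rw [hPQ] at hQ
        obtain ⟨s1, hs1⟩ := Multiset.exists_cons_of_mem hQ
        rw [hs1, Multiset.map_cons, Multiset.prod_cons]
        exact ⟨(s1.map (ptIdeal (GM c e))).prod, by ring⟩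
      rw [mk_HM] at h5
      have hmax := pt_max (GM c e) _ hPe
      have hne := pt_ne_bot (GM c e) _ hPe
      obtain ⟨l0, hl0⟩ : ∃ l, l = c.fx (a0 + b0) (a0 * b0) + c.fy (a0 + b0) (a0 * b0) * b0
        - 3 * e * (a0 - b0) ^ 2 := ⟨_, rfl⟩
      obtain ⟨l1, hl1⟩ : ∃ l, l = c.fx (a0 + b0) (a0 * b0) + c.fy (a0 + b0) (a0 * b0) * a0
        + 3 * e * (a0 - b0) ^ 2 := ⟨_, rfl⟩
      have hl : l0 ≠ 0 ∨ l1 ≠ 0 := by
        have h6 := smooth_pt (GM c e) ![a0, b0] hPe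
        rw [pderiv_GM0, pderiv_GM1] at h6
        rw [hl0, hl1]
        exact h6
      have hE := hh_four c e a0 b0 _ _ (ptIdeal (GM c e) ![a0, b0]) hmax.isPrime hne
        (pt_eq c e a0 b0) hP (mk_GM c e) l0 l1 hl0 hl1 hl h5
      have t0 : l1 + -l0 = l1 - l0 := by ring
      have t1 : b0 * l1 + a0 * -l0 + 0 * (l1 * -l0) = l1 * b0 - l0 * a0 := by ring
      have t2 : l1 - -l0 = l1 + l0 := by ring
      refine ⟨l1, -l0, 0, -(A2 c e a0 b0 (l1 - l0) (l1 * b0 - l0 * a0) (l1 + l0) / (a0 - b0)),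
        ?_, ?_, ?_, ?_, ?_, ?_⟩
      · rcases hl with h | h
        · exact Or.inr (neg_ne_zero.2 h)
        · exact Or.inl h
      · rw [hPQ]; simp
      · rw [hPQ]; simp
      · rw [t0, t1, t2]
        simp only [A1, Cf.T1]
        rw [hl0, hl1]
        ring
      · rw [t0, t1, t2]
        field_simp
        ring
      · rw [t0, t1, t2]
        simp only [EE] at hE
        field_simp
        linear_combination hE
    · refine sym_of_ne c e a0 b0 hP h0 Q hQG hQH ?_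
      by_contra hcon
      push Not at hcon
      apply hPQ
      funext i
      fin_cases i
      · exact hcon.1
      · exact hcon.2
  · rw [← hprod']
    exact ⟨⟨_, rfl⟩⟩

end

end Pool.Agent.TCC
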