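import Pool.Agent.TCC.Alg
import Pool.Agent.TQC.Loc
import Pool.Agent.TSF.Dep
import Pool.Agent.TCC.Part

/-!
# The special lines form a family of dimension at most one
-/

set_option autoImplicit false

namespace Pool.Agent.TCC

open Polynomial Pool.Agent.TQU Pool.Agent.TSF Pool.Agent.TQC

section

variable {A : Type*} [CommRing A]

/-- the value of a cubic at the root of its second transvectant with a quadratic polynomial -/
def j3 (f0 f1 f2 f3 q0 q1 q2 : A) : A :=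
  f0 * (3 * f3 * q0 - f2 * q1 + f1 * q2) ^ 3
    - f1 * (3 * f3 * q0 - f2 * q1 + f1 * q2) ^ 2 * (f2 * q0 - f1 * q1 + 3 * f0 * q2)
    + f2 * (3 * f3 * q0 - f2 * q1 + f1 * q2) * (f2 * q0 - f1 * q1 + 3 * f0 * q2) ^ 2
    - f3 * (f2 * q0 - f1 * q1 + 3 * f0 * q2) ^ 3

theorem j3_form (h0 h1 q0 q1 q2 α β : A) :
    j3 (α * (h0 * q0) + β * h0 ^ 3) (α * (h0 * q1 + h1 * q0) + 3 * β * h0 ^ 2 * h1)
      (α * (h0 * q2 + h1 * q1) + 3 * β * h0 * h1 ^ 2) (α * (h1 * q2) + β * h1 ^ 3) q0 q1 q2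
      = 0 := by
  simp only [j3]
  ring

theorem j3_translate (f0 f1 f2 f3 q0 q1 q2 b : A) :
    j3 (f0 + f1 * b + f2 * b ^ 2 + f3 * b ^ 3) (f1 + 2 * f2 * b + 3 * f3 * b ^ 2)
      (f2 + 3 * f3 * b) f3 (q0 + q1 * b + q2 * b ^ 2) (q1 + 2 * q2 * b) q2
      = j3 f0 f1 f2 f3 q0 q1 q2 := by
  simp only [j3]
  ring

theorem j3_zero (f1 f2 f3 d : A) :
    j3 0 f1 f2 f3 0 d (-1) = f1 ^ 3 * (d * f1 + d ^ 2 * f2 + d ^ 3 * f3) := by
  simp only [j3]
  ring

/-- the condition on the line `y = s x + β` -/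
def DD (c : Cf A) (s β : A) : A :=
  j3 (c.ev 0 β) (c.T1 0 β 1 s) (c.T2 0 β 1 s) (c.T3 1 s) (4 * β) (4 * s) (-1)

theorem DD_base (c : Cf A) (s β p : A) :
    DD c s β = j3 (c.ev p (s * p + β)) (c.T1 p (s * p + β) 1 s) (c.T2 p (s * p + β) 1 s)
      (c.T3 1 s) (4 * (s * p + β) - p ^ 2) (4 * s - 2 * p) (-1) := by
  rw [DD, ← j3_translate _ _ _ _ _ _ _ p]
  congr 1
  · simp only [Cf.ev, Cf.T1, Cf.T2, Cf.T3, Cf.fx, Cf.fy, Cf.fxx, Cf.fxy, Cf.fyy]
    ring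
  · simp only [Cf.T1, Cf.T2, Cf.T3, Cf.fx, Cf.fy, Cf.fxx, Cf.fxy, Cf.fyy]
    ring
  · simp only [Cf.T2, Cf.T3, Cf.fxx, Cf.fxy, Cf.fyy]
    ring
  · ring
  · ring

/-- the line through `(2r, r²)` and `(2s, s²)`, `s = 2σ - r` -/
theorem DD_special (c : Cf A) (r σ : A) (hr : c.ev (2 * r) (r ^ 2) = 0) :
    DD c σ (r ^ 2 - 2 * r * σ) = (c.fx (2 * r) (r ^ 2) + σ * c.fy (2 * r) (r ^ 2)) ^ 3
      * c.ev (2 * (2 * σ - r)) ((2 * σ - r) ^ 2) := by
  have e1 : σ * (2 * r) + (r ^ 2 - 2 * r * σ) = r ^ 2 := by ring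
  have e2 : 4 * r ^ 2 - (2 * r) ^ 2 = 0 := by ring
  rw [DD_base c σ _ (2 * r), e1, e2, hr, j3_zero]
  have h1 := c.taylor (2 * r) (r ^ 2) 1 σ (4 * σ - 2 * (2 * r))
  rw [hr] at h1
  have e3 : 2 * r + (4 * σ - 2 * (2 * r)) * 1 = 2 * (2 * σ - r) := by ring
  have e4 : r ^ 2 + (4 * σ - 2 * (2 * r)) * σ = (2 * σ - r) ^ 2 := by ring
  rw [e3, e4] at h1
  rw [h1]
  simp only [Cf.T1]
  ring

theorem map_DD {B : Type*} [CommRing B] (φ : A →+* B) (c : Cf A) (s β : A) :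
    φ (DD c s β) = DD (c.map φ) (φ s) (φ β) := by
  simp only [DD, j3, Cf.ev, Cf.T1, Cf.T2, Cf.T3, Cf.fx, Cf.fy, Cf.fxx, Cf.fxy, Cf.fyy, Cf.map,
    map_sub, map_mul, map_pow, map_add, map_ofNat, map_neg, map_one, map_zero]

/-- the restriction to the conic -/
noncomputable def EP (c : Cf A) : A[X] := (c.map C).ev (2 * X) (X ^ 2)

theorem EP_eq (c : Cf A) : EP c = C c.c00 + C (2 * c.c10) * X + C (c.c01 + 4 * c.c20) * X ^ 2
    + C (2 * c.c11 + 8 * c.c30) * X ^ 3 + C (c.c02 + 4 * c.c21) * X ^ 4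
    + C (2 * c.c12) * X ^ 5 + C c.c03 * X ^ 6 := by
  simp only [EP, Cf.ev, Cf.map, C_add, C_mul, map_ofNat]
  ring

theorem EP_coeff (c : Cf A) : (EP c).coeff 6 = c.c03 := by
  have h : ∀ a0 a1 a2 a3 a4 a5 a6 : A, (C a0 + C a1 * X + C a2 * X ^ 2 + C a3 * X ^ 3
      + C a4 * X ^ 4 + C a5 * X ^ 5 + C a6 * X ^ 6 : A[X]).coeff 6 = a6 := by
    intro a0 a1 a2 a3 a4 a5 a6
    simp [coeff_X, coeff_X_pow, coeff_C]
  rw [EP_eq, h]

theorem EP_eval (c : Cf A) (s : A) : (EP c).eval s = c.ev (2 * s) (s ^ 2) := by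
  rw [EP_eq]
  simp only [eval_add, eval_mul, eval_C, eval_X, eval_pow, Cf.ev]
  ring

end

section

variable {M : Type*} [Field M]

theorem EP_ne (c : Cf M) (h03 : c.c03 ≠ 0) : EP c ≠ 0 := by
  intro h
  have h1 := EP_coeff c
  rw [h, coeff_zero] at h1
  exact h03 h1.symm

/-- Not all lines are special. -/
theorem DD_ne [IsAlgClosed M] (h2 : (2 : M) ≠ 0) (c : Cf M) (h03 : c.c03 ≠ 0) (e : M)
    [IsDedekindDomain (CR (GM c e))] : ∃ s β : M, DD c s β ≠ 0 := by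
  have hE := EP_ne c h03
  have hdeg : (EP c).degree ≠ 0 := by
    intro h
    have h1 : (EP c).natDegree = 0 := natDegree_eq_of_degree_eq_some h
    have h3 : 6 ≤ (EP c).natDegree := le_natDegree_of_ne_zero (by rw [EP_coeff]; exact h03)
    omega
  obtain ⟨r, hr⟩ := IsAlgClosed.exists_root (EP c) hdeg
  have hr' : c.ev (2 * r) (r ^ 2) = 0 := by rw [← EP_eval]; exact hr
  -- the level curve is smooth at `(r, r)`
  have hg : MvPolynomial.eval ![r, r] (GM c e) = 0 := by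
    rw [eval_GM]
    have e1 : gg c e (![r, r] 0) (![r, r] 1) = c.ev (2 * r) (r ^ 2) := by
      simp only [gg, Matrix.cons_val_zero, Matrix.cons_val_one, Matrix.cons_val_fin_one]
      have e2 : r + r = 2 * r := by ring
      have e3 : r * r = r ^ 2 := by ring
      rw [e2, e3, sub_self]; ring
    rw [e1, hr']
  have hsm := smooth_pt (GM c e) ![r, r] hg
  rw [pderiv_GM0, pderiv_GM1] at hsm
  have hs : c.fx (2 * r) (r ^ 2) + r * c.fy (2 * r) (r ^ 2) ≠ 0 := by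
    intro h
    have e2 : r + r = 2 * r := by ring
    have e3 : r * r = r ^ 2 := by ring
    simp only [Matrix.cons_val_zero, Matrix.cons_val_one, Matrix.cons_val_fin_one, e2, e3,
      sub_self] at hsm
    rcases hsm with h1 | h1
    · apply h1; linear_combination h
    · apply h1; linear_combination h
  -- a general second point
  obtain ⟨L, hL⟩ : ∃ L : M[X], L = C (2 * c.fx (2 * r) (r ^ 2) + r * c.fy (2 * r) (r ^ 2))
    + C (c.fy (2 * r) (r ^ 2)) * X := ⟨_, rfl⟩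
  have hL0 : L ≠ 0 := by
    intro h
    have h1 : L.eval r = 0 := by rw [h, eval_zero]
    rw [hL] at h1
    simp only [eval_add, eval_mul, eval_C, eval_X] at h1
    apply mul_ne_zero h2 hs
    linear_combination h1
  have hprod : EP c * L ≠ 0 := mul_ne_zero hE hL0
  obtain ⟨s, hs'⟩ : ∃ s : M, (EP c * L).eval s ≠ 0 := by
    by_contra hcon
    push Not at hcon
    exact hprod (Polynomial.funext (fun s => by rw [hcon s, eval_zero]))
  rw [eval_mul, EP_eval] at hs'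
  have hs1 := left_ne_zero_of_mul hs'
  have hs2 := right_ne_zero_of_mul hs'
  refine ⟨(r + s) / 2, r ^ 2 - 2 * r * ((r + s) / 2), ?_⟩
  rw [DD_special c r _ hr']
  have e5 : 2 * ((r + s) / 2) - r = s := by field_simp; ring
  rw [e5]
  refine mul_ne_zero (pow_ne_zero 3 ?_) hs1
  intro h
  apply hs2
  rw [hL]
  simp only [eval_add, eval_mul, eval_C, eval_X]
  field_simp at h
  linear_combination h

end

end Pool.Agent.TCC
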