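import Pool.Agent.TQC.Line

/-!
# The cube factor on a line is defined over a compositum of function fields of curves
-/

set_option autoImplicit false

namespace Pool.Agent.TCC

open Polynomial Pool.Agent.TQU Pool.Agent.TSF Pool.Agent.TQC

universe u

section

variable {k M : Type u} [Field k] [Field M] [Algebra k M]

theorem cc3 {A : Type*} [CommRing A] (a b c d : A) :
    (C a * X ^ 3 + C b * X ^ 2 + C c * X + C d : A[X]).coeff 3 = a := by
  simp [coeff_X, coeff_X_pow, coeff_C]

theorem eval_mem {L : Type*} [Field L] [Algebra L M] (E : IntermediateField L M) (p : M[X])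
    (hp : ∀ n, p.coeff n ∈ E) (τ : M) (hτ : τ ∈ E) : p.eval τ ∈ E := by
  rw [eval_eq_sum_range]
  exact sum_mem (fun n _ => mul_mem (hp n) (pow_mem hτ n))

theorem derivative_mem {L : Type*} [Field L] [Algebra L M] (E : IntermediateField L M) (p : M[X])
    (hp : ∀ n, p.coeff n ∈ E) (n : ℕ) : (derivative p).coeff n ∈ E := by
  rw [coeff_derivative]
  refine mul_mem (hp _) (add_mem ?_ (one_mem _))
  exact natCast_mem E n

theorem root_alg (K₀ : IntermediateField k M) (F : M[X]) (hF : ∀ n, F.coeff n ∈ K₀) (hF0 : F ≠ 0)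
    (τ : M) (hτ : F.eval τ = 0) : τ ∈ algebraicClosure K₀ M := by
  have h1 : F ∈ lifts (algebraMap K₀ M) := by
    rw [lifts_iff_coeff_lifts]
    intro n
    exact ⟨⟨F.coeff n, hF n⟩, rfl⟩
  obtain ⟨F0, hF0'⟩ := (mem_lifts F).1 h1
  refine mem_algebraicClosure_iff.2 ⟨F0, ?_, ?_⟩
  · rintro rfl
    rw [Polynomial.map_zero] at hF0'
    exact hF0 hF0'.symm
  · rw [← eval_map_algebraMap, hF0', hτ]

theorem mem_alg (K₀ : IntermediateField k M) (a : M) (ha : a ∈ K₀) : a ∈ algebraicClosure K₀ M :=
  mem_algebraicClosure_iff.2 (isAlgebraic_algebraMap (⟨a, ha⟩ : K₀))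

/-- `F = - σ r - c' σ³` determines `σ` and `c'` up to finitely many choices. -/
theorem sigma_alg (h2 : (2 : M) ≠ 0) (K₀ : IntermediateField k M) (F r σ : M[X])
    (hF : ∀ n, F.coeff n ∈ K₀) (hr : ∀ n, r.coeff n ∈ K₀) (hσ : σ.natDegree ≤ 1) (hF0 : F ≠ 0)
    (c' : M) (h : F = -(σ * r) - C c' * σ ^ 3)
    (hnd : ∀ τ, F.eval τ = 0 → r.eval τ = 0 → (derivative r).eval τ ≠ 0)
    (hr1 : ∃ j, j ≠ 0 ∧ r.coeff j ≠ 0) :
    (∀ n, σ.coeff n ∈ algebraicClosure K₀ M) ∧ c' ∈ algebraicClosure K₀ M := by
  have hFE : ∀ n, F.coeff n ∈ algebraicClosure K₀ M := fun n => mem_alg K₀ _ (hF n)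
  have hrE : ∀ n, r.coeff n ∈ algebraicClosure K₀ M := fun n => mem_alg K₀ _ (hr n)
  have hσ0 : σ ≠ 0 := by
    rintro rfl
    apply hF0
    rw [h]; ring
  have hσe : σ = C (σ.coeff 1) * X + C (σ.coeff 0) := eq_X_add_C_of_natDegree_le_one hσ
  obtain ⟨m, hm⟩ : ∃ m, m = σ.coeff 1 := ⟨_, rfl⟩
  obtain ⟨m0, hm0⟩ : ∃ m, m = σ.coeff 0 := ⟨_, rfl⟩
  rw [← hm, ← hm0] at hσe
  have hall : m ∈ algebraicClosure K₀ M → m0 ∈ algebraicClosure K₀ M →
      ∀ n, σ.coeff n ∈ algebraicClosure K₀ M := by
    intro h1 h0 n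
    rcases n with _ | _ | n
    · rw [← hm0]; exact h0
    · rw [zero_add, ← hm]; exact h1
    · rw [coeff_eq_zero_of_natDegree_lt (by omega)]
      exact zero_mem _
  by_cases hm1 : m = 0
  · rw [hm1, C_0, zero_mul, zero_add] at hσe
    have hm00 : m0 ≠ 0 := by
      rintro h0
      rw [h0, C_0] at hσe
      exact hσ0 hσe
    obtain ⟨j, hj0, hj⟩ := hr1
    have e1 : F.coeff j = -(m0 * r.coeff j) := by
      have e2 : F = -(C m0 * r) - C (c' * m0 ^ 3) := by
        rw [h, hσe]; simp only [C_mul, C_pow]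
      rw [e2, coeff_sub, coeff_neg, coeff_C_mul, coeff_C, if_neg hj0, sub_zero]
    have e0 : F.coeff 0 = -(m0 * r.coeff 0) - c' * m0 ^ 3 := by
      have e2 : F = -(C m0 * r) - C (c' * m0 ^ 3) := by
        rw [h, hσe]; simp only [C_mul, C_pow]
      rw [e2, coeff_sub, coeff_neg, coeff_C_mul, coeff_C_zero]
    have hm0E : m0 ∈ algebraicClosure K₀ M := by
      have e3 : m0 = -(F.coeff j / r.coeff j) := by
        rw [e1]; field_simp
      rw [e3]
      exact neg_mem (div_mem (hFE j) (hrE j))
    refine ⟨hall (by rw [hm1]; exact zero_mem _) hm0E, ?_⟩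
    have e4 : c' = (-(F.coeff 0) - m0 * r.coeff 0) / m0 ^ 3 := by
      rw [e0]; field_simp; ring
    rw [e4]
    exact div_mem (sub_mem (neg_mem (hFE 0)) (mul_mem hm0E (hrE 0))) (pow_mem hm0E 3)
  · obtain ⟨τ, hτ⟩ : ∃ τ, τ = -m0 / m := ⟨_, rfl⟩
    have hστ : σ.eval τ = 0 := by
      rw [hσe, hτ]
      simp only [eval_add, eval_mul, eval_C, eval_X]
      field_simp
      ring
    have hFτ : F.eval τ = 0 := by
      rw [h]
      simp [hστ]
    have hτE : τ ∈ algebraicClosure K₀ M := root_alg K₀ F hF hF0 τ hFτ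
    have hd1 : derivative σ = C m := by
      rw [hσe]; simp
    have hdF : derivative F = -(C m * r + σ * derivative r) - C (3 * c') * σ ^ 2 * C m := by
      rw [h]
      simp only [derivative_sub, derivative_neg, derivative_mul, hd1, derivative_C, derivative_pow,
        zero_mul, zero_add, C_mul, map_ofNat, Nat.cast_ofNat]
      norm_num
      ring
    have hdF' : (derivative F).eval τ = -(m * r.eval τ) := by
      rw [hdF]
      simp [hστ]
    have hdFE : ∀ n, (derivative F).coeff n ∈ algebraicClosure K₀ M := derivative_mem _ F hFE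
    have hmE : m ∈ algebraicClosure K₀ M := by
      by_cases hrτ : r.eval τ = 0
      · have hrd := hnd τ hFτ hrτ
        have hddF : (derivative (derivative F)).eval τ = -(2 * m * (derivative r).eval τ) := by
          rw [hdF]
          simp only [derivative_sub, derivative_neg, derivative_add, derivative_mul, hd1,
            derivative_C, derivative_pow, zero_mul, zero_add, eval_sub, eval_neg, eval_add,
            eval_mul, eval_C, eval_pow, hστ, mul_zero, add_zero]
          simp
          ring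
        have e3 : m = -((derivative (derivative F)).eval τ / (2 * (derivative r).eval τ)) := by
          rw [hddF]; field_simp
        rw [e3]
        refine neg_mem (div_mem (eval_mem _ _ (derivative_mem _ _ hdFE) τ hτE)
          (mul_mem ?_ (eval_mem _ _ (derivative_mem _ _ hrE) τ hτE)))
        have := natCast_mem (algebraicClosure K₀ M) 2
        exact_mod_cast this
      · have e3 : m = -((derivative F).eval τ / r.eval τ) := by
          rw [hdF']; field_simp
        rw [e3]
        exact neg_mem (div_mem (eval_mem _ _ hdFE τ hτE) (eval_mem _ _ hrE τ hτE))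
    have hm0E : m0 ∈ algebraicClosure K₀ M := by
      have e3 : m0 = -(m * τ) := by
        rw [hτ]; field_simp
      rw [e3]
      exact neg_mem (mul_mem hmE hτE)
    have hσE := hall hmE hm0E
    refine ⟨hσE, ?_⟩
    have e4 : (F + σ * r).coeff 3 = -(c' * m ^ 3) := by
      have e5 : F + σ * r = -(C c' * (C m * X + C m0) ^ 3) := by
        rw [← hσe, h]; ring
      have e6 : (C m * X + C m0 : M[X]) ^ 3 = C (m ^ 3) * X ^ 3 + C (3 * m ^ 2 * m0) * X ^ 2
          + C (3 * m * m0 ^ 2) * X + C (m0 ^ 3) := by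
        simp only [C_mul, C_pow, map_ofNat]; ring
      rw [e5, coeff_neg, coeff_C_mul, e6, cc3]
    have e7 : c' = -((F + σ * r).coeff 3 / m ^ 3) := by
      rw [e4]; field_simp
    rw [e7]
    refine neg_mem (div_mem ?_ (pow_mem hmE 3))
    rw [coeff_add, coeff_mul]
    exact add_mem (hFE 3) (sum_mem (fun x _ => mul_mem (hσE _) (hrE _)))

/-- `z^N = u/4 - c' u³` -/
theorem level_fields [IsAlgClosed M] (h2 : (2 : M) ≠ 0) (K₀ : IntermediateField k M)
    (c' u z : M) (N : ℕ) (hN : 0 < N) (hc' : c' ∈ algebraicClosure K₀ M)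
    (h : z ^ N = u / 4 - c' * u ^ 3) :
    ∃ (A : Set M) (K₂ : IntermediateField k M), A.Finite ∧ (∀ a ∈ A, a ∈ algebraicClosure K₀ M) ∧
      K₂.FG ∧ Algebra.trdeg k K₂ ≤ 1 ∧ u ∈ IntermediateField.adjoin k A ⊔ K₂ ∧
      z ∈ IntermediateField.adjoin k A ⊔ K₂ := by
  have h4 : (4 : M) ≠ 0 := by
    have : (4 : M) = 2 * 2 := by norm_num
    rw [this]; exact mul_ne_zero h2 h2
  have mem1 : ∀ (B : Set M) (a : M), a ∈ B →
      IsAlgebraic (IntermediateField.adjoin k B) a := fun B a ha =>
    isAlgebraic_algebraMap (⟨a, IntermediateField.subset_adjoin k _ ha⟩ :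
      IntermediateField.adjoin k B)
  by_cases hc : c' = 0
  · refine ⟨∅, IntermediateField.adjoin k {z}, Set.finite_empty, by simp,
      IntermediateField.fg_adjoin_of_finite (Set.toFinite _), ?_, ?_, ?_⟩
    · exact trdeg_adjoin_le z _ (fun a ha => by
        rw [Set.mem_singleton_iff] at ha
        rw [ha]
        exact mem1 _ _ rfl)
    · have e1 : u = 4 * z ^ N := by
        rw [h, hc]; field_simp; ring
      have hz : z ∈ IntermediateField.adjoin k (∅ : Set M) ⊔ IntermediateField.adjoin k {z} :=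
        (le_sup_right : IntermediateField.adjoin k {z} ≤ _)
          (IntermediateField.subset_adjoin k _ rfl)
      rw [e1]
      refine mul_mem ?_ (pow_mem hz N)
      have := natCast_mem (IntermediateField.adjoin k (∅ : Set M) ⊔ IntermediateField.adjoin k {z}) 4
      exact_mod_cast this
    · exact (le_sup_right : IntermediateField.adjoin k {z} ≤ _)
        (IntermediateField.subset_adjoin k _ rfl)
  · obtain ⟨μ, hμ⟩ := exists_sq (1 / (4 * c'))
    have hμ0 : μ ≠ 0 := by
      rintro rfl
      have : (1 / (4 * c') : M) ≠ 0 := one_div_ne_zero (mul_ne_zero h4 hc)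
      apply this
      rw [← hμ]; ring
    obtain ⟨ρ, hρ⟩ := IsAlgClosed.exists_pow_nat_eq (μ / 4) hN
    have hρ0 : ρ ≠ 0 := by
      rintro rfl
      rw [zero_pow hN.ne'] at hρ
      exact div_ne_zero hμ0 h4 hρ.symm
    have hcl : ∀ a : M, IsAlgebraic (algebraicClosure K₀ M) a → a ∈ algebraicClosure K₀ M := by
      intro a ha
      have h5 : IsAlgebraic K₀ a := ha.restrictScalars K₀
      exact mem_algebraicClosure_iff.2 h5
    have h4E : (4 : M) ∈ algebraicClosure K₀ M := by
      have := natCast_mem (algebraicClosure K₀ M) 4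
      exact_mod_cast this
    have hroot : ∀ (a b : M) (n : ℕ), 0 < n → b ∈ algebraicClosure K₀ M → a ^ n = b →
        a ∈ algebraicClosure K₀ M := by
      intro a b n hn hb hab
      apply hcl
      refine ⟨X ^ n - C (⟨b, hb⟩ : algebraicClosure K₀ M), ?_, ?_⟩
      · exact X_pow_sub_C_ne_zero hn _
      · rw [map_sub, map_pow, aeval_X, aeval_C, hab]
        exact sub_self _
    have hμE : μ ∈ algebraicClosure K₀ M :=
      hroot μ _ 2 (by norm_num) (div_mem (one_mem _) (mul_mem h4E hc')) hμ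
    have hρE : ρ ∈ algebraicClosure K₀ M := hroot ρ _ N hN (div_mem hμE h4E) hρ
    have hμc : 4 * c' * μ ^ 2 = 1 := by
      rw [hμ]; field_simp
    -- the curve `v^N = U - U³`
    have hv : (z / ρ) ^ N = u / μ - (u / μ) ^ 3 := by
      rw [div_pow, hρ, h]
      field_simp
      linear_combination (-(u ^ 3)) * hμc
    refine ⟨{μ, ρ}, IntermediateField.adjoin k {u / μ, z / ρ}, Set.toFinite _, ?_,
      IntermediateField.fg_adjoin_of_finite (Set.toFinite _), ?_, ?_, ?_⟩
    · rintro a (rfl | rfl)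
      · exact hμE
      · exact hρE
    · refine trdeg_adjoin_le (z / ρ) _ (fun a ha => ?_)
      rcases ha with rfl | ha
      · -- `U` is algebraic over `k(v)`
        have hvK : z / ρ ∈ IntermediateField.adjoin k {z / ρ} :=
          IntermediateField.subset_adjoin k _ rfl
        refine ⟨X ^ 3 - X + C (⟨z / ρ, hvK⟩ ^ N : IntermediateField.adjoin k {z / ρ}), ?_, ?_⟩
        · intro h0
          have h5 := congrArg (fun p => coeff p 3) h0
          simp [coeff_X, coeff_X_pow, coeff_C, ← C_pow] at h5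
        · rw [map_add, map_sub, map_pow, aeval_X, aeval_C, map_pow]
          have h6 : algebraMap (IntermediateField.adjoin k {z / ρ}) M ⟨z / ρ, hvK⟩ = z / ρ := rfl
          rw [h6, hv]
          ring
      · rw [Set.mem_singleton_iff] at ha
        rw [ha]
        exact mem1 _ _ rfl
    · have h5 : u / μ ∈ IntermediateField.adjoin k {μ, ρ} ⊔ IntermediateField.adjoin k {u / μ, z / ρ} :=
        (le_sup_right : IntermediateField.adjoin k {u / μ, z / ρ} ≤ _)
          (IntermediateField.subset_adjoin k _ (by simp))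
      have h6 : μ ∈ IntermediateField.adjoin k {μ, ρ} ⊔ IntermediateField.adjoin k {u / μ, z / ρ} :=
        (le_sup_left : IntermediateField.adjoin k {μ, ρ} ≤ _)
          (IntermediateField.subset_adjoin k _ (by simp))
      have h7 := mul_mem h5 h6
      rwa [div_mul_cancel₀ _ hμ0] at h7
    · have h5 : z / ρ ∈ IntermediateField.adjoin k {μ, ρ} ⊔ IntermediateField.adjoin k {u / μ, z / ρ} :=
        (le_sup_right : IntermediateField.adjoin k {u / μ, z / ρ} ≤ _)
          (IntermediateField.subset_adjoin k _ (by simp))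
      have h6 : ρ ∈ IntermediateField.adjoin k {μ, ρ} ⊔ IntermediateField.adjoin k {u / μ, z / ρ} :=
        (le_sup_left : IntermediateField.adjoin k {μ, ρ} ≤ _)
          (IntermediateField.subset_adjoin k _ (by simp))
      have h7 := mul_mem h5 h6
      rwa [div_mul_cancel₀ _ hρ0] at h7

/-- the fields of definition -/
theorem line_abs [IsAlgClosed M] (h2 : (2 : M) ≠ 0) (T : Set M) (hTf : T.Finite)
    (hT : ∀ S : Set M, (∀ a ∈ S, IsAlgebraic (IntermediateField.adjoin k T) a) →
      Algebra.trdeg k (IntermediateField.adjoin k S) ≤ 1)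
    (F r h : M[X]) (hF : ∀ n, F.coeff n ∈ IntermediateField.adjoin k T)
    (hr : ∀ n, r.coeff n ∈ IntermediateField.adjoin k T) (hh : h.natDegree ≤ 1)
    (N : ℕ) (hN : 0 < N) (z u : M) (hz : z ≠ 0)
    (hFr : F = -(C u * h * r) + C (z ^ N - u / 4) * h ^ 3) (hF0 : F ≠ 0)
    (hnd : ∀ τ, F.eval τ = 0 → r.eval τ = 0 → (derivative r).eval τ ≠ 0)
    (hr1 : ∃ j, j ≠ 0 ∧ r.coeff j ≠ 0) :
    ∃ K₁ K₂ : IntermediateField k M, K₁.FG ∧ K₂.FG ∧ Algebra.trdeg k K₁ ≤ 1 ∧
      Algebra.trdeg k K₂ ≤ 1 ∧ IntermediateField.adjoin k T ≤ K₁ ⊔ K₂ ∧ z ∈ K₁ ⊔ K₂ ∧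
      ∀ n, h.coeff n ∈ K₁ ⊔ K₂ := by
  obtain ⟨K₀, hK₀⟩ : ∃ K₀, K₀ = IntermediateField.adjoin k T := ⟨_, rfl⟩
  have hT' : ∀ S : Set M, (∀ a ∈ S, a ∈ algebraicClosure (IntermediateField.adjoin k T) M) →
      Algebra.trdeg k (IntermediateField.adjoin k S) ≤ 1 := fun S hS =>
    hT S (fun a ha => mem_algebraicClosure_iff.1 (hS a ha))
  have hTE : ∀ a ∈ T, a ∈ algebraicClosure (IntermediateField.adjoin k T) M := fun a ha =>
    mem_alg _ a (IntermediateField.subset_adjoin k _ ha)
  by_cases hu : u = 0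
  · -- `F = z^N h³`
    obtain ⟨z', hz'⟩ := IsAlgClosed.exists_pow_nat_eq z (show 0 < 3 by norm_num)
    have hz'0 : z' ≠ 0 := by
      rintro rfl
      apply hz
      rw [← hz']; ring
    have hFr' : F = (C (z' ^ N) * h) ^ 3 := by
      rw [hFr, hu, mul_pow, ← C_pow, ← pow_mul, mul_comm N 3, pow_mul, hz']
      simp
    obtain ⟨g, hg⟩ : ∃ g, g = C (z' ^ N) * h := ⟨_, rfl⟩
    rw [← hg] at hFr'
    have hgd : g.natDegree ≤ 1 := by
      rw [hg]; exact (natDegree_C_mul_le _ _).trans hh
    have hge : g = C (g.coeff 1) * X + C (g.coeff 0) := eq_X_add_C_of_natDegree_le_one hgd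
    have e0 : g.coeff 0 ^ 3 = F.coeff 0 := by
      rw [hFr', coeff_zero_eq_eval_zero, coeff_zero_eq_eval_zero, eval_pow]
    have e3 : g.coeff 1 ^ 3 = F.coeff 3 := by
      have e6 : g ^ 3 = C (g.coeff 1 ^ 3) * X ^ 3 + C (3 * g.coeff 1 ^ 2 * g.coeff 0) * X ^ 2
          + C (3 * g.coeff 1 * g.coeff 0 ^ 2) * X + C (g.coeff 0 ^ 3) := by
        conv_lhs => rw [hge]
        simp only [C_mul, C_pow, map_ofNat]; ring
      rw [hFr', e6, cc3]
    have hroot : ∀ (a b : M), b ∈ IntermediateField.adjoin k T → a ^ 3 = b →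
        a ∈ algebraicClosure (IntermediateField.adjoin k T) M := by
      intro a b hb hab
      exact mem_algebraicClosure_iff.2 (alg_of_pow _ b a 3 (by norm_num) hab
        (isAlgebraic_algebraMap (⟨b, hb⟩ : IntermediateField.adjoin k T)))
    have hg0 := hroot _ _ (hF 0) e0
    have hg1 := hroot _ _ (hF 3) e3
    refine ⟨IntermediateField.adjoin k (T ∪ {g.coeff 0, g.coeff 1}),
      IntermediateField.adjoin k {z'}, IntermediateField.fg_adjoin_of_finite
        (hTf.union (Set.toFinite _)), IntermediateField.fg_adjoin_of_finite (Set.toFinite _),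
      ?_, ?_, ?_, ?_, ?_⟩
    · refine hT' _ ?_
      rintro a (ha | rfl | rfl)
      · exact hTE a ha
      · exact hg0
      · exact hg1
    · refine trdeg_adjoin_le z' _ (fun a ha => ?_)
      rw [Set.mem_singleton_iff] at ha
      rw [ha]
      exact isAlgebraic_algebraMap (⟨z', IntermediateField.subset_adjoin k _ rfl⟩ :
        IntermediateField.adjoin k {z'})
    · exact le_trans (IntermediateField.adjoin.mono k _ _ Set.subset_union_left) le_sup_left
    · have h5 : z' ∈ IntermediateField.adjoin k (T ∪ {g.coeff 0, g.coeff 1})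
          ⊔ IntermediateField.adjoin k {z'} :=
        (le_sup_right : IntermediateField.adjoin k {z'} ≤ _)
          (IntermediateField.subset_adjoin k _ rfl)
      rw [← hz']
      exact pow_mem h5 3
    · intro n
      have h5 : z' ∈ IntermediateField.adjoin k (T ∪ {g.coeff 0, g.coeff 1})
          ⊔ IntermediateField.adjoin k {z'} :=
        (le_sup_right : IntermediateField.adjoin k {z'} ≤ _)
          (IntermediateField.subset_adjoin k _ rfl)
      have h6 : g.coeff n ∈ IntermediateField.adjoin k (T ∪ {g.coeff 0, g.coeff 1})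
          ⊔ IntermediateField.adjoin k {z'} := by
        rcases n with _ | _ | n
        · exact (le_sup_left : IntermediateField.adjoin k (T ∪ {g.coeff 0, g.coeff 1}) ≤ _)
            (IntermediateField.subset_adjoin k _ (by simp))
        · exact (le_sup_left : IntermediateField.adjoin k (T ∪ {g.coeff 0, g.coeff 1}) ≤ _)
            (IntermediateField.subset_adjoin k _ (by simp))
        · have e1 : g.coeff (n + 1 + 1) = 0 := coeff_eq_zero_of_natDegree_lt (by omega)
          rw [e1]
          exact zero_mem _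
      have h7 : h.coeff n = g.coeff n / z' ^ N := by
        rw [hg, coeff_C_mul]
        field_simp
      rw [h7]
      exact div_mem h6 (pow_mem h5 N)
  · obtain ⟨σ, hσ⟩ : ∃ σ, σ = C u * h := ⟨_, rfl⟩
    obtain ⟨c', hc'⟩ : ∃ c', c' = (u / 4 - z ^ N) / u ^ 3 := ⟨_, rfl⟩
    have hσd : σ.natDegree ≤ 1 := by
      rw [hσ]; exact (natDegree_C_mul_le _ _).trans hh
    have hcu : c' * u ^ 3 = u / 4 - z ^ N := by
      rw [hc']; field_simp
    have hFσ : F = -(σ * r) - C c' * σ ^ 3 := by
      rw [hFr, hσ, mul_pow, ← mul_assoc (C c'), ← C_pow, ← C_mul, hcu]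
      simp only [C_sub]
      ring
    obtain ⟨hσE, hc'E⟩ := sigma_alg h2 (IntermediateField.adjoin k T) F r σ hF hr hσd hF0 c' hFσ
      hnd hr1
    obtain ⟨A, K₂, hAf, hAE, hfg, ht, huK, hzK⟩ := level_fields h2 (IntermediateField.adjoin k T)
      c' u z N hN hc'E (by rw [hcu]; ring)
    have hle : IntermediateField.adjoin k A ⊔ K₂
        ≤ IntermediateField.adjoin k (T ∪ {σ.coeff 0, σ.coeff 1} ∪ A) ⊔ K₂ :=
      sup_le_sup_right (IntermediateField.adjoin.mono k _ _ Set.subset_union_right) _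
    refine ⟨IntermediateField.adjoin k (T ∪ {σ.coeff 0, σ.coeff 1} ∪ A), K₂,
      IntermediateField.fg_adjoin_of_finite ((hTf.union (Set.toFinite _)).union hAf), hfg,
      ?_, ht, ?_, hle hzK, ?_⟩
    · refine hT' _ ?_
      rintro a ((ha | rfl | rfl) | ha)
      · exact hTE a ha
      · exact hσE 0
      · exact hσE 1
      · exact hAE a ha
    · exact le_trans (IntermediateField.adjoin.mono k _ _
        (Set.subset_union_left.trans Set.subset_union_left)) le_sup_left
    · intro n
      have h6 : σ.coeff n ∈ IntermediateField.adjoin k (T ∪ {σ.coeff 0, σ.coeff 1} ∪ A) ⊔ K₂ := by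
        rcases n with _ | _ | n
        · exact (le_sup_left : IntermediateField.adjoin k (T ∪ {σ.coeff 0, σ.coeff 1} ∪ A) ≤ _)
            (IntermediateField.subset_adjoin k _ (by simp))
        · exact (le_sup_left : IntermediateField.adjoin k (T ∪ {σ.coeff 0, σ.coeff 1} ∪ A) ≤ _)
            (IntermediateField.subset_adjoin k _ (by simp))
        · have e1 : σ.coeff (n + 1 + 1) = 0 := coeff_eq_zero_of_natDegree_lt (by omega)
          rw [e1]
          exact zero_mem _
      have h7 : h.coeff n = σ.coeff n / u := by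
        rw [hσ, coeff_C_mul]
        field_simp
      rw [h7]
      exact div_mem h6 (hle huK)

end

end Pool.Agent.TCC
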