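import Pool.Agent.TCC.Dep
import Pool.Agent.TCC.Line
import Pool.Agent.TCC.Cop
import Pool.Agent.TQU.FC

/-!
# Partners come from products of curves
-/

set_option autoImplicit false

namespace Pool.Agent.TCC

open Polynomial Pool.Agent.TQU Pool.Agent.TSF Pool.Agent.TQC

universe u

section

variable {k M : Type u} [Field k] [Field M] [Algebra k M]

/-- the bivariate polynomial -/
noncomputable def BPd (c : Cf k) : k[X][X] := DD (c.map (C.comp C)) (C X) X

theorem ev2_BPd (c : Cf k) (s b : M) :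
    ev2 s b (BPd c) = DD (c.map (algebraMap k M)) s b := by
  have h := map_DD (ev2 (k := k) s b).toRingHom
    (c.map ((C : k[X] →+* k[X][X]).comp (C : k →+* k[X]))) (C X) X
  have e0 : (c.map ((C : k[X] →+* k[X][X]).comp (C : k →+* k[X]))).map
      (ev2 (k := k) s b).toRingHom = c.map (algebraMap k M) := by
    rw [Cf.map_map]
    have e1 : ((ev2 (k := k) s b).toRingHom).comp ((C : k[X] →+* k[X][X]).comp (C : k →+* k[X]))
        = algebraMap k M := by
      ext r
      simp [ev2_apply]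
    rw [e1]
  have e2 : (ev2 (k := k) s b).toRingHom (C X) = s := by
    simp [ev2_apply]
  have e3 : (ev2 (k := k) s b).toRingHom X = b := by
    simp [ev2_apply]
  rw [e0, e2, e3] at h
  exact h

theorem depD (c : Cf k) (s b : M) (h : DD (c.map (algebraMap k M)) s b = 0)
    (hne : ∃ s' b' : M, DD (c.map (algebraMap k M)) s' b' ≠ 0) :
    IsAlgebraic k s ∨ IsAlgebraic (IntermediateField.adjoin k {s}) b := by
  by_cases hs : IsAlgebraic k s
  · exact Or.inl hs
  right
  have hs' : Transcendental k s := hs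
  let s1 : IntermediateField.adjoin k {s} := ⟨s, IntermediateField.subset_adjoin k {s} rfl⟩
  let i : k[X] →+* IntermediateField.adjoin k {s} :=
    (Polynomial.aeval (R := k) s1 : k[X] →ₐ[k] _).toRingHom
  have hi : Function.Injective i := by
    have h1 : Transcendental k s1 := by
      intro halg
      exact hs' (halg.algebraMap (A := M))
    exact transcendental_iff_injective.1 h1
  have hiM : (algebraMap (IntermediateField.adjoin k {s}) M).comp i
      = (Polynomial.aeval (R := k) s : k[X] →ₐ[k] M).toRingHom := by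
    refine Polynomial.ringHom_ext (fun a => ?_) ?_
    · simp only [i, RingHom.comp_apply, AlgHom.toRingHom_eq_coe, RingHom.coe_coe, aeval_C]
      exact (IsScalarTower.algebraMap_apply k (IntermediateField.adjoin k {s}) M a).symm
    · simp [i, s1]
  refine ⟨(BPd c).map i, ?_, ?_⟩
  · rw [Ne, Polynomial.map_eq_zero_iff hi]
    intro h0
    obtain ⟨s', b', hne'⟩ := hne
    refine hne' ?_
    rw [← ev2_BPd, h0, map_zero]
  · rw [Polynomial.aeval_def, Polynomial.eval₂_map, hiM, ← ev2_apply, ev2_BPd, h]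

theorem trdeg_pairD (c : Cf k) (s b : M) (h : DD (c.map (algebraMap k M)) s b = 0)
    (hne : ∃ s' b' : M, DD (c.map (algebraMap k M)) s' b' ≠ 0) (S : Set M)
    (hS : ∀ a ∈ S, IsAlgebraic (IntermediateField.adjoin k {s, b}) a) :
    Algebra.trdeg k (IntermediateField.adjoin k S) ≤ 1 := by
  have hpar : ∃ θ : M, IsAlgebraic (IntermediateField.adjoin k {θ}) s ∧
      IsAlgebraic (IntermediateField.adjoin k {θ}) b := by
    rcases depD c s b h hne with h1 | h1
    · exact ⟨b, h1.tower_top _, isAlgebraic_algebraMap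
        (⟨b, IntermediateField.subset_adjoin k {b} rfl⟩ : IntermediateField.adjoin k {b})⟩
    · exact ⟨s, isAlgebraic_algebraMap
        (⟨s, IntermediateField.subset_adjoin k {s} rfl⟩ : IntermediateField.adjoin k {s}), h1⟩
  obtain ⟨θ, h1, h2⟩ := hpar
  refine trdeg_adjoin_le θ S (fun a ha => ?_)
  refine alg_trans _ (IntermediateField.adjoin k {s, b}) {s, b} rfl ?_ a (hS a ha)
  rintro a (rfl | rfl)
  · exact h1
  · exact h2

/-- coefficients of a polynomial obtained over a subfield -/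
theorem ev_line_mem (K₀ : IntermediateField k M) (c : Cf k) (p0 p1 d0 d1 : M) (hp0 : p0 ∈ K₀)
    (hp1 : p1 ∈ K₀) (hd0 : d0 ∈ K₀) (hd1 : d1 ∈ K₀) (n : ℕ) :
    (((c.map (algebraMap k M)).map C).ev (C p0 + X * C d0) (C p1 + X * C d1)).coeff n ∈ K₀ := by
  have h := map_ev (mapRingHom (algebraMap K₀ M)) ((c.map (algebraMap k K₀)).map C)
    (C ⟨p0, hp0⟩ + X * C ⟨d0, hd0⟩) (C ⟨p1, hp1⟩ + X * C ⟨d1, hd1⟩)
  have e0 : ((c.map (algebraMap k K₀)).map C).map (mapRingHom (algebraMap K₀ M))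
      = (c.map (algebraMap k M)).map C := by
    rw [Cf.map_map, Cf.map_map, Cf.map_map]
    congr 1
    ext r
    simp only [RingHom.comp_apply, coe_mapRingHom, map_C]
    rfl
  have e1 : ∀ (x y : M) (hx : x ∈ K₀) (hy : y ∈ K₀), mapRingHom (algebraMap K₀ M)
      (C ⟨x, hx⟩ + X * C ⟨y, hy⟩) = C x + X * C y := by
    intro x y hx hy
    simp
  rw [e0, e1, e1] at h
  rw [← h, coe_mapRingHom, coeff_map]
  exact SetLike.coe_mem _

theorem fc_line [IsAlgClosed M] (h2 : (2 : M) ≠ 0) (c : Cf k) (T : Set M) (hTf : T.Finite)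
    (hT : ∀ S : Set M, (∀ a ∈ S, IsAlgebraic (IntermediateField.adjoin k T) a) →
      Algebra.trdeg k (IntermediateField.adjoin k S) ≤ 1)
    (p0 p1 d0 d1 : M) (hp0 : p0 ∈ IntermediateField.adjoin k T)
    (hp1 : p1 ∈ IntermediateField.adjoin k T) (hd0 : d0 ∈ IntermediateField.adjoin k T)
    (hd1 : d1 ∈ IntermediateField.adjoin k T) (N : ℕ) (hN : 0 < N) (z : M) (hz : z ≠ 0)
    (F r h : M[X]) (hh : h.natDegree ≤ 1) (u κ x x' : M) (hκ : κ ≠ 0)
    (hF : F = ((c.map (algebraMap k M)).map C).ev (C p0 + X * C d0) (C p1 + X * C d1))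
    (hr : r = (C p1 + X * C d1) - C (1 / 4) * (C p0 + X * C d0) ^ 2)
    (e1 : F = -(C u * h * r) + C (z ^ N - u / 4) * h ^ 3)
    (e2 : r + C (1 / 4) * h ^ 2 = C κ * ((X - C x) * (C x' - X))) (hx : h.eval x ≠ 0)
    (hnd : ∀ τ, F.eval τ = 0 → r.eval τ = 0 → (derivative r).eval τ ≠ 0)
    (hr1 : ∃ j, j ≠ 0 ∧ r.coeff j ≠ 0) :
    FromCurves k z
      (fun i => (![(p0 + h.coeff 0) / 2, (p0 - h.coeff 0) / 2] : Fin 2 → M) i
        + x * (![(d0 + h.coeff 1) / 2, (d0 - h.coeff 1) / 2] : Fin 2 → M) i)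
      (fun i => (![(p0 + h.coeff 0) / 2, (p0 - h.coeff 0) / 2] : Fin 2 → M) i
        + x' * (![(d0 + h.coeff 1) / 2, (d0 - h.coeff 1) / 2] : Fin 2 → M) i) := by
  have h4 : (4 : M) ≠ 0 := by
    have : (4 : M) = 2 * 2 := by norm_num
    rw [this]; exact mul_ne_zero h2 h2
  have hrx : r.eval x = -(1 / 4 * h.eval x ^ 2) := by
    have h5 := congrArg (fun p => eval x p) e2
    simp only [eval_add, eval_mul, eval_C, eval_pow, eval_sub, eval_X, sub_self, zero_mul,
      mul_zero] at h5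
    linear_combination h5
  have hFx : F.eval x = z ^ N * h.eval x ^ 3 := by
    rw [e1]
    simp only [eval_add, eval_neg, eval_mul, eval_C, eval_pow, hrx]
    field_simp
    ring
  have hF0 : F ≠ 0 := by
    intro h0
    rw [h0, eval_zero] at hFx
    exact mul_ne_zero (pow_ne_zero N hz) (pow_ne_zero 3 hx) hFx.symm
  have hFm : ∀ n, F.coeff n ∈ IntermediateField.adjoin k T := fun n => by
    rw [hF]; exact ev_line_mem _ c p0 p1 d0 d1 hp0 hp1 hd0 hd1 n
  have h4m : (1 / 4 : M) ∈ IntermediateField.adjoin k T := by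
    refine div_mem (one_mem _) ?_
    have := natCast_mem (IntermediateField.adjoin k T) 4
    exact_mod_cast this
  have hrm : ∀ n, r.coeff n ∈ IntermediateField.adjoin k T := by
    intro n
    have e3 : r = C (p1 - 1 / 4 * p0 ^ 2) + C (d1 - 1 / 4 * (2 * p0 * d0)) * X
        + C (-(1 / 4 * d0 ^ 2)) * X ^ 2 := by
      rw [hr]
      simp only [C_sub, C_neg, C_mul, C_pow, map_ofNat]
      ring
    obtain ⟨k0, k1, k2⟩ := coeffs3 _ _ _ r e3
    have h2m : (2 : M) ∈ IntermediateField.adjoin k T := by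
      have := natCast_mem (IntermediateField.adjoin k T) 2
      exact_mod_cast this
    rcases n with _ | _ | _ | n
    · rw [k0]; exact sub_mem hp1 (mul_mem h4m (pow_mem hp0 2))
    · rw [zero_add, k1]; exact sub_mem hd1 (mul_mem h4m (mul_mem (mul_mem h2m hp0) hd0))
    · rw [zero_add, k2]; exact neg_mem (mul_mem h4m (pow_mem hd0 2))
    · have hdeg : r.natDegree ≤ 2 := by
        rw [e3]; compute_degree
      have e5 : r.coeff (n + 1 + 1 + 1) = 0 := coeff_eq_zero_of_natDegree_lt (by omega)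
      rw [e5]
      exact zero_mem _
  obtain ⟨K₁, K₂, hfg1, hfg2, ht1, ht2, hle, hzK, hhK⟩ := line_abs h2 T hTf hT F r h hFm hrm hh N
    hN z u hz e1 hF0 hnd hr1
  have h2K : (2 : M) ∈ K₁ ⊔ K₂ := by
    have := natCast_mem (K₁ ⊔ K₂) 2
    exact_mod_cast this
  have hlK : ∀ n, (r + C (1 / 4) * h ^ 2).coeff n ∈ K₁ ⊔ K₂ := by
    intro n
    rw [coeff_add, coeff_C_mul, pow_two, coeff_mul]
    exact add_mem (hle (hrm n)) (mul_mem (hle h4m)
      (sum_mem (fun x _ => mul_mem (hhK _) (hhK _))))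
  have e6 : r + C (1 / 4) * h ^ 2 = C (-(κ * (x * x'))) + C (κ * (x + x')) * X
      + C (-κ) * X ^ 2 := by
    rw [e2]
    simp only [C_neg, C_mul, C_add]
    ring
  obtain ⟨k0, k1, k2⟩ := coeffs3 _ _ _ _ e6
  have hκK : κ ∈ K₁ ⊔ K₂ := by
    have h5 := neg_mem (hlK 2)
    rwa [k2, neg_neg] at h5
  refine from_sym K₁ K₂ hfg1 hfg2 ht1 ht2 z hzK _ _ ?_ ?_ x x' ?_ ?_
  · intro i
    fin_cases i
    · exact div_mem (add_mem (hle hp0) (hhK 0)) h2K
    · exact div_mem (sub_mem (hle hp0) (hhK 0)) h2K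
  · intro i
    fin_cases i
    · exact div_mem (add_mem (hle hd0) (hhK 1)) h2K
    · exact div_mem (sub_mem (hle hd0) (hhK 1)) h2K
  · have h5 := div_mem (hlK 1) hκK
    rw [k1] at h5
    rwa [mul_div_cancel_left₀ _ hκ] at h5
  · have h5 := neg_mem (div_mem (hlK 0) hκK)
    rw [k0] at h5
    have e7 : -(-(κ * (x * x')) / κ) = x * x' := by field_simp
    rwa [e7] at h5

end

end Pool.Agent.TCC
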