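import Pool.Agent.TCC.FC

/-!
# Partners come from products of curves, continued
-/

set_option autoImplicit false

namespace Pool.Agent.TCC

open Polynomial Pool.Agent.TQU Pool.Agent.TSF Pool.Agent.TQC

universe u

section

variable {M : Type*} [Field M]

/-- the restriction to the line through the base point in 3-space -/
theorem line_id {A : Type*} [CommRing A] (φ : M →+* A) (c : Cf M) (e a0 b0 ξ η θ ρ ν : M)
    (hP : gg c e a0 b0 = 0)
    (h1 : A1 c e a0 b0 ξ η θ = ν * ρ * (a0 - b0))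
    (h2 : A2 c e a0 b0 ξ η θ = ν * (ρ * θ - (a0 - b0))) (h3 : A3 c e ξ η θ = -(ν * θ)) (τ : A) :
    (c.map φ).ev (φ (a0 + b0) + τ * φ ξ) (φ (a0 * b0) + τ * φ η)
      = φ e * (φ (a0 - b0) + τ * φ θ) ^ 3
        + φ ν * (τ * (φ ρ - τ)) * (φ (a0 - b0) + τ * φ θ) := by
  have k0 : c.ev (a0 + b0) (a0 * b0) = e * (a0 - b0) ^ 3 := by
    simp only [gg] at hP
    linear_combination hP
  have k1 : c.T1 (a0 + b0) (a0 * b0) ξ η = ν * ρ * (a0 - b0) + 3 * e * (a0 - b0) ^ 2 * θ := by
    simp only [A1] at h1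
    linear_combination h1
  have k2 : c.T2 (a0 + b0) (a0 * b0) ξ η = ν * (ρ * θ - (a0 - b0))
      + 3 * e * (a0 - b0) * θ ^ 2 := by
    simp only [A2] at h2
    linear_combination h2
  have k3 : c.T3 ξ η = -(ν * θ) + e * θ ^ 3 := by
    simp only [A3] at h3
    linear_combination h3
  have m0 : (c.map φ).ev (φ (a0 + b0)) (φ (a0 * b0)) = φ (e * (a0 - b0) ^ 3) := by
    rw [← map_ev, k0]
  have m1 : (c.map φ).T1 (φ (a0 + b0)) (φ (a0 * b0)) (φ ξ) (φ η)
      = φ (ν * ρ * (a0 - b0) + 3 * e * (a0 - b0) ^ 2 * θ) := by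
    rw [← k1]
    simp only [Cf.T1, Cf.fx, Cf.fy, Cf.map, map_add, map_mul, map_pow, map_ofNat]
  have m2 : (c.map φ).T2 (φ (a0 + b0)) (φ (a0 * b0)) (φ ξ) (φ η)
      = φ (ν * (ρ * θ - (a0 - b0)) + 3 * e * (a0 - b0) * θ ^ 2) := by
    rw [← k2]
    simp only [Cf.T2, Cf.fxx, Cf.fxy, Cf.fyy, Cf.map, map_add, map_mul, map_pow, map_ofNat]
  have m3 : (c.map φ).T3 (φ ξ) (φ η) = φ (-(ν * θ) + e * θ ^ 3) := by
    rw [← k3]
    simp only [Cf.T3, Cf.map, map_add, map_mul, map_pow]
  rw [Cf.taylor, m0, m1, m2, m3]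
  simp only [map_add, map_sub, map_mul, map_pow, map_ofNat, map_neg]
  ring

end

section

variable {k M : Type u} [Field k] [Field M] [Algebra k M]

/-- points on the conic -/
theorem diag_ne (c : Cf k) (h03 : c.c03 ≠ 0) (a : M) (ha : Transcendental k a) :
    (c.map (algebraMap k M)).ev (2 * a) (a ^ 2) ≠ 0 := by
  intro h
  have h1 : aeval a (EP c) = 0 := by
    have h2 := map_ev (aeval (R := k) a).toRingHom (c.map C) (2 * X) (X ^ 2)
    have e0 : (c.map (C : k →+* k[X])).map (aeval (R := k) a).toRingHom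
        = c.map (algebraMap k M) := by
      rw [Cf.map_map]
      congr 1
      ext r
      simp
    have e1 : (aeval (R := k) a).toRingHom (2 * X) = 2 * a := by
      rw [map_mul, map_ofNat]
      congr 1
      exact aeval_X a
    have e2 : (aeval (R := k) a).toRingHom (X ^ 2 : k[X]) = a ^ 2 := by simp
    rw [e0, e1, e2, h] at h2
    exact h2
  exact ha ⟨EP c, EP_ne c h03, h1⟩

theorem line_comp (x ξ : M) (hξ : ξ ≠ 0) :
    (C x : M[X]) + (C ξ⁻¹ * (X - C x)) * C ξ = X := by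
  have h : (C ξ⁻¹ : M[X]) * C ξ = 1 := by rw [← C_mul, inv_mul_cancel₀ hξ, C_1]
  linear_combination (X - C x) * h

theorem fromCurves [IsAlgClosed M] (h2 : (2 : M) ≠ 0) (c : Cf k) (h03 : c.c03 ≠ 0)
    (a0 b0 : M) (hP : AlgebraicIndependent k ![a0, b0]) (N : ℕ) (hN : 0 < N) (z : M)
    (hz : z ≠ 0) (hg : gg (c.map (algebraMap k M)) (z ^ N) a0 b0 = 0) (h0 : a0 - b0 ≠ 0)
    (hne : ∃ s' b' : M, DD (c.map (algebraMap k M)) s' b' ≠ 0) (Q : Fin 2 → M)
    (hs : SymP (c.map (algebraMap k M)) (z ^ N) a0 b0 Q) : FromCurves k z ![a0, b0] Q := by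
  obtain ⟨δ0, δ1, ρ, ν, hδ, hQ0, hQ1, k1, k2, k3⟩ := hs
  have h4 : (4 : M) ≠ 0 := by
    have : (4 : M) = 2 * 2 := by norm_num
    rw [this]; exact mul_ne_zero h2 h2
  have ta : Transcendental k a0 := hP.transcendental 0
  have tb : Transcendental k b0 := hP.transcendental 1
  obtain ⟨C', hC'⟩ : ∃ C', C' = c.map (algebraMap k M) := ⟨_, rfl⟩
  rw [← hC'] at k1 k2 k3 hg
  obtain ⟨ξ, hξd⟩ : ∃ ξ, ξ = δ0 + δ1 := ⟨_, rfl⟩
  obtain ⟨η, hηd⟩ : ∃ η, η = b0 * δ0 + a0 * δ1 + ρ * (δ0 * δ1) := ⟨_, rfl⟩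
  obtain ⟨θ, hθd⟩ : ∃ θ, θ = δ0 - δ1 := ⟨_, rfl⟩
  rw [← hξd, ← hηd, ← hθd] at k1 k2 k3
  -- the line is not a line of the conic
  have hδ0 : δ0 ≠ 0 := by
    intro hd
    have hd1 : δ1 ≠ 0 := hδ.resolve_left (fun h => h hd)
    have h5 := line_id (RingHom.id M) C' (z ^ N) a0 b0 ξ η θ ρ ν hg k1 k2 k3 ((a0 - b0) / δ1)
    simp only [RingHom.id_apply] at h5
    have e1 : (a0 + b0) + (a0 - b0) / δ1 * ξ = 2 * a0 := by
      rw [hξd, hd]; field_simp; ring
    have e2 : a0 * b0 + (a0 - b0) / δ1 * η = a0 ^ 2 := by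
      rw [hηd, hd]; field_simp; ring
    have e3 : (a0 - b0) + (a0 - b0) / δ1 * θ = 0 := by
      rw [hθd, hd]; field_simp; ring
    have e4 : C'.map (RingHom.id M) = C' := rfl
    rw [e1, e2, e3, e4] at h5
    refine diag_ne c h03 a0 ta ?_
    rw [← hC', h5]
    ring
  have hδ1 : δ1 ≠ 0 := by
    intro hd
    have h5 := line_id (RingHom.id M) C' (z ^ N) a0 b0 ξ η θ ρ ν hg k1 k2 k3 (-(a0 - b0) / δ0)
    simp only [RingHom.id_apply] at h5
    have e1 : (a0 + b0) + -(a0 - b0) / δ0 * ξ = 2 * b0 := by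
      rw [hξd, hd]; field_simp; ring
    have e2 : a0 * b0 + -(a0 - b0) / δ0 * η = b0 ^ 2 := by
      rw [hηd, hd]; field_simp; ring
    have e3 : (a0 - b0) + -(a0 - b0) / δ0 * θ = 0 := by
      rw [hθd, hd]; field_simp; ring
    have e4 : C'.map (RingHom.id M) = C' := rfl
    rw [e1, e2, e3, e4] at h5
    refine diag_ne c h03 b0 tb ?_
    rw [← hC', h5]
    ring
  have hδδ : δ0 * δ1 ≠ 0 := mul_ne_zero hδ0 hδ1
  obtain ⟨u, hu⟩ : ∃ u, u = -(ν / (δ0 * δ1)) := ⟨_, rfl⟩
  have hν : ν = -(u * (δ0 * δ1)) := by rw [hu]; field_simp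
  -- the two identities in a parameter `τ`
  have id1 := line_id (C : M →+* M[X]) C' (z ^ N) a0 b0 ξ η θ ρ ν hg k1 k2 k3
  have id2 : ∀ τ : M[X], (C (a0 * b0) + τ * C η) - C (1 / 4) * (C (a0 + b0) + τ * C ξ) ^ 2
      + C (1 / 4) * (C (a0 - b0) + τ * C θ) ^ 2 = C (δ0 * δ1) * (τ * (C ρ - τ)) := by
    intro τ
    have e5 : (C (1 / 4) * 4 : M[X]) = 1 := by
      have : (4 : M[X]) = C 4 := by rw [map_ofNat]
      rw [this, ← C_mul]
      have e6 : (1 / 4 * 4 : M) = 1 := by field_simp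
      rw [e6, C_1]
    rw [hξd, hηd, hθd]
    simp only [C_add, C_sub, C_mul]
    linear_combination (-(C a0 + τ * C δ0) * (C b0 + τ * C δ1)) * e5
  have id3 : ∀ τ : M[X], (C'.map C).ev (C (a0 + b0) + τ * C ξ) (C (a0 * b0) + τ * C η)
      = -(C u * (C (a0 - b0) + τ * C θ) * ((C (a0 * b0) + τ * C η)
          - C (1 / 4) * (C (a0 + b0) + τ * C ξ) ^ 2))
        + C (z ^ N - u / 4) * (C (a0 - b0) + τ * C θ) ^ 3 := by
    intro τ
    have h5 := id1 τ
    have h6 := id2 τ
    rw [h5]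
    have e5 : (C ν : M[X]) = -(C u * C (δ0 * δ1)) := by rw [hν, C_neg, C_mul]
    have e6 : (C (z ^ N - u / 4) : M[X]) = C (z ^ N) - C u * C (1 / 4) := by
      rw [← C_mul, ← C_sub]; congr 1; ring
    rw [e5, e6]
    linear_combination (C u * (C (a0 - b0) + τ * C θ)) * h6
  by_cases hξ : ξ = 0
  · -- vertical line
    have hη : η ≠ 0 := by
      intro hη0
      have hd : δ1 = -δ0 := by rw [hξd] at hξ; linear_combination hξ
      have hθ0 : θ ≠ 0 := by
        rw [hθd, hd]
        intro h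
        exact mul_ne_zero h2 hδ0 (by linear_combination h)
      rw [hξ, hη0] at k1 k2 k3
      have e1 : ν * θ = z ^ N * θ ^ 3 := by
        simp only [A3, Cf.T3] at k3
        linear_combination k3
      have e2 : ν = z ^ N * θ ^ 2 := by
        apply mul_right_cancel₀ hθ0
        rw [e1]; ring
      simp only [A1, Cf.T1] at k1
      simp only [A2, Cf.T2] at k2
      have hz' : z ^ N ≠ 0 := pow_ne_zero N hz
      have e3 : z ^ N * θ ^ 2 * (ρ * θ + 2 * (a0 - b0)) = 0 := by
        rw [e2] at k2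
        linear_combination -k2
      have e4 : ρ * θ + 2 * (a0 - b0) = 0 :=
        (mul_eq_zero.1 e3).resolve_left (mul_ne_zero hz' (pow_ne_zero 2 hθ0))
      have e5 : z ^ N * (a0 - b0) ^ 2 * θ = 0 := by
        rw [e2] at k1
        linear_combination -k1 - z ^ N * θ * (a0 - b0) * e4
      exact mul_ne_zero (mul_ne_zero hz' (pow_ne_zero 2 h0)) hθ0 e5
    obtain ⟨τ, hτ⟩ : ∃ τ : M[X], τ = C η⁻¹ * (X - C (a0 * b0)) := ⟨_, rfl⟩
    have ex : (C (a0 + b0) + τ * C ξ : M[X]) = C (a0 + b0) + X * C 0 := by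
      rw [hξ]; simp
    have ey : (C (a0 * b0) + τ * C η : M[X]) = C 0 + X * C 1 := by
      rw [hτ, line_comp _ _ hη]; simp
    obtain ⟨h, hh⟩ : ∃ h : M[X], h = C (a0 - b0) + τ * C θ := ⟨_, rfl⟩
    have hhe : h = C (a0 - b0 - θ / η * (a0 * b0)) + C (θ / η) * X := by
      rw [hh, hτ, div_eq_mul_inv]
      simp only [C_sub, C_mul]
      ring
    have hc0 : h.coeff 0 = a0 - b0 - θ / η * (a0 * b0) := by
      rw [hhe]; simp
    have hc1 : h.coeff 1 = θ / η := by
      rw [hhe]; simp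
    have g1 := id3 τ
    have g2 := id2 τ
    rw [ex, ey, ← hh] at g1 g2
    obtain ⟨F, hF⟩ : ∃ F : M[X], F = (C'.map C).ev (C (a0 + b0) + X * C 0) (C 0 + X * C 1) :=
      ⟨_, rfl⟩
    obtain ⟨r, hr⟩ : ∃ r : M[X], r = (C 0 + X * C 1) - C (1 / 4) * (C (a0 + b0) + X * C 0) ^ 2 :=
      ⟨_, rfl⟩
    rw [← hF, ← hr] at g1
    rw [← hr] at g2
    have hre : r = X - C (1 / 4 * (a0 + b0) ^ 2) := by
      rw [hr]
      simp only [C_0, C_1, C_mul, C_pow, mul_zero, add_zero, mul_one, zero_add]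
    have hrd : derivative r = 1 := by
      rw [hre, derivative_sub, derivative_X, derivative_C, sub_zero]
    have hκ : δ0 * δ1 / η ^ 2 ≠ 0 := div_ne_zero hδδ (pow_ne_zero 2 hη)
    have g2' : r + C (1 / 4) * h ^ 2 = C (δ0 * δ1 / η ^ 2)
        * ((X - C (a0 * b0)) * (C (a0 * b0 + ρ * η) - X)) := by
      rw [g2, hτ]
      have e5 : (C η⁻¹ * C η : M[X]) = 1 := by rw [← C_mul, inv_mul_cancel₀ hη, C_1]
      have e6 : (C (δ0 * δ1 / η ^ 2) : M[X]) = C (δ0 * δ1) * (C η⁻¹) ^ 2 := by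
        rw [← C_pow, ← C_mul]; congr 1; field_simp
      rw [e6]
      simp only [C_add, C_mul]
      linear_combination (-(C δ0 * C δ1 * C η⁻¹ * C ρ * (X - C a0 * C b0))) * e5
    have hfin := fc_line h2 c {a0 + b0} (Set.toFinite _)
      (fun S hS => trdeg_adjoin_le (a0 + b0) S hS) (a0 + b0) 0 0 1
      (IntermediateField.subset_adjoin k _ rfl) (zero_mem _) (zero_mem _) (one_mem _) N hN z hz
      F r h (by rw [hhe]; compute_degree) u (δ0 * δ1 / η ^ 2) (a0 * b0) (a0 * b0 + ρ * η) hκ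
      (by rw [hF, hC']) hr g1 g2' (by
        rw [hhe]
        simp only [eval_add, eval_mul, eval_C, eval_X]
        have : a0 - b0 - θ / η * (a0 * b0) + θ / η * (a0 * b0) = a0 - b0 := by ring
        rw [this]; exact h0)
      (fun τ _ _ => by rw [hrd]; simp)
      ⟨1, one_ne_zero, by
        rw [hre, coeff_sub, coeff_X_one, coeff_C, if_neg one_ne_zero, sub_zero]
        exact one_ne_zero⟩
    rw [hc0, hc1] at hfin
    have e7 : (fun i => (![(a0 + b0 + (a0 - b0 - θ / η * (a0 * b0))) / 2,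
        (a0 + b0 - (a0 - b0 - θ / η * (a0 * b0))) / 2] : Fin 2 → M) i
        + a0 * b0 * (![(0 + θ / η) / 2, (0 - θ / η) / 2] : Fin 2 → M) i) = ![a0, b0] := by
      funext i
      fin_cases i
      · simp only [Fin.zero_eta, Matrix.cons_val_zero]
        field_simp
        ring
      · simp only [Fin.mk_one, Matrix.cons_val_one, Matrix.cons_val_fin_one]
        field_simp
        ring
    have e8 : (fun i => (![(a0 + b0 + (a0 - b0 - θ / η * (a0 * b0))) / 2,
        (a0 + b0 - (a0 - b0 - θ / η * (a0 * b0))) / 2] : Fin 2 → M) i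
        + (a0 * b0 + ρ * η) * (![(0 + θ / η) / 2, (0 - θ / η) / 2] : Fin 2 → M) i) = Q := by
      have hs0 : θ = 2 * δ0 := by
        rw [hθd]; rw [hξd] at hξ; linear_combination -hξ
      have hs1 : θ = -(2 * δ1) := by
        rw [hθd]; rw [hξd] at hξ; linear_combination hξ
      funext i
      fin_cases i
      · simp only [Fin.zero_eta, Matrix.cons_val_zero]
        rw [hQ0]
        field_simp
        linear_combination (ρ * η) * hs0
      · simp only [Fin.mk_one, Matrix.cons_val_one, Matrix.cons_val_fin_one]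
        rw [hQ1]
        field_simp
        linear_combination (-(ρ * η)) * hs1
    rwa [e7, e8] at hfin
  · obtain ⟨s, hsd⟩ : ∃ s, s = η / ξ := ⟨_, rfl⟩
    obtain ⟨β, hβ⟩ : ∃ β, β = a0 * b0 - s * (a0 + b0) := ⟨_, rfl⟩
    have hηs : η = s * ξ := by rw [hsd]; field_simp
    obtain ⟨τ, hτ⟩ : ∃ τ : M[X], τ = C ξ⁻¹ * (X - C (a0 + b0)) := ⟨_, rfl⟩
    have hlc := line_comp (a0 + b0) ξ hξ
    rw [← hτ] at hlc
    have ex : (C (a0 + b0) + τ * C ξ : M[X]) = C 0 + X * C 1 := by
      rw [hlc]; simp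
    have ey : (C (a0 * b0) + τ * C η : M[X]) = C β + X * C s := by
      rw [hηs, hβ]
      simp only [C_sub, C_mul]
      linear_combination (C s) * hlc
    obtain ⟨h, hh⟩ : ∃ h : M[X], h = C (a0 - b0) + τ * C θ := ⟨_, rfl⟩
    have hhe : h = C (a0 - b0 - θ / ξ * (a0 + b0)) + C (θ / ξ) * X := by
      rw [hh, hτ, div_eq_mul_inv]
      simp only [C_sub, C_mul]
      ring
    obtain ⟨h00, hh0⟩ : ∃ y, y = a0 - b0 - θ / ξ * (a0 + b0) := ⟨_, rfl⟩
    obtain ⟨h11, hh1⟩ : ∃ y, y = θ / ξ := ⟨_, rfl⟩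
    rw [← hh0, ← hh1] at hhe
    have hc0 : h.coeff 0 = h00 := by
      rw [hhe]; simp
    have hc1 : h.coeff 1 = h11 := by
      rw [hhe]; simp
    have g1 := id3 τ
    have g2 := id2 τ
    rw [ex, ey, ← hh] at g1 g2
    obtain ⟨F, hF⟩ : ∃ F : M[X], F = (C'.map C).ev (C 0 + X * C 1) (C β + X * C s) :=
      ⟨_, rfl⟩
    obtain ⟨r, hr⟩ : ∃ r : M[X], r = (C β + X * C s) - C (1 / 4) * (C 0 + X * C 1) ^ 2 :=
      ⟨_, rfl⟩
    rw [← hF, ← hr] at g1
    rw [← hr] at g2
    have hre : r = C β + C s * X + C (-(1 / 4)) * X ^ 2 := by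
      rw [hr]
      simp only [C_0, C_1, C_neg, mul_one, zero_add]
      ring
    have hκ : δ0 * δ1 / ξ ^ 2 ≠ 0 := div_ne_zero hδδ (pow_ne_zero 2 hξ)
    have g2' : r + C (1 / 4) * h ^ 2 = C (δ0 * δ1 / ξ ^ 2)
        * ((X - C (a0 + b0)) * (C (a0 + b0 + ρ * ξ) - X)) := by
      rw [g2, hτ]
      have e5 : (C ξ⁻¹ * C ξ : M[X]) = 1 := by rw [← C_mul, inv_mul_cancel₀ hξ, C_1]
      have e6 : (C (δ0 * δ1 / ξ ^ 2) : M[X]) = C (δ0 * δ1) * (C ξ⁻¹) ^ 2 := by
        rw [← C_pow, ← C_mul]; congr 1; field_simp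
      rw [e6]
      simp only [C_add, C_mul]
      linear_combination (-(C δ0 * C δ1 * C ξ⁻¹ * C ρ * (X - (C a0 + C b0)))) * e5
    -- the line is special
    have hDD : DD C' s β = 0 := by
      have hFe : F = C (C'.ev 0 β) + C (C'.T1 0 β 1 s) * X + C (C'.T2 0 β 1 s) * X ^ 2
          + C (C'.T3 1 s) * X ^ 3 := by
        rw [hF, Cf.taylor]
        simp only [Cf.ev, Cf.T1, Cf.T2, Cf.T3, Cf.fx, Cf.fy, Cf.fxx, Cf.fxy, Cf.fyy, Cf.map,
          C_add, C_mul, C_pow, C_0, C_1, map_ofNat]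
        ring
      have hFr : F = C (-(u / 4) * (h00 * (4 * β)) + (z ^ N - u / 4) * h00 ^ 3)
          + C (-(u / 4) * (h00 * (4 * s) + h11 * (4 * β))
            + 3 * (z ^ N - u / 4) * h00 ^ 2 * h11) * X
          + C (-(u / 4) * (h00 * (-1) + h11 * (4 * s))
            + 3 * (z ^ N - u / 4) * h00 * h11 ^ 2) * X ^ 2
          + C (-(u / 4) * (h11 * (-1)) + (z ^ N - u / 4) * h11 ^ 3) * X ^ 3 := by
        have e5 : (C (u / 4) : M[X]) * 4 = C u := by
          have : (4 : M[X]) = C 4 := by rw [map_ofNat]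
          rw [this, ← C_mul]
          congr 1
          field_simp
        have e6 : (C (1 / 4) : M[X]) * 4 = 1 := by
          have : (4 : M[X]) = C 4 := by rw [map_ofNat]
          rw [this, ← C_mul]
          have e6 : (1 / 4 * 4 : M) = 1 := by field_simp
          rw [e6, C_1]
        rw [g1, hhe, hre]
        simp only [C_add, C_sub, C_mul, C_pow, C_neg, C_1, map_ofNat]
        have e7 : (C u : M[X]) * C (1 / 4) = C (u / 4) := by
          rw [← C_mul]; congr 1; ring
        linear_combination ((C h00 + C h11 * X) * (C β + C s * X)) * e5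
          + ((C h00 + C h11 * X) * X ^ 2) * e7
      have key : ∀ (x0 x1 x2 x3 : M) (g : M[X]), g = C x0 + C x1 * X + C x2 * X ^ 2 + C x3 * X ^ 3 →
          g.coeff 0 = x0 ∧ g.coeff 1 = x1 ∧ g.coeff 2 = x2 ∧ g.coeff 3 = x3 := by
        intro x0 x1 x2 x3 g hg'
        subst hg'
        refine ⟨?_, ?_, ?_, ?_⟩ <;> simp [coeff_X, coeff_X_pow, coeff_C]
      obtain ⟨a1, a2, a3, a4⟩ := key _ _ _ _ F hFe
      obtain ⟨b1, b2, b3, b4⟩ := key _ _ _ _ F hFr
      rw [DD, ← a1, ← a2, ← a3, ← a4, b1, b2, b3, b4, j3_form]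
    have hsmem : s ∈ IntermediateField.adjoin k {s, β} :=
      IntermediateField.subset_adjoin k _ (by simp)
    have hβmem : β ∈ IntermediateField.adjoin k {s, β} :=
      IntermediateField.subset_adjoin k _ (by simp)
    have hfin := fc_line h2 c {s, β} (Set.toFinite _)
      (fun S hS => trdeg_pairD c s β (by rw [← hC']; exact hDD) hne S hS) 0 β 1 s
      (zero_mem _) hβmem (one_mem _) hsmem N hN z hz
      F r h (by rw [hhe]; compute_degree) u (δ0 * δ1 / ξ ^ 2) (a0 + b0) (a0 + b0 + ρ * ξ) hκ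
      (by rw [hF, hC']) hr g1 g2' (by
        rw [hhe]
        simp only [eval_add, eval_mul, eval_C, eval_X]
        rw [hh0, hh1]
        have : a0 - b0 - θ / ξ * (a0 + b0) + θ / ξ * (a0 + b0) = a0 - b0 := by ring
        rw [this]; exact h0)
      (by
        intro t hFt hrt hrt'
        have e5 : (derivative r).eval t = s - 1 / 4 * (2 * t) := by
          rw [hre]
          simp only [derivative_add, derivative_mul, derivative_C, derivative_X,
            derivative_X_pow, zero_mul, zero_add, mul_one, eval_add, eval_mul, eval_C, eval_X,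
            eval_pow, Nat.cast_ofNat, Nat.add_one_sub_one, pow_one, eval_ofNat]
          ring
        rw [e5] at hrt'
        have ht : t = 2 * s := by
          field_simp at hrt'
          have h8 : 2 * (t - 2 * s) = 0 := by linear_combination -hrt'
          have h9 := (mul_eq_zero.1 h8).resolve_left h2
          linear_combination h9
        have hre' : r.eval t = β + s * t - 1 / 4 * t ^ 2 := by
          rw [hre]
          simp only [eval_add, eval_mul, eval_C, eval_X, eval_pow]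
          ring
        rw [hre', ht] at hrt
        have hβs : β + s ^ 2 = 0 := by
          have : β + s * (2 * s) - 1 / 4 * (2 * s) ^ 2 = β + s ^ 2 := by field_simp; ring
          rw [← this]; exact hrt
        have hFt' : C'.ev (2 * s) (s ^ 2) = 0 := by
          have h8 := map_ev (evalRingHom t) (C'.map C) (C 0 + X * C 1) (C β + X * C s)
          have e9 : (C'.map (C : M →+* M[X])).map (evalRingHom t) = C' := by
            rw [Cf.map_map]
            have : (evalRingHom t).comp (C : M →+* M[X]) = RingHom.id M := by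
              ext x; simp
            rw [this]
            rfl
          rw [← hF, e9, coe_evalRingHom, hFt] at h8
          simp only [eval_add, eval_mul, eval_C, eval_X] at h8
          have e10 : (0 : M) + t * 1 = 2 * s := by rw [ht]; ring
          have e11 : β + t * s = s ^ 2 := by rw [ht]; linear_combination hβs
          rw [e10, e11] at h8
          exact h8.symm
        have hss : (s - a0) * (s - b0) = 0 := by
          rw [hβ] at hβs
          linear_combination hβs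
        rcases mul_eq_zero.1 hss with h10 | h10
        · have h11 : s = a0 := sub_eq_zero.1 h10
          rw [h11, hC'] at hFt'
          exact diag_ne c h03 a0 ta hFt'
        · have h11 : s = b0 := sub_eq_zero.1 h10
          rw [h11, hC'] at hFt'
          exact diag_ne c h03 b0 tb hFt')
      ⟨2, two_ne_zero, by
        rw [hre, cq]
        exact neg_ne_zero.2 (one_div_ne_zero h4)⟩
    rw [hc0, hc1] at hfin
    have e7 : (fun i => (![(0 + h00) / 2, (0 - h00) / 2] : Fin 2 → M) i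
        + (a0 + b0) * (![(1 + h11) / 2, (1 - h11) / 2] : Fin 2 → M) i) = ![a0, b0] := by
      funext i
      fin_cases i
      · simp only [Fin.zero_eta, Matrix.cons_val_zero]
        rw [hh0, hh1]
        field_simp
        ring
      · simp only [Fin.mk_one, Matrix.cons_val_one, Matrix.cons_val_fin_one]
        rw [hh0, hh1]
        field_simp
        ring
    have e8 : (fun i => (![(0 + h00) / 2, (0 - h00) / 2] : Fin 2 → M) i
        + (a0 + b0 + ρ * ξ) * (![(1 + h11) / 2, (1 - h11) / 2] : Fin 2 → M) i) = Q := by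
      have hs0 : ξ + θ = 2 * δ0 := by
        rw [hθd, hξd]; ring
      have hs1 : ξ - θ = 2 * δ1 := by
        rw [hθd, hξd]; ring
      funext i
      fin_cases i
      · simp only [Fin.zero_eta, Matrix.cons_val_zero]
        rw [hQ0, hh0, hh1]
        field_simp
        linear_combination (ρ * ξ) * hs0
      · simp only [Fin.mk_one, Matrix.cons_val_one, Matrix.cons_val_fin_one]
        rw [hQ1, hh0, hh1]
        field_simp
        linear_combination (ρ * ξ) * hs1
    rwa [e7, e8] at hfin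

end

end Pool.Agent.TCC
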